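import Pool.Agent.MP_5f72fe_nt.H25.SpecN
import Pool.Agent.MP_1246c0_nt.H5.ATT

/-! Cubic forms attached to a class of order three. -/

namespace Pool.Agent.MP_5f72fe_nt.H25N

open NumberField Pool.Agent.MP_1246c0_nt.H55 Pool.Agent.MP_1246c0_nt.H5

variable {K : Type} [Field K] [NumberField K] {n : ℕ} {s : K} {τ : K ≃ₐ[ℚ] K}

theorem algn_tt (hQ : RowQN4) (q : QN4 n s τ) (x : K) : τ (τ x) = x := by
  obtain ⟨a, b, h1, h2⟩ := (hQ.rep K n s τ q).1 x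
  rw [h2, h1]
  simp [q.conj]

theorem algn_sub (hQ : RowQN4) (q : QN4 n s τ) (x : K) (hx : IsIntegral ℤ x) :
    ∃ b : ℤ, (b : K) * s = x - τ x := by
  obtain ⟨a, b, rfl⟩ := (hQ.int K n s τ q x).1 hx
  refine ⟨b, ?_⟩
  simp only [map_add, map_mul, map_intCast, map_div₀, map_one, map_ofNat, q.conj]
  ring

theorem algn_dat (hQ : RowQN4) (q : QN4 n s τ) {δ α β : K} {N : ℚ} (hd : δ ≠ 0) (hn : N ≠ 0)
    (det : α * τ β - τ α * β = N * s) (cube : (N : K) ^ 3 = δ * τ δ)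
    (i0 : IsIntegral ℤ (α ^ 3 / δ)) (i1 : IsIntegral ℤ (α ^ 2 * β / δ))
    (i2 : IsIntegral ℤ (α * β ^ 2 / δ)) (i3 : IsIntegral ℤ (β ^ 3 / δ)) :
    ∃ f, Dat s τ 1 δ f α β N := by
  obtain ⟨a, ha⟩ := algn_sub hQ q _ i0
  obtain ⟨b, hb⟩ := algn_sub hQ q _ i1
  obtain ⟨c, hc⟩ := algn_sub hQ q _ i2
  obtain ⟨d, hd'⟩ := algn_sub hQ q _ i3
  exact ⟨![a, b, c, d], hd, hn, det, by simpa using cube, i0, i1, i2, i3, by simpa using ha,
    by simpa using hb, by simpa using hc, by simpa using hd'⟩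

theorem algn_fin (hQ : RowQN4) (q : QN4 n s τ) {δ α β : K} {N : ℚ} (hd0 : δ ≠ 0) (hN : N ≠ 0)
    (det : α * τ β - τ α * β = N * s) (cube : (N : K) ^ 3 = δ * τ δ)
    (i0 : IsIntegral ℤ (α ^ 3 / δ)) (i1 : IsIntegral ℤ (α ^ 2 * β / δ))
    (i2 : IsIntegral ℤ (α * β ^ 2 / δ)) (i3 : IsIntegral ℤ (β ^ 3 / δ))
    (hc1 : ¬ ∃ y : K, δ = (1 : ℕ) * y ^ 3) :
    ∃ f g : Fm ℤ, Aniso f ∧ Aniso g ∧ dsc f = -n ∧ dsc g = -n ∧ ¬ Eqv f g := by
  have hs : s ≠ 0 := fun h => by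
    have := q.sq
    have h7 := q.md
    rw [h, zero_pow two_ne_zero, eq_comm, neg_eq_zero, Nat.cast_eq_zero] at this
    omega
  have ti : ∀ {x : K}, IsIntegral ℤ x → IsIntegral ℤ (τ x) := fun h =>
    h.map (τ : K →+* K).toIntAlgHom
  have tt := algn_tt hQ q
  obtain ⟨f, hf⟩ := algn_dat hQ q hd0 hN det cube i0 i1 i2 i3
  obtain ⟨g, hg⟩ := algn_dat hQ q (δ := τ δ) (α := τ β) (β := τ α) hf.hd' hN
    (by rw [tt, tt, ← hf.det]; ring) (by rw [tt, cube, mul_comm]) (by simpa using ti i3)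
    (by simpa [mul_comm] using ti i2) (by simpa [mul_comm] using ti i1) (by simpa using ti i0)
  have hd : ∀ {δ f α β N}, Dat s τ 1 δ f α β N → dsc f = -n := fun h => by
    have := h.dsc hs
    rw [q.sq, Nat.cast_one, one_pow, one_mul] at this
    exact_mod_cast this
  refine ⟨f, g, hf.aniso hs hc1, hg.aniso hs ?_, hd hf, hd hg, ?_⟩
  · rintro ⟨y, hy⟩
    exact hc1 ⟨τ y, by simpa [tt] using congrArg τ hy⟩
  · rintro ⟨a, b, c, d, a', b', c', d', e, e', h⟩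
    have c1 := (hf.act a b c d e).cov hs
    have c2 := (hg.act a' b' c' d' e').cov hs
    rw [h, c2] at c1
    have h0 : (a : K) * α + c * β ≠ 0 := fun h0 => by
      obtain ⟨rfl, rfl⟩ := hf.indep hs a c h0
      simp at e
    generalize (a : K) * α + c * β = x at c1 h0
    generalize (a' : K) * τ β + c' * τ α = y at c1
    have h2 := hf.hd'
    have h4 := hf.hn'
    have e1 : y ^ 3 * δ = x ^ 3 * τ δ := by
      rw [← div_eq_div_iff h2 hd0]
      push_cast at c1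
      linear_combination (-1 / 2) * c1
    refine hc1 ⟨δ * y / (N * x), ?_⟩
    rw [div_pow, mul_pow, mul_pow, cube]
    field_simp
    push_cast
    linear_combination -e1

theorem algn_ideal {R : Type} [CommRing R] [IsDedekindDomain R] [Finite (ClassGroup R)]
    (h3 : 3 ∣ Nat.card (ClassGroup R)) :
    ∃ (I : Ideal R) (δ : R), I ≠ ⊥ ∧ I ^ 3 = Ideal.span {δ} ∧ ∀ y, I ≠ Ideal.span {y} := by
  have : Fact (Nat.Prime 3) := ⟨Nat.prime_three⟩
  obtain ⟨c, hc⟩ := exists_prime_orderOf_dvd_card' 3 h3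
  obtain ⟨⟨I, hI⟩, hI'⟩ := ClassGroup.mk0_surjective c
  have h1 : ClassGroup.mk0 ⟨I ^ 3, pow_mem hI 3⟩ = 1 := by
    rw [← pow_orderOf_eq_one c, hc, ← hI', ← map_pow]
    rfl
  obtain ⟨δ, hδ⟩ := (ClassGroup.mk0_eq_one_iff _).1 h1
  refine ⟨I, δ, nonZeroDivisors.ne_zero hI, hδ, fun y e2 => ?_⟩
  have h2 : c = 1 := hI'.symm.trans ((ClassGroup.mk0_eq_one_iff hI).2 ⟨⟨y, e2⟩⟩)
  rw [h2, orderOf_one] at hc
  omega

theorem rowALG4 : OfALG4 := by
  intro hQ K _ _ n s τ q h3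
  obtain ⟨I, δ, hI, hδ', hne⟩ := algn_ideal h3
  have hd0 : (δ : K) ≠ 0 := fun h => by
    have : δ = 0 := by exact_mod_cast h
    rw [this, Ideal.span_singleton_zero] at hδ'
    exact pow_ne_zero 3 hI hδ'
  have hc1 : ¬ ∃ y : K, (δ : K) = (1 : ℕ) * y ^ 3 := by
    rintro ⟨y, hy⟩
    rw [Nat.cast_one, one_mul] at hy
    have hi : IsIntegral ℤ y := IsIntegral.of_pow three_pos (hy ▸ δ.isIntegral_coe)
    obtain ⟨z, rfl⟩ : ∃ z : 𝓞 K, (z : K) = y := ⟨⟨y, hi⟩, rfl⟩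
    have e : δ = z ^ 3 := by exact_mod_cast hy
    rw [e, ← Ideal.span_singleton_pow] at hδ'
    exact hne z (dvd_antisymm
      ((UniqueFactorizationMonoid.pow_dvd_pow_iff_dvd three_ne_zero).1 hδ'.dvd)
      ((UniqueFactorizationMonoid.pow_dvd_pow_iff_dvd three_ne_zero).1 hδ'.symm.dvd))
  obtain ⟨α, hα, β, hβ, det, -⟩ := hQ.basis K n s τ q I hI
  have key : ∀ x ∈ I, ∀ y ∈ I, ∀ z ∈ I, IsIntegral ℤ ((x : K) * y * z / δ) :=
    fun x hx y hy z hz => by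
    have : x * y * z ∈ I ^ 3 := by
      rw [pow_three']
      exact Ideal.mul_mem_mul (Ideal.mul_mem_mul hx hy) hz
    rw [hδ'] at this
    obtain ⟨r, hr⟩ := Ideal.mem_span_singleton'.1 this
    have e : (r : K) * δ = x * y * z := by exact_mod_cast congrArg (fun t : 𝓞 K => (t : K)) hr
    rw [← e, mul_div_cancel_right₀ _ hd0]
    exact r.isIntegral_coe
  refine algn_fin hQ q (N := (Ideal.absNorm I : ℕ)) hd0 ?_ (by simpa using det) ?_ ?_ ?_ ?_ ?_ hc1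
  · exact_mod_cast mt Ideal.absNorm_eq_zero_iff.1 hI
  · rw [hQ.norm K n s τ q δ, ← hδ', map_pow]
    push_cast
    rfl
  · rw [pow_three']
    exact key α hα α hα α hα
  · rw [sq]
    exact key α hα α hα β hβ
  · rw [sq, ← mul_assoc]
    exact key α hα β hβ β hβ
  · rw [pow_three']
    exact key β hβ β hβ β hβ

end Pool.Agent.MP_5f72fe_nt.H25N
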