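import Pool.Agent.MP_5f72fe_nt.H3.SpecC

/-! The kernel of the Shimura lift on one square class. -/

namespace Pool.Agent.MP_5f72fe_nt.H25

open Pool.Agent.MP_5f72fe_nt.H3

noncomputable section

/-- the admissible functions -/
def CC : Submodule (ZMod 3) (V → ZMod 3) where
  carrier := {φ | InC φ}
  zero_mem' := ⟨fun _ _ => rfl, ⟨0, fun _ _ => rfl⟩, fun _ _ _ => rfl, fun _ _ _ => rfl,
    fun _ _ _ => rfl, fun _ => rfl⟩
  add_mem' := by
    intro φ ψ hφ hψ
    refine ⟨fun v h => ?_, ?_, fun l v h => ?_, fun a y b => ?_, fun a y b => ?_, fun v => ?_⟩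
    · simp [hφ.zero v h, hψ.zero v h]
    · obtain ⟨N, hN⟩ := hφ.per
      obtain ⟨M, hM⟩ := hψ.per
      refine ⟨N + M, fun v w => ?_⟩
      have h1 : (3 ^ (N + M) : ℤ) • w = (3 ^ N : ℤ) • ((3 ^ M : ℤ) • w) := by
        rw [smul_smul, pow_add]
      have h2 : (3 ^ (N + M) : ℤ) • w = (3 ^ M : ℤ) • ((3 ^ N : ℤ) • w) := by
        rw [smul_smul, pow_add, mul_comm]
      simp only [Pi.add_apply]
      rw [show φ (v + (3 ^ (N + M) : ℤ) • w) = φ v by rw [h1, hN],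
        show ψ (v + (3 ^ (N + M) : ℤ) • w) = ψ v by rw [h2, hM]]
    · simp only [Pi.add_apply, hφ.hom l v h, hψ.hom l v h]
    · simp only [Pi.add_apply, hφ.sgnA, hψ.sgnA]
    · simp only [Pi.add_apply, hφ.sgnB, hψ.sgnB]
    · simp only [Pi.add_apply, hφ.rot, hψ.rot]
  smul_mem' := by
    intro c φ hφ
    refine ⟨fun v h => ?_, ?_, fun l v h => ?_, fun a y b => ?_, fun a y b => ?_, fun v => ?_⟩
    · simp [hφ.zero v h]
    · obtain ⟨N, hN⟩ := hφ.per
      exact ⟨N, fun v w => by simp only [Pi.smul_apply, hN]⟩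
    · simp only [Pi.smul_apply, hφ.hom l v h]
    · simp only [Pi.smul_apply, hφ.sgnA]
    · simp only [Pi.smul_apply, hφ.sgnB]
    · simp only [Pi.smul_apply, hφ.rot]

theorem mem_CC {φ : V → ZMod 3} : φ ∈ CC ↔ InC φ := Iff.rfl

/-- the theta coefficient as a linear form -/
def THl (n : ℕ) : (V → ZMod 3) →ₗ[ZMod 3] ZMod 3 where
  toFun φ := TH0 φ n
  map_add' φ ψ := by simp [TH0, Finset.sum_add_distrib]
  map_smul' c φ := by simp [TH0, Finset.mul_sum]

theorem THl_apply (n : ℕ) (φ : V → ZMod 3) : THl n φ = TH0 φ n := rfl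

/-- admissible functions whose theta series vanishes on a square class -/
def Wn (n : ℕ) : Submodule (ZMod 3) (V → ZMod 3) where
  carrier := {φ | InC φ ∧ ∀ m : ℕ, 1 ≤ m → TH0 φ (n * m ^ 2) = 0}
  zero_mem' := ⟨CC.zero_mem, fun m _ => (THl _).map_zero⟩
  add_mem' := by
    intro φ ψ hφ hψ
    refine ⟨CC.add_mem hφ.1 hψ.1, fun m hm => ?_⟩
    rw [← THl_apply, map_add, THl_apply, THl_apply, hφ.2 m hm, hψ.2 m hm, add_zero]
  smul_mem' := by
    intro c φ hφ
    refine ⟨CC.smul_mem c hφ.1, fun m hm => ?_⟩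
    rw [← THl_apply, map_smul, THl_apply, hφ.2 m hm, smul_zero]

theorem TH0_one3 (n : ℕ) (hn : n % 3 = 1) : TH0 one3 n = ((Rp0 n).card : ZMod 3) := by
  unfold TH0
  rw [Finset.card_eq_sum_ones, Nat.cast_sum]
  refine Finset.sum_congr rfl fun v hv => ?_
  have h1 : v.2.1 ^ 2 + 3 * v.1 ^ 2 + 3 * v.2.2 ^ 2 = n := by
    simp only [Rp0, Rp, Finset.mem_filter] at hv
    exact hv.1.2.1
  have h2 : ¬ (3 : ℤ) ∣ v.2.1 := by
    rintro ⟨t, ht⟩
    rw [ht] at h1
    have : (n : ℤ) = 3 * (3 * t ^ 2 + v.1 ^ 2 + v.2.2 ^ 2) := by rw [← h1]; ring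
    omega
  simp [one3, h2]

/-- an admissible function whose theta series vanishes on a good square class is zero -/
theorem inj (hS : RowSTAB) (h2 : RowEI2) (h7 : RowEI7) (hO : RowSOC) (n : ℕ) (hn : n % 12 = 7)
    (hsf : Squarefree n) (h3 : ¬ 3 ∣ (Rp0 n).card) (φ : V → ZMod 3) (hφ : InC φ)
    (hz : ∀ m : ℕ, 1 ≤ m → TH0 φ (n * m ^ 2) = 0) : φ = 0 := by
  by_contra hne
  have h4 : n % 4 = 3 := by omega
  have hW : one3 ∈ Wn n := by
    refine hO (Wn n) (fun ψ hψ => hψ.1) (fun ψ hψ => ⟨⟨(hS ψ hψ.1).1, ?_⟩, ⟨(hS ψ hψ.1).2, ?_⟩⟩) ?_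
    · exact h2 ψ n hψ.1 hsf h4 hψ.2
    · exact h7 ψ n hψ.1 hsf h4 hψ.2
    · intro hb
      have : φ ∈ Wn n := ⟨hφ, hz⟩
      rw [hb] at this
      exact hne this
  have h5 := hW.2 1 le_rfl
  rw [one_pow, mul_one, TH0_one3 n (by omega)] at h5
  exact h3 ((ZMod.natCast_eq_zero_iff _ 3).1 h5)

theorem coeff_red (F : PowerSeries ℤ) (n : ℕ) :
    PowerSeries.coeff n (red F) = ((PowerSeries.coeff n F : ℤ) : ZMod 3) := by
  simp [red, PowerSeries.coeff_map]

theorem rowKER : OfKER := by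
  intro hV3 hCLS hRAT hS h2 h7 hO hWG hSUR hKB k n c hk hn hsf h3 hc h0 hz
  by_contra hne
  have h1 : cls1 (toV k c) ≠ 0 := fun h => hne (hKB k c hk hc h0 h)
  obtain ⟨x, hx⟩ := hCLS k _ _ (by omega) (hV3 k c hc)
  have hx0 : x ≠ 0 := by
    rintro rfl
    exact h1 (by simpa using hx)
  obtain ⟨z, ⟨i, hi⟩, hz'⟩ := hRAT.down (Fin k × Bool)
    (fun p t => PowerSeries.coeff t (yb k (p.1, p.2))) {t | ∃ m, 1 ≤ m ∧ t = n * m ^ 2} x hx0 (by
      rintro t ⟨m, hm, rfl⟩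
      have h4 := congrFun hx (n * m ^ 2)
      have h5 : cls1 (toV k c) (n * m ^ 2) = 0 := by
        have h6 := hz m hm
        unfold cls1 toV
        unfold NN at h6
        split_ifs with h7 h8
        · rw [if_pos h8] at h6
          simpa [mul_assoc] using h6
        · rw [if_neg h8] at h6
          exact h6
        · rfl
      rw [h5] at h4
      simpa [cz, Finset.sum_apply] using h4.symm)
  choose j w hj hw hr using hWG k
  choose φ hφ hT using fun p => hSUR (j p) (w p) (hj p) (hw p)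
  have hTH : ∀ t, TH0 (∑ p : Fin k × Bool, (z p : ZMod 3) • φ (p.1, p.2)) t =
      ∑ p : Fin k × Bool, (z p : ZMod 3) * PowerSeries.coeff t (red (yb k (p.1, p.2))) := by
    intro t
    rw [← THl_apply, map_sum]
    refine Finset.sum_congr rfl fun p _ => ?_
    rw [map_smul, THl_apply, hT, hr, smul_eq_mul]
  have hΦ : (∑ p : Fin k × Bool, (z p : ZMod 3) • φ (p.1, p.2)) = 0 := by
    refine inj hS h2 h7 hO n hn hsf h3 _
      (CC.sum_mem fun p _ => CC.smul_mem _ (hφ _)) fun m hm => ?_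
    rw [hTH]
    have h4 := congrArg (Int.cast : ℤ → ZMod 3) (hz' (n * m ^ 2) ⟨m, hm, rfl⟩)
    simpa [coeff_red] using h4
  have h5 := hRAT.ind k k (fun p => (z p : ZMod 3)) fun t => by
    rw [← hTH, hΦ, ← THl_apply, map_zero]
  exact hi ((ZMod.intCast_zmod_eq_zero_iff_dvd _ 3).1 (congrFun h5 i))

end

end Pool.Agent.MP_5f72fe_nt.H25
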