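import Pool.Agent.MP_5f72fe_nt.H3.SpecC

/-! Statements, part D: the central value itself. -/

namespace Pool.Agent.MP_5f72fe_nt.H25

open Pool.Agent.MP_5f72fe_nt.H3 Complex
open scoped MatrixGroups PowerSeries

noncomputable section

/-! ### Series (variable `e(τ/12)`) -/

/-- squares divisible by `9` -/
def Z0 (μ : ℕ) : ℤ⟦X⟧ := PowerSeries.mk fun n =>
  (((Finset.Icc (-(n : ℤ)) n).filter fun r : ℤ => 9 * r ^ 2 = n ∧ r % 2 = μ).card : ℤ)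

/-- squares prime to `3` -/
def Z1 (μ : ℕ) : ℤ⟦X⟧ := PowerSeries.mk fun n =>
  (((Finset.Icc (-(n : ℤ)) n).filter fun r : ℤ => r ^ 2 = n ∧ r % 3 = 1 ∧ r % 2 = μ).card : ℤ)

/-- `η²` -/
def D2 : ℤ⟦X⟧ := Z0 0 * Z1 1 - Z0 1 * Z1 0

/-- the generator of weight `3/2` -/
def W0 (μ : ℕ) : ℤ⟦X⟧ := Aa * Z1 μ - 3 * Kk * Z0 μ

/-- the generator of weight `7/2` -/
def W2 (μ : ℕ) : ℤ⟦X⟧ := (Aa ^ 3 - 108 * Kk ^ 3) * Z1 μ + 9 * Aa ^ 2 * Kk * Z0 μ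

structure RowZ : Prop where
  sup0 : Sup 12 0 (Z0 0) ∧ Sup 12 9 (Z0 1) ∧ PowerSeries.coeff 0 (Z0 0) = 1
  sup1 : Sup 12 4 (Z1 0) ∧ Sup 12 1 (Z1 1) ∧ PowerSeries.coeff 1 (Z1 1) = 1
  supD : Sup 12 1 D2 ∧ PowerSeries.coeff 1 D2 = 1
  supW : Sup 12 4 (W0 0) ∧ Sup 12 1 (W0 1) ∧ Sup 12 4 (W2 0) ∧ Sup 12 1 (W2 1)
  sm : ∀ μ < 2, Sm (cz (Z0 μ)) ∧ Sm (cz (Z1 μ))
  law0 : ∀ τ : ℂ, 0 < τ.im → ∀ μ < 2, sr (Z0 μ) (-1 / τ) = Jh τ / (√3 : ℝ) *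
    (((sr (Z0 0) τ + 2 * sr (Z1 0) τ) + (-1) ^ μ * (sr (Z0 1) τ + 2 * sr (Z1 1) τ)) / (√2 : ℝ))
  law1 : ∀ τ : ℂ, 0 < τ.im → ∀ μ < 2, sr (Z1 μ) (-1 / τ) = Jh τ / (√3 : ℝ) *
    (((sr (Z0 0) τ - sr (Z1 0) τ) + (-1) ^ μ * (sr (Z0 1) τ - sr (Z1 1) τ)) / (√2 : ℝ))
  lawD : ∀ τ : ℂ, 0 < τ.im → sr D2 (-1 / τ) = Jh τ ^ 2 * sr D2 τ
  neD : ∀ τ : ℂ, 0 < τ.im → sr D2 τ ≠ 0
  lawW0 : ∀ τ : ℂ, 0 < τ.im → ∀ μ < 2, sr (W0 μ) (-1 / τ) =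
    -Jh τ ^ 3 * ((sr (W0 0) τ + (-1) ^ μ * sr (W0 1) τ) / (√2 : ℝ))
  lawW2 : ∀ τ : ℂ, 0 < τ.im → ∀ μ < 2, sr (W2 μ) (-1 / τ) =
    Jh τ ^ 7 * ((sr (W2 0) τ + (-1) ^ μ * sr (W2 1) τ) / (√2 : ℝ))

/-- the Fricke transform of the part `1` modulo `3` -/
def flatP (k : ℕ) (c : ℕ → ℂ) : ℕ → ℂ := fun n =>
  I ^ k * (3 ^ (2 * k) * up 9 c n + 3 ^ k * chi3 (n + 1) * c n)

def RowF9P : Prop :=
  ∀ (k : ℕ) (c : ℕ → ℂ), k % 2 = 0 → VL k c → SL 12 4 3 (2 * k + 1) 1 (cls1 c) (flatP k c)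

/-- the spanning series -/
def ybP (k : ℕ) (p : ℕ × Bool) : ℤ⟦X⟧ :=
  if p.2 then Aa ^ (k - 1 - 3 * p.1) * Kk ^ (3 * p.1 + 1) * (Z0 0 + Z0 1)
  else Aa ^ (k - 3 * p.1) * Kk ^ (3 * p.1) * (Z1 0 + Z1 1)

def RowCLSP : Prop :=
  ∀ (k : ℕ) (c : ℕ → ℂ), 1 ≤ k → k % 2 = 0 → VL k c → ∃ x : Fin (k + 1) × Bool → ℂ,
    cls1 c = ∑ p : Fin (k + 1) × Bool, x p • cz (ybP k (p.1, p.2))

def RowINDP : Prop :=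
  ∀ (k r : ℕ) (z : Fin r × Bool → ZMod 3),
    (∀ n, ∑ p : Fin r × Bool, z p * PowerSeries.coeff n (red (ybP k (p.1, p.2))) = 0) → z = 0

/-- forms of weight `d + 3/2` with exponents `1` and `4` modulo `12` -/
def WP (d : ℕ) (h : ℕ → ℂ) : Prop :=
  Sm h ∧ (∀ n, h n ≠ 0 → n % 12 = 1 ∨ n % 12 = 4) ∧ SL 12 12 1 (2 * d + 3) (-I ^ d) h h

def RowWDIMP : Prop :=
  ∀ (d : ℕ) (ι : Type) [Fintype ι] (h : ι → ℕ → ℂ), Even d → (∀ i, WP d (h i)) →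
    LinearIndependent ℂ h → Fintype.card ι ≤ d / 6 + 1

def RowWGENP : Prop :=
  ∀ (k : ℕ) (p : ℕ × Bool), ∃ (d : ℕ) (w : ℤ⟦X⟧), Even d ∧ WP d (cz w) ∧ red w = red (ybP k p)

/-! ### Ternary theta series -/

/-- the weight -/
def ep (v : V) : ℤ := if 3 ∣ v.2.1 then chi3 v.1 ^ 2 - chi3 v.2.2 ^ 2 else 0

/-- the full theta series of a coefficient function -/
def THF {R : Type} [AddCommMonoid R] (G : V → R) (n : ℕ) : R := ∑ v ∈ Rp n, G v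

/-- a harmonic polynomial of degree `d` times the weight -/
def PdP (d m : ℕ) (v : V) : ℤ :=
  ep v * ((⟨v.2.1, v.2.2⟩ : ℤ√(-3)) ^ m).re *
    ∑ i ∈ (Finset.range (d + 1)).filter fun i => m + 2 * i ≤ d,
      (d.choose i * (d - i).choose (m + i) : ℕ) * (-3 * (v.2.1 ^ 2 + 3 * v.2.2 ^ 2)) ^ i *
        (6 * v.1) ^ (d - m - 2 * i)

structure RowPOLP : Prop where
  per : ∀ (d m e : ℕ) (v w : V), (3 : ℤ) ^ (e + 1) ∣ PdP d m (v + (3 ^ (e + 1) : ℤ) • w) - PdP d m v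
  hom : ∀ (d m : ℕ) (l : ℤ) (v : V), ¬ 3 ∣ l → PdP d m (l • v) = l ^ d * PdP d m v
  sgnA : ∀ (d m : ℕ) (a y b : ℤ), d % 2 = m % 2 → PdP d m (-a, y, b) = PdP d m (a, y, b)
  sgnB : ∀ (d m : ℕ) (a y b : ℤ), PdP d m (a, y, -b) = PdP d m (a, y, b)
  rot : ∀ (d m : ℕ) (v : V), 3 ∣ m → PdP d m (sg v) = (-2) ^ d * PdP d m v
  ind : ∀ (d : ℕ) (z : Fin (d / 6 + 1) → ℤ), Even d →
    (∀ v : V, ∑ l, z l * PdP d (6 * l) v = 0) → z = 0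

def RowTER1P : Prop :=
  ∀ (d : ℕ) (s w₁ w₂ : ℂ), Even d → s ^ 2 + 3 * w₁ ^ 2 + w₂ ^ 2 = 0 →
    WP d fun n => ∑ v ∈ Rp (3 * n), (ep v : ℂ) * (s * v.1 + w₁ * v.2.1 + w₂ * v.2.2) ^ d

def RowTERP : Prop := ∀ d l : ℕ, Even d → WP d fun n => ((THF (PdP d (6 * l)) (3 * n) : ℤ) : ℂ)

/-- invariant functions -/
structure Inv {R : Type} (G : V → R) : Prop where
  hom : ∀ (l : ℤ) (v : V), ¬ 3 ∣ l → G (l • v) = G v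
  sgnA : ∀ a y b : ℤ, G (-a, y, b) = G (a, y, b)
  sgnB : ∀ a y b : ℤ, G (a, y, -b) = G (a, y, b)
  rot : ∀ v : V, G (sg v) = G v

/-- admissible functions modulo `3` -/
structure InP (φ : V → ZMod 3) : Prop extends Inv φ where
  zero : ∀ v : V, ep v = 0 → φ v = 0
  per : ∃ N : ℕ, ∀ v w : V, φ (v + (3 ^ N : ℤ) • w) = φ v

/-- admissible integral functions -/
structure InZ (G : V → ℤ) : Prop extends Inv G where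
  zero : ∀ v : V, ep v = 0 → G v = 0
  per : ∃ N : ℕ, ∀ v w : V, 3 ∣ G (v + (3 ^ N : ℤ) • w) - G v
  fix : 3 ∣ G (1, 0, 0)

def RowSTABP : Prop := ∀ G, InZ G → InZ (T2 G) ∧ InZ (T7 G)

def RowEIZ2 : Prop :=
  ∀ (G : V → ℤ) (N : ℕ), Inv G → N % 4 = 0 ∨ N % 4 = 3 → ∃ x : ℤ,
    THF (T2 G) N = THF G (4 * N) + x * THF G N + if 4 ∣ N then 2 * THF G (N / 4) else 0

def RowEIZ7 : Prop :=
  ∀ (G : V → ℤ) (N : ℕ), Inv G → ∃ x : ℤ,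
    THF (T7 G) N = THF G (49 * N) + x * THF G N + if 49 ∣ N then 7 * THF G (N / 49) else 0

/-- orbits of the rotation of order three -/
def RowORB3 : Prop :=
  ∀ (G : V → ℤ) (n : ℕ), (∀ v w : V, sg v = (-2 : ℤ) • w → G w = G v) →
    (∀ a : ℤ, 3 * a ^ 2 = n → 3 ∣ G (a, 0, 0)) → 3 ∣ THF G n

/-! ### The weighted degree -/

/-- weighted degree less than `m` -/
def DW (m : ℕ) (ψ : ℤ × ℤ → ZMod 3) : Prop :=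
  ∀ i j : ℕ, m ≤ i + 2 * j → df1^[i] (df2^[j] ψ) = 0

structure RowDEGW : Prop where
  zero : ∀ (m i j : ℕ) (ψ : ℤ × ℤ → ZMod 3), DW m ψ → m ≤ i + 2 * j → cof i j ψ = 0
  down : ∀ (m : ℕ) (ψ : ℤ × ℤ → ZMod 3), DW (m + 1) ψ → (∀ i j, i + 2 * j = m → cof i j ψ = 0) →
    DW m ψ

/-- first order expansions along projective maps -/
structure RowTAYW : Prop where
  one : ∀ (m N : ℕ) (ψ : ℤ × ℤ → ZMod 3) (g : ℤ × ℤ → ℤ × ℤ)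
    (u l n₁ n₂ n₁₁ n₁₂ n₂₁ n₂₂ t c q r : ℤ), DW (m + 1) ψ → m < 3 ^ N → ¬ 3 ∣ u →
    3 ∣ l - u * q → 3 ∣ n₁ - u * t → 3 ∣ n₁₁ - u → 9 ∣ n₁₂ - u * (3 * c) → 3 ∣ n₂₁ - u * r →
    3 ∣ n₂₂ - u →
    (∀ w : ℤ × ℤ, (3 : ℤ) ^ N ∣ (u + 3 * l * w.1) * (g w).1 - (n₁ + n₁₁ * w.1 + n₁₂ * w.2)) →
    (∀ w : ℤ × ℤ, (3 : ℤ) ^ N ∣ (u + 3 * l * w.1) * (g w).2 - (n₂ + n₂₁ * w.1 + n₂₂ * w.2)) →
    DW (m + 1) (ψ ∘ g) ∧ ∀ i j : ℕ, m ≤ i + 2 * j + 1 → cof i j (ψ ∘ g) =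
      cof i j ψ - t * cof (i + 1) j ψ + j * c * cof (i + 3) (j - 1) ψ +
        i * (i - 1) * q * cof (i + 1) j ψ + i * r * cof (i - 1) (j + 1) ψ
  three : ∀ (m N : ℕ) (ψ : ℤ × ℤ → ZMod 3) (g : ℤ × ℤ → ℤ × ℤ)
    (u l n₁ n₂ n₁₁ n₁₂ n₂₁ n₂₂ t : ℤ), DW (m + 1) ψ → m < 3 ^ N → ¬ 3 ∣ u →
    9 ∣ n₁ - u * (3 * t) → 9 ∣ n₁₁ - u → 9 ∣ n₁₂ → 3 ∣ n₂ → 3 ∣ n₂₁ → 3 ∣ n₂₂ - u →
    (∀ w : ℤ × ℤ, (3 : ℤ) ^ N ∣ (u + 9 * l * w.1) * (g w).1 - (n₁ + n₁₁ * w.1 + n₁₂ * w.2)) →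
    (∀ w : ℤ × ℤ, (3 : ℤ) ^ N ∣ (u + 9 * l * w.1) * (g w).2 - (n₂ + n₂₁ * w.1 + n₂₂ * w.2)) →
    ∀ i j : ℕ, m ≤ i + 2 * j + 3 → cof i j (ψ ∘ g) = cof i j ψ - t * cof (i + 3) j ψ

/-- the socle theorem -/
def RowSOCP : Prop :=
  ∀ W : Submodule (ZMod 3) (V → ZMod 3), (∀ φ ∈ W, InP φ) → (∀ φ ∈ W, T2 φ ∈ W ∧ T7 φ ∈ W) →
    (∀ φ ∈ W, φ (1, 0, 0) = 0 ∧ φ (0, 0, 1) = 0 ∧ φ (1, 12, 0) = 0) → W = ⊥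

def RowINJP : Prop :=
  ∀ G, InZ G → (∀ m : ℕ, 1 ≤ m → 9 ∣ THF G (3 * m ^ 2)) →
    (∀ v, 3 ∣ G v) ∧ ∀ n : ℕ, 9 ∣ THF G (3 * n)

def RowSURP : Prop :=
  ∀ (d : ℕ) (w : ℤ⟦X⟧), Even d → WP d (cz w) →
    ∃ G, InZ G ∧ ∀ n : ℕ, 9 ∣ THF G (3 * n) - 3 * PowerSeries.coeff n w

def RowKBP : Prop :=
  ∀ (k : ℕ) (c : ℕ → ℂ), 6 ≤ k → k % 2 = 0 → VL k c → c 0 = 0 → cls1 c = 0 → c = 0

def RowKER1 : Prop :=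
  ∀ (k : ℕ) (c : ℕ → ℂ), 6 ≤ k → k % 2 = 0 → VL k c → c 0 = 0 →
    (∀ m : ℕ, 1 ≤ m → c (1 * m ^ 2) = 0) → c = 0

/-- the central value -/
def RowONE : Prop :=
  ∀ (k : ℕ) (f : CuspForm 𝒮ℒ (2 * k : ℕ)), Hecke k (aF f) → k % 2 = 0 →
    ∃ L, IsL 1 k (aF f) L ∧ L k ≠ 0

/-! ### The shape of the rows -/

def OfZ : Prop := RowSER → RowJH → RowTH → RowINT → RowBASE → RowZ
def OfF9P : Prop := RowSER → RowJH → RowF9P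
def OfCLSP : Prop :=
  RowSER → RowJH → RowINT → RowBASE → RowNZ → RowMF3 → RowZ → RowF9P → RowCLSP
def OfINDP : Prop := RowINT → RowZ → RowINDP
def OfWDIMP : Prop := RowSER → RowJH → RowINT → RowBASE → RowNZ → RowZ → RowWDIMP
def OfWGENP : Prop := RowSER → RowJH → RowINT → RowBASE → RowNZ → RowZ → RowWGENP
def OfTER1P : Prop := RowSER → RowJH → RowTH → RowTER1P
def OfTERP : Prop := RowSER → RowTER1P → RowTERP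
def OfSOCP : Prop := RowDEG → RowDEGW → RowTAYW → RowSOCP
def OfINJP : Prop := RowSTABP → RowEIZ2 → RowEIZ7 → RowORB3 → RowSOCP → RowINJP
def OfSURP : Prop := RowRAT → RowPOLP → RowTERP → RowWDIMP → RowORB3 → RowINJP → RowSURP
def OfKBP : Prop := RowSER → RowJH → RowF9P → RowODD → RowT3 → RowCOL → RowSHIM → RowKBP
def OfKER1 : Prop :=
  RowRAT → RowCLSP → RowINDP → RowWGENP → RowINJP → RowSURP → RowKBP → RowKER1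

end

end Pool.Agent.MP_5f72fe_nt.H25
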