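import Pool.Agent.MP_5f72fe_nt.H25.Kb
import Pool.Agent.MP_5f72fe_nt.H25.Ker
import Pool.Agent.MP_5f72fe_nt.H25.SpecD
import Pool.Agent.MP_5f72fe_nt.H3.Main

/-! The part `1` modulo `3` in even weight, the kernel of the first lift, the central value. -/

namespace Pool.Agent.MP_5f72fe_nt.H25

open Pool.Agent.MP_5f72fe_nt.H3 Complex
open scoped MatrixGroups NumberTheorySymbols

noncomputable section

theorem chi3_norm (y : ℤ) : ‖((chi3 y : ℤ) : ℂ)‖ ≤ 1 := by
  have h : chi3 y = 0 ∨ chi3 y = 1 ∨ chi3 y = -1 := by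
    unfold chi3
    rw [Int.bmod_def]
    split_ifs <;> omega
  rcases h with h | h | h <;> simp [h]

theorem sm_flatP (k : ℕ) (c : ℕ → ℂ) (hc : Sm c) : Sm (flatP k c) := by
  refine sm_le _ _ c (3 ^ (2 * k)) (sm_up 9 (by norm_num) c hc) hc fun n => ?_
  unfold flatP
  rw [norm_mul, norm_pow, norm_I, one_pow, one_mul]
  refine (norm_add_le _ _).trans ?_
  rw [norm_mul, norm_mul, norm_mul, norm_pow, norm_pow, show ‖(3 : ℂ)‖ = 3 by simp]
  have h1 := chi3_norm (n + 1)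
  have h2 : (3 : ℝ) ^ k ≤ 3 ^ (2 * k) := pow_le_pow_right₀ (by norm_num) (by omega)
  have h3 : (3 : ℝ) ^ k * ‖((chi3 (n + 1) : ℤ) : ℂ)‖ ≤ 3 ^ (2 * k) * 2 :=
    mul_le_mul h2 (by linarith) (norm_nonneg _) (by positivity)
  have := mul_le_mul_of_nonneg_right h3 (norm_nonneg (c n))
  linarith

theorem sl_zero (hS : RowSER) (hJ : RowJH) (w : ℕ) (c d : ℕ → ℂ) (hs : Sm d)
    (h : SL 12 4 3 w 1 c d) (h0 : c = 0) : d = 0 := by
  refine hS.uniq 4 _ 0 (by norm_num) fun τ hτ => ?_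
  have h1 := h τ hτ 0 (by norm_num)
  have h2 : ser 12 (par 0 c) (-1 / ((3 : ℕ) * τ)) = 0 := by simp [ser, par, h0]
  have h3 : (Real.sqrt 2 : ℂ) ≠ 0 := by simp
  rw [h2, pow_zero, one_mul, one_mul, eq_comm, mul_eq_zero, div_eq_zero_iff] at h1
  have h4 := (h1.resolve_left (pow_ne_zero _ (hJ.jne τ hτ))).resolve_right h3
  have h5 := ((hS.nsum 4 _ τ (by norm_num) (sm_par 0 _ hs) hτ).of_norm.hasSum).add
    (hS.nsum 4 _ τ (by norm_num) (sm_par 1 _ hs) hτ).of_norm.hasSum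
  unfold ser at h4
  rw [h4] at h5
  have h6 : (fun n : ℕ => d n * E (n * τ / (4 : ℕ))) = fun n : ℕ =>
      par 0 d n * E (n * τ / (4 : ℕ)) + par 1 d n * E (n * τ / (4 : ℕ)) := by
    funext n
    unfold par
    rcases Nat.mod_two_eq_zero_or_one n with h7 | h7 <;> simp [h7]
  rw [h6]
  exact h5

theorem odd_zero (hO : RowODD) (k : ℕ) (c : ℕ → ℂ) (hk : 6 ≤ k) (hc : VL k c)
    (key : ∀ N, Adm N k → ∀ m, 1 ≤ m → c (N * m ^ 2) = 0) : c = 0 := by
  refine hO k c hc (funext fun n => ?_)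
  unfold par
  split_ifs with h2
  · by_contra hn
    obtain ⟨N, m, hm, hN⟩ := Nat.sq_mul_squarefree n
    have h3 : m % 2 = 1 := by
      by_contra h
      obtain ⟨y, rfl⟩ : 2 ∣ m := by omega
      have : n = 2 * (2 * y ^ 2 * N) := by rw [← hm]; ring
      omega
    have h4 : n % 4 = N % 4 := by
      obtain ⟨y, rfl⟩ : ∃ y, m = 2 * y + 1 := ⟨m / 2, by omega⟩
      have : n = N + 4 * ((y ^ 2 + y) * N) := by rw [← hm]; ring
      omega
    have h5 := hc.2.1 n hn
    have h6 := key N ⟨hk, hN, by omega⟩ m (by omega)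
    rw [mul_comm, hm] at h6
    exact hn h6
  · rfl

theorem rowKBP : OfKBP := by
  intro hS hJ hF hO hT hC hH k c hk hk2 hc h0 h1
  have hf := sl_zero hS hJ _ _ _ (sm_flatP k c hc.1) (hF k c hk2 hc) h1
  have r3 : ∀ n : ℕ, n % 3 = 0 → c n = -3 ^ k * up 9 c n := by
    intro n hn
    have h2 := congrFun hf n
    have h3 : chi3 (n + 1) = 1 := by
      have := chi3_one (n + 1) (by omega)
      exact_mod_cast this
    unfold flatP at h2
    rw [h3] at h2
    have h4 := (mul_eq_zero.1 h2).resolve_left (pow_ne_zero _ I_ne_zero)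
    refine mul_left_cancel₀ (pow_ne_zero k (three_ne_zero (α := ℂ))) ?_
    push_cast at h4
    linear_combination h4
  refine odd_zero hO k c hk hc fun N hA => ?_
  have hN := hA.2.1
  have hN4 := hA.2.2
  have r9 : ∀ m, c (N * (3 * m) ^ 2) = -1 * 3 ^ k * c (N * m ^ 2) := fun m => by
    rw [show N * (3 * m) ^ 2 = 9 * (N * m ^ 2) by ring, r3 _ (by omega), up_mul 9 (by norm_num)]
    ring
  by_cases h3 : N % 3 = 2
  · have hj : J(3 | N) = -1 := by
      rw [← chi3_two N h3, ← jac_three]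
      exact (jacobiSym.quadratic_reciprocity_one_mod_four (a := N) (b := 3) (by omega)
        (by decide)).symm
    exact eig_zero hS hT hC hH N k c hA hc h0 (-1) (by ring) (by rw [hj]; simp) fun m _ => r9 m
  · refine three_ind (fun m hm => ?_) fun m hm ih => by rw [r9, ih m hm le_rfl, mul_zero]
    have h6 := sq_mod N m hm
    by_cases h4 : N % 3 = 1
    · have h5 := congrFun h1 (N * m ^ 2)
      simpa [cls1, h6, h4] using h5
    · rw [r3 _ (by omega), up, if_neg fun h => hm (nine_dvd N m hN h), mul_zero]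

/-- the admissible integral functions -/
def CZ : Submodule ℤ (V → ℤ) where
  carrier := {G | InZ G}
  zero_mem' := ⟨⟨fun _ _ _ => rfl, fun _ _ _ => rfl, fun _ _ _ => rfl, fun _ => rfl⟩,
    fun _ _ => rfl, ⟨0, fun _ _ => by simp⟩, by simp⟩
  add_mem' := by
    intro φ ψ hφ hψ
    refine ⟨⟨fun l v h => ?_, fun a y b => ?_, fun a y b => ?_, fun v => ?_⟩, fun v h => ?_, ?_,
      dvd_add hφ.fix hψ.fix⟩
    · simp only [Pi.add_apply, hφ.hom l v h, hψ.hom l v h]
    · simp only [Pi.add_apply, hφ.sgnA, hψ.sgnA]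
    · simp only [Pi.add_apply, hφ.sgnB, hψ.sgnB]
    · simp only [Pi.add_apply, hφ.rot, hψ.rot]
    · simp [hφ.zero v h, hψ.zero v h]
    · obtain ⟨N, hN⟩ := hφ.per
      obtain ⟨M, hM⟩ := hψ.per
      refine ⟨N + M, fun v w => ?_⟩
      have h1 : (3 ^ (N + M) : ℤ) • w = (3 ^ N : ℤ) • ((3 ^ M : ℤ) • w) := by
        rw [smul_smul, pow_add]
      have h2 : (3 ^ (N + M) : ℤ) • w = (3 ^ M : ℤ) • ((3 ^ N : ℤ) • w) := by
        rw [smul_smul, pow_add, mul_comm]
      have h3 := hN v ((3 ^ M : ℤ) • w)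
      have h4 := hM v ((3 ^ N : ℤ) • w)
      rw [← h1] at h3
      rw [← h2] at h4
      simp only [Pi.add_apply]
      rw [add_sub_add_comm]
      exact dvd_add h3 h4
  smul_mem' := by
    intro c φ hφ
    refine ⟨⟨fun l v h => ?_, fun a y b => ?_, fun a y b => ?_, fun v => ?_⟩, fun v h => ?_, ?_,
      hφ.fix.mul_left c⟩
    · simp only [Pi.smul_apply, hφ.hom l v h]
    · simp only [Pi.smul_apply, hφ.sgnA]
    · simp only [Pi.smul_apply, hφ.sgnB]
    · simp only [Pi.smul_apply, hφ.rot]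
    · simp [hφ.zero v h]
    · obtain ⟨N, hN⟩ := hφ.per
      refine ⟨N, fun v w => ?_⟩
      simp only [Pi.smul_apply, smul_eq_mul]
      rw [← mul_sub]
      exact (hN v w).mul_left c

/-- the theta coefficient as a linear form -/
def TFl (n : ℕ) : (V → ℤ) →ₗ[ℤ] ℤ where
  toFun G := THF G n
  map_add' φ ψ := by simp [THF, Finset.sum_add_distrib]
  map_smul' c φ := by simp [THF, Finset.mul_sum]

theorem TFl_apply (n : ℕ) (G : V → ℤ) : TFl n G = THF G n := rfl

theorem rowKER1 : OfKER1 := by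
  intro hRAT hCLS hI hWG hJ hSUR hKB k c hk hk2 hc h0 hz
  by_contra hne
  have h1 : cls1 c ≠ 0 := fun h => hne (hKB k c hk hk2 hc h0 h)
  obtain ⟨x, hx⟩ := hCLS k c (by omega) hk2 hc
  have hx0 : x ≠ 0 := by
    rintro rfl
    exact h1 (by simpa using hx)
  obtain ⟨z, ⟨i, hi⟩, hz'⟩ := hRAT.down (Fin (k + 1) × Bool)
    (fun p t => PowerSeries.coeff t (ybP k (p.1, p.2))) {t | ∃ m, 1 ≤ m ∧ t = m ^ 2} x hx0 (by
      rintro t ⟨m, hm, rfl⟩
      have h4 := congrFun hx (m ^ 2)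
      have h5 : cls1 c (m ^ 2) = 0 := by
        have h6 := hz m hm
        rw [one_mul] at h6
        simp [cls1, h6]
      rw [h5] at h4
      simpa [cz, Finset.sum_apply] using h4.symm)
  choose d w hd hw hr using hWG k
  choose G hG hT using fun p => hSUR (d p) (w p) (hd p) (hw p)
  have hTH : ∀ t, 9 ∣ THF (∑ p : Fin (k + 1) × Bool, z p • G (p.1, p.2)) (3 * t) -
      3 * ∑ p : Fin (k + 1) × Bool, z p * PowerSeries.coeff t (ybP k (p.1, p.2)) := by
    intro t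
    rw [← TFl_apply, map_sum, Finset.mul_sum, ← Finset.sum_sub_distrib]
    refine Finset.dvd_sum fun p _ => ?_
    rw [map_smul, TFl_apply, smul_eq_mul]
    obtain ⟨a, ha⟩ := hT (p.1, p.2) t
    have h4 := congrArg (PowerSeries.coeff t) (hr (p.1, p.2))
    rw [coeff_red, coeff_red] at h4
    obtain ⟨b, hb⟩ := (ZMod.intCast_eq_intCast_iff_dvd_sub _ _ 3).1 h4
    exact ⟨z p * (a - b), by push_cast at hb; linear_combination z p * ha - 3 * z p * hb⟩
  have h6 := (hJ _ (CZ.sum_mem fun (p : Fin (k + 1) × Bool) _ => CZ.smul_mem (z p) (hG (p.1, p.2)))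
    fun m hm => by
      have h4 := hTH (m ^ 2)
      rwa [hz' (m ^ 2) ⟨m, hm, rfl⟩, mul_zero, sub_zero] at h4).2
  have h5 := hI k (k + 1) (fun p => (z p : ZMod 3)) fun t => by
    have h4 := (dvd_sub_right (h6 t)).1 (hTH t)
    have h7 : (3 : ℤ) ∣ ∑ p : Fin (k + 1) × Bool, z p * PowerSeries.coeff t (ybP k (p.1, p.2)) :=
      (mul_dvd_mul_iff_left (by norm_num : (3 : ℤ) ≠ 0)).1 h4
    have h8 := (ZMod.intCast_zmod_eq_zero_iff_dvd _ 3).2 h7
    simpa [coeff_red] using h8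
  exact hi ((ZMod.intCast_zmod_eq_zero_iff_dvd _ 3).1 (congrFun h5 i))

theorem rowONE (hS : RowSER) (hK : RowKER1) (hC : RowCRIT) (hE : RowEXL) : RowONE := by
  intro k f hf hk2
  have hk := six_le hS f hf.1
  have hA : Adm 1 k := ⟨hk, squarefree_one, by omega⟩
  obtain ⟨L, hL⟩ := hE 1 k f hA
  exact ⟨L, hL, hC 1 k f L hA hf hL fun c => hK k c hk hk2⟩

end

end Pool.Agent.MP_5f72fe_nt.H25
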