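import Pool.Agent.MP_5f72fe_nt.H25.SocP1

/-! The socle theorem with a fixed point. -/

namespace Pool.Agent.MP_5f72fe_nt.H25

open Pool.Agent.MP_5f72fe_nt.H3

variable {F : V → ZMod 3}

theorem odd0 {x : ZMod 3} {i : ℕ} (hi : i % 2 = 1) (h : x = (-1) ^ i * x) : x = 0 := by
  rw [(Nat.odd_iff.2 hi).neg_one_pow] at h
  linear_combination 2 * h - x * three0

/-- even functions -/
structure Ev (F : V → ZMod 3) : Prop extends Hm F where
  sgnA : ∀ a y b : ℤ, F (-a, y, b) = F (a, y, b)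
  sgnB : ∀ a y b : ℤ, F (a, y, -b) = F (a, y, b)

theorem Ev.sgnY (h : Ev F) (a y b : ℤ) : F (a, -y, b) = F (a, y, b) := by
  rw [h.toHm.e (-1) (by decide) (a' := -a) (y' := y) (b' := -b) (by ring) (by ring) (by ring),
    h.sgnA, h.sgnB]

theorem Ev.sw (h : Ev F) : Ev (F ∘ sw) :=
  ⟨h.toHm.sw, fun a y b => h.sgnB b y a, fun a y b => h.sgnA b y a⟩

theorem Ev.odd (hD : RowDEG) (h : Ev F) (i j : ℕ) (e : i % 2 = 1 ∨ j % 2 = 1) : cf F i j = 0 := by
  rcases e with e | e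
  · refine odd0 e ?_
    unfold cf
    rw [← hD.neg1]
    congr 1
    funext w
    simp only [cc, mul_neg, h.sgnY]
  · refine odd0 e ?_
    unfold cf
    rw [← hD.neg2]
    congr 1
    funext w
    simp only [cc, mul_neg, h.sgnB]

theorem c6 (e r : ℕ) : ((6 * e + r : ℕ) : ZMod 3) = r := by
  push_cast
  linear_combination 2 * e * three0

theorem c3 (e r : ℕ) : ((3 * e + r : ℕ) : ZMod 3) = r := by
  push_cast
  linear_combination e * three0

section

variable (hD : RowDEG) (hW : RowDEGW) (hT : RowTAYW)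

include hD hW hT

theorem stepB (h : Ev F) (h1 : F ∘ ta = F) (h2 : F + F ∘ sg + F ∘ sg' = 0) (h3 : F (1, 0, 0) = 0)
    (n : ℕ) (hn : Dg n F) : Dg 0 F := by
  induction n with
  | zero => exact hn
  | succ n ih =>
    refine ih (hW.down _ _ hn fun i j e => ?_)
    change cf F i j = 0
    have hz : ∀ i j, n ≤ i + 2 * j → i % 3 ≠ 0 → cf F i j = 0 := by
      intro i j e hi
      obtain ⟨i, rfl⟩ : ∃ t, i = t + 1 := ⟨i - 1, by omega⟩
      have h4 := (one_ta.dif hW hT h.toHm hn).2 i j (by omega)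
      rw [h1, sub_self, cf_zero] at h4
      obtain ⟨t, rfl | rfl⟩ : ∃ t, i = 3 * t + 0 ∨ i = 3 * t + 1 := ⟨i / 3, by omega⟩
      · rw [c3] at h4
        push_cast at h4
        linear_combination h4
      · rw [c3] at h4
        push_cast at h4
        linear_combination h4
    by_cases hp : i % 2 = 1 ∨ j % 2 = 1
    · exact h.odd hD i j hp
    by_cases hi : i % 3 ≠ 0
    · exact hz i j (by omega) hi
    rcases Nat.eq_zero_or_pos n with rfl | h0
    · obtain rfl : i = 0 := by omega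
      obtain rfl : j = 0 := by omega
      exact h3
    obtain ⟨n, rfl⟩ : ∃ t, n = t + 1 := ⟨n - 1, by omega⟩
    obtain ⟨x, hx, hN⟩ := One.norm hW hT one_sg one_sg' sg_sg h.toHm (n := n) hn
    rw [h2] at hN
    rcases Nat.eq_zero_or_pos j with rfl | hj
    · obtain ⟨t, rfl⟩ : ∃ t, i = 6 * t + 6 := ⟨i / 6 - 1, by omega⟩
      have h4 := hN (6 * t + 4) 0 (by omega)
      rw [cf_zero, show 6 * t + 4 - 1 = 6 * t + 3 by omega, hx (6 * t + 3) (0 + 1) (by omega), c6, c6,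
        hz (6 * t + 3 - 1) _ (by omega) (by omega)] at h4
      push_cast at h4
      linear_combination h4 - cf F (6 * t + 6) 0 * three0
    · obtain ⟨t, rfl⟩ : ∃ t, i = 6 * t := ⟨i / 6, by omega⟩
      obtain ⟨j, rfl⟩ : ∃ t, j = t + 2 := ⟨j - 2, by omega⟩
      have h4 := hN (6 * t + 2) j (by omega)
      rw [cf_zero, show 6 * t + 2 - 1 = 6 * t + 1 by omega, hx (6 * t + 1) (j + 1) (by omega),
        hx (6 * t + 2 + 3) (j - 1) (by omega), c6, c6,
        hz (6 * t + 2 + 3 + 3) _ (by omega) (by omega), hz (6 * t + 2 + 3 - 1) _ (by omega) (by omega),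
        hz (6 * t + 1 + 3) _ (by omega) (by omega)] at h4
      push_cast at h4
      linear_combination h4 + cf F (6 * t) (j + 2) * three0

omit hD in
theorem seven (h : Ev F) (h1 : F ∘ sg = F) (h1' : F ∘ sg' = F) (h2 : F + F ∘ ta + F ∘ ta' = 0)
    (h7 : T7 F + F = 0) (t : ℕ) (hn : Dg (6 * t + 10 + 1) F) : cf F (6 * t + 10) 0 = 0 := by
  have m := h.toHm
  have r1 : ∀ v, F (sg v) = F v := fun v => congrFun h1 v
  have r1' : ∀ v, F (sg' v) = F v := fun v => congrFun h1' v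
  have r2 : ∀ v, F v + F (ta v) + F (ta' v) = 0 := fun v => congrFun h2 v
  have mA := (thr_ro'.one.hm m).sub m
  have dA := thr_ro.dif0 hW hT mA (n := 6 * t + 3) (thr_ro'.dif0 hW hT m (n := 6 * t + 7) hn)
  have mX := (thr_tr.one.hm m).sub m
  have mY := (thr_tr'.one.hm m).sub m
  obtain ⟨dX, eX⟩ := thr_tr.dif hW hT m (n := 6 * t + 8) hn
  obtain ⟨dY, eY⟩ := thr_tr'.dif hW hT m (n := 6 * t + 8) hn
  obtain ⟨dZ, -⟩ := thr_tr.dif hW hT mY (n := 6 * t + 5) dY
  obtain ⟨dP, eP⟩ := one_ta.dif hW hT mX (n := 6 * t + 7) dX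
  obtain ⟨dQ, eQ⟩ := one_ta'.dif hW hT mY (n := 6 * t + 7) dY
  set G : V → ZMod 3 := ((F ∘ tr - F) ∘ ta - (F ∘ tr - F)) + ((F ∘ tr' - F) ∘ ta' - (F ∘ tr' - F)) -
    ((F ∘ tr' - F) ∘ tr - (F ∘ tr' - F)) with hG
  have mG : Hm G := (((one_ta.hm mX).sub mX).add ((one_ta'.hm mY).sub mY)).sub
    ((thr_tr.one.hm mY).sub mY)
  have dG : Dg (6 * t + 5 + 2) G := (dP.add dQ).sub (dZ.mono (by omega))
  have eG : cf G (6 * t + 6) 0 = 2 * cf F (6 * t + 10) 0 := by
    rw [hG, cf_sub, cf_add, eP _ _ (by omega), eQ _ _ (by omega), dZ.cf0 hW (by omega),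
      eX (6 * t + 6 + 1) 0 (by omega), eY (6 * t + 6 + 1) 0 (by omega), c6]
    push_cast
    linear_combination 20 * cf F (6 * t + 10) 0 * three0
  have vG : ∀ v, G v = F (q7 1 v) + F (q7 (-1) v) + F v := by
    intro v
    have a1 : F (tr (ta v)) = F (q7 1 v) := by
      simp only [tr, ta, mp, q7]
      exact m.e 4 (by decide) (by ring) (by ring) (by ring)
    have a2 : F (tr' (ta' v)) = F (q7 (-1) v) := by
      simp only [tr', ta', mp, q7]
      refine (m.e 4 (by decide) (by ring) (by ring) (by ring))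
    have a3 : F (tr' (tr v)) = F v := by
      obtain ⟨a, y, b⟩ := v
      simp only [tr', tr, mp]
      exact m.e 196 (by decide) (by ring) (by ring) (by ring)
    simp only [hG, Pi.add_apply, Pi.sub_apply, Function.comp_apply, a1, a2, a3]
    linear_combination -r2 v
  obtain ⟨x, hx, hN⟩ := One.norm hW hT one_sg one_sg' sg_sg mG dG
  have e7 : G + G ∘ sg + G ∘ sg' = (F ∘ ro' - F) ∘ ro - (F ∘ ro' - F) := by
    funext v
    have a0 : T7 F v + F v = 0 := congrFun h7 v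
    have a1 : F (ro v) = F (p7 1 v) := by
      rw [← r1' (p7 1 v)]
      simp only [ro, mp, p7, sg']
      exact m.e 1 (by decide) (by ring) (by ring) (by ring)
    have a2 : F (ro' v) = F (p7 (-1) v) := by
      rw [← r1 (p7 (-1) v)]
      simp only [ro', mp, p7, sg]
      exact m.e 1 (by decide) (by ring) (by ring) (by ring)
    have a3 : F (ro' (ro v)) = F v := by
      obtain ⟨a, y, b⟩ := v
      simp only [ro', ro, mp]
      exact m.e 196 (by decide) (by ring) (by ring) (by ring)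
    simp only [T7] at a0
    simp only [Pi.add_apply, Pi.sub_apply, Function.comp_apply, vG, a1, a2, a3, r1, r1']
    linear_combination a0
  have h4 := hN (6 * t + 4) 0 (by omega)
  rw [e7, dA.cf0 hW (by omega), show 6 * t + 4 - 1 = 6 * t + 3 by omega,
    hx (6 * t + 3) (0 + 1) (by omega), c6, c6, show 0 + 1 - 1 = 0 by rfl, eG] at h4
  push_cast at h4
  linear_combination -h4 + (3 * cf F (6 * t + 10) 0 - 4 * cf G (6 * t + 2) 2) * three0

omit hD hW hT in
theorem four (h : Ev F) (h2 : F + F ∘ ta + F ∘ ta' = 0) (h3 : F (1, 0, 0) = 0)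
    (h4 : F (1, 12, 0) = 0) (hn : Dg 5 F) : cf F 4 0 = 0 := by
  have a1 : F (1, 0, 0) + F (1, 3, 0) + F (1, -3, 0) = 0 := congrFun h2 (1, 0, 0)
  have a2 : F (1, -3, 0) = F (1, 3, 0) := h.sgnY 1 3 0
  have a3 : F (1, -6, 0) = F (1, 6, 0) := h.sgnY 1 6 0
  have a4 : F (1, -12, 0) = F (1, 12, 0) := h.sgnY 1 12 0
  have a5 := congrFun (hn 5 0 le_rfl) (-2, 0)
  have a6 := congrFun (hn 5 0 le_rfl) (-1, 0)
  simp only [cf, cof, Function.iterate_succ, Function.iterate_zero, Function.comp_apply, id_eq, dc1,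
    df1, cc, Pi.zero_apply] at a5 a6 ⊢
  norm_num at a5 a6 ⊢
  rw [a2, h3] at a1 a5 a6
  rw [a3] at a5
  rw [h4] at a6
  rw [a3, a4, h3, h4]
  linear_combination a6 + 5 * a5 - 32 * a1 + 4 * F (1, 6, 0) * three0

theorem stepC (h : Ev F) (h1 : F ∘ sg = F) (h1' : F ∘ sg' = F) (h2 : F + F ∘ ta + F ∘ ta' = 0)
    (h7 : T7 F + F = 0) (h3 : F (1, 0, 0) = 0) (h4 : F (1, 12, 0) = 0) (n : ℕ) (hn : Dg n F) :
    Dg 0 F := by
  induction n with
  | zero => exact hn
  | succ n ih =>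
    refine ih (hW.down _ _ hn fun i j e => ?_)
    change cf F i j = 0
    rcases Nat.eq_zero_or_pos n with rfl | h0
    · obtain rfl : i = 0 := by omega
      obtain rfl : j = 0 := by omega
      exact h3
    obtain ⟨n, rfl⟩ : ∃ t, n = t + 1 := ⟨n - 1, by omega⟩
    have z2 : ∀ t j, n + 1 ≤ 3 * t + 2 + 2 * j → cf F (3 * t + 2) j = 0 := by
      intro t j e
      obtain ⟨x, hx, hN⟩ := One.norm hW hT one_ta one_ta' ta_ta h.toHm (n := n) hn
      have h5 := hN (3 * t + 0) j (by omega)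
      rw [h2, cf_zero, show 3 * t + 0 + 1 = 3 * t + 1 by rfl, hx (3 * t + 1) j (by omega), c3,
        c3] at h5
      push_cast at h5
      linear_combination -h5
    have hx : ∀ i j : ℕ, n + 1 ≤ i + 2 * j + 2 →
        (i + 1) * cf F i (j + 1) = j * cf F (i + 4) (j - 1) := by
      intro i j e
      have h5 := (one_sg.dif hW hT h.toHm hn).2 (i + 1) j (by omega)
      rw [h1, sub_self, cf_zero] at h5
      push_cast at h5
      linear_combination h5
    have z4 : ∀ t j, n + 1 ≤ 6 * t + 4 + 2 * (j + 1) → cf F (6 * t + 4) (j + 1) = 0 := by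
      intro t j e
      have h5 := hx (6 * t + 4) j (by omega)
      rw [c6, show 6 * t + 4 + 4 = 3 * (2 * t + 2) + 2 by ring, z2 _ _ (by omega)] at h5
      push_cast at h5
      linear_combination 2 * h5 - 3 * cf F (6 * t + 4) (j + 1) * three0
    have z40 : ∀ t, n + 1 = 6 * t + 4 → cf F (6 * t + 4) 0 = 0 := by
      intro t e
      rcases t with _ | t
      · exact four h h2 h3 h4 (hn.mono (by omega))
      · exact seven hW hT h h1 h1' h2 h7 t (hn.mono (by omega))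
    by_cases hp : i % 2 = 1 ∨ j % 2 = 1
    · exact h.odd hD i j hp
    obtain ⟨t, rfl | rfl | rfl⟩ : ∃ t, i = 6 * t + 0 ∨ i = 3 * (2 * t) + 2 ∨ i = 6 * t + 4 :=
      ⟨i / 6, by omega⟩
    · rcases j with _ | j
      · obtain ⟨t, rfl⟩ : ∃ s, t = s + 1 := ⟨t - 1, by omega⟩
        have h5 := hx (3 * (2 * t) + 2) 1 (by omega)
        rw [z2 _ _ (by omega)] at h5
        push_cast at h5
        rw [show 6 * (t + 1) + 0 = 3 * (2 * t) + 2 + 4 by ring]
        linear_combination -h5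
      · have h5 := hx (6 * t + 0) j (by omega)
        have h6 : cf F (6 * t + 0 + 4) (j - 1) = 0 := by
          rcases Nat.eq_zero_or_pos (j - 1) with h6 | h6
          · rw [h6]
            exact z40 t (by omega)
          · rw [show j - 1 = j - 2 + 1 by omega]
            exact z4 t _ (by omega)
        rw [c6, h6] at h5
        push_cast at h5
        linear_combination h5
    · exact z2 _ _ (by omega)
    · rcases j with _ | j
      · exact z40 t (by omega)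
      · exact z4 t j (by omega)

omit hD in
theorem top3 (h : Hm F) {g g' : V → V} {t c q r t' c' q' r' : ℤ} (hg : One g t c q r)
    (hg' : One g' t' c' q' r') {n : ℕ} (hn : Dg (n + 1) F) : Dg n (F + F ∘ g + F ∘ g') := by
  obtain ⟨d1, e1⟩ := hg.top hW hT h hn
  obtain ⟨d2, e2⟩ := hg'.top hW hT h hn
  refine Dg.down hW 1 ((hn.add d1).add d2) fun i j e => ?_
  rw [cf_add, cf_add, e1 i j e, e2 i j e]
  linear_combination cf F i j * three0

end

variable {φ : V → ZMod 3}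

theorem InP.ev (h : InP φ) : Ev φ := ⟨⟨h.hom, h.per⟩, h.sgnA, h.sgnB⟩

theorem InP.rot1 (h : InP φ) : φ ∘ sg = φ := funext h.rot

theorem InP.rot2 (h : InP φ) : φ ∘ sg' = φ := by
  funext v
  have e : sg (sg' v) = (4 : ℤ) • v := by
    obtain ⟨a, y, b⟩ := v
    simp only [sg, sg', Prod.smul_mk, smul_eq_mul, Prod.mk.injEq]
    exact ⟨by ring, by ring, by ring⟩
  rw [Function.comp_apply, ← h.rot, e, h.hom 4 _ (by decide)]

theorem InP.rot3 (h : InP φ) : (φ ∘ sw) ∘ ta = φ ∘ sw := by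
  funext v
  simp only [Function.comp_apply]
  rw [← h.rot (sw v)]
  simp only [sw, ta, mp, sg]
  exact h.ev.toHm.e 1 (by decide) (by ring) (by ring) (by ring)

theorem InP.t2a (h : InP φ) : T2 φ = φ ∘ sw + (φ ∘ sw) ∘ sg + (φ ∘ sw) ∘ sg' := by
  funext v
  simp only [T2, rt, sw, h.sgnB, Pi.add_apply, Function.comp_apply]

theorem InP.t2b (h : InP φ) : T2 φ ∘ sw = φ + φ ∘ ta + φ ∘ ta' := by
  funext v
  simp only [T2, rt, sw, h.sgnB, Pi.add_apply, Function.comp_apply, sg, sg', ta, ta', mp]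
  congr 1
  · congr 1
    exact h.ev.toHm.e 1 (by decide) (by ring) (by ring) (by ring)
  · rw [← h.sgnA, ← h.ev.sgnY, ← h.sgnB]
    exact h.ev.toHm.e (-1) (by decide) (by ring) (by ring) (by ring)

theorem t7a (φ : V → ZMod 3) : T7 φ + φ = (φ + φ ∘ p7 1 + φ ∘ p7 (-1)) +
    (φ ∘ q7 1 + (φ ∘ q7 1) ∘ sg + (φ ∘ q7 1) ∘ sg') +
    (φ ∘ q7 (-1) + (φ ∘ q7 (-1)) ∘ sg + (φ ∘ q7 (-1)) ∘ sg') := by
  funext v
  simp only [T7, Pi.add_apply, Function.comp_apply]
  ring

theorem t7b (φ : V → ZMod 3) : (T7 φ + φ) ∘ sw =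
    (φ ∘ sw + (φ ∘ sw) ∘ q7 1 + (φ ∘ sw) ∘ q7 (-1)) +
    ((φ ∘ sw) ∘ p7 1 + ((φ ∘ sw) ∘ p7 1) ∘ ta + ((φ ∘ sw) ∘ p7 1) ∘ ta') +
    ((φ ∘ sw) ∘ p7 (-1) + ((φ ∘ sw) ∘ p7 (-1)) ∘ ta + ((φ ∘ sw) ∘ p7 (-1)) ∘ ta') := by
  funext v
  have e1 : ∀ s v, q7 s (sw v) = sw (p7 s v) := fun _ _ => rfl
  have e2 : ∀ s v, p7 s (sw v) = sw (q7 s v) := fun _ _ => rfl
  have e3 : sg (sw v) = sw (ta v) := by
    simp only [sg, sw, ta, mp, Prod.mk.injEq]
    exact ⟨by ring, by ring, by ring⟩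
  have e4 : sg' (sw v) = sw (ta' v) := by
    simp only [sg', sw, ta', mp, Prod.mk.injEq]
    exact ⟨by ring, by ring, by ring⟩
  simp only [T7, Pi.add_apply, Function.comp_apply, e3, e4, e1, e2]
  ring

theorem Hm.cover (h : Hm F) (h0 : Dg 0 F) (a s t : ℤ) (ha : ¬ 3 ∣ a) : F (a, 3 * s, 3 * t) = 0 := by
  obtain ⟨N, hN0, hN⟩ := h.per' 0
  obtain ⟨l, x, hl, e⟩ := inv3 N hN0 a ha
  rw [← h0.eq_zero (l * s) (l * t), ← h.hom l _ hl, ← hN (1, _, _) (x, 0, 0)]
  simp only [Prod.smul_mk, smul_eq_mul, Prod.mk_add_mk]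
  exact h.e 1 (by decide) (by linear_combination e) (by ring) (by ring)

theorem chi3_sq (a : ℤ) : chi3 a ^ 2 = if 3 ∣ a then 0 else 1 := by
  have h : chi3 a = 0 ∧ 3 ∣ a ∨ chi3 a = 1 ∧ ¬ 3 ∣ a ∨ chi3 a = -1 ∧ ¬ 3 ∣ a := by
    unfold chi3
    rw [Int.bmod_def]
    split_ifs <;> omega
  rcases h with h | h | h <;> simp [h.1, h.2]

theorem InP.cover (h : InP φ) (h1 : Dg 0 φ) (h2 : Dg 0 (φ ∘ sw)) : φ = 0 := by
  funext ⟨a, y, b⟩
  by_cases hy : 3 ∣ y
  · obtain ⟨s, rfl⟩ := hy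
    by_cases ha : 3 ∣ a <;> by_cases hb : 3 ∣ b
    · exact h.zero _ (by simp [ep, chi3_sq, ha, hb])
    · obtain ⟨t, rfl⟩ := ha
      exact h.ev.toHm.sw.cover h2 b s t hb
    · obtain ⟨t, rfl⟩ := hb
      exact h.ev.toHm.cover h1 a s t ha
    · exact h.zero _ (by simp [ep, chi3_sq, ha, hb])
  · exact h.zero _ (by simp [ep, hy])

theorem rowSOCP : OfSOCP := by
  intro hD hW hT W h1 h2 h3
  have key : ∀ m, ∀ φ ∈ W, Dg m φ → Dg m (φ ∘ sw) → φ = 0 := by
    intro m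
    induction m with
    | zero => exact fun φ hφ => (h1 φ hφ).cover
    | succ m ih =>
      intro φ hφ d1 d2
      have h := h1 φ hφ
      have m1 := h.ev.toHm
      have m2 := m1.sw
      have z2 : T2 φ = 0 := by
        refine ih _ (h2 φ hφ).1 ?_ ?_
        · rw [h.t2a]
          exact top3 hW hT m2 one_sg one_sg' d2
        · rw [h.t2b]
          exact top3 hW hT m1 one_ta one_ta' d1
      have z7 : T7 φ + φ = 0 := by
        refine ih _ (W.add_mem (h2 φ hφ).2 hφ) ?_ ?_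
        · rw [t7a]
          exact ((top3 hW hT m1 (one_p7 1) (one_p7 (-1)) d1).add
            (top3 hW hT ((one_q7 1).hm m1) one_sg one_sg' ((one_q7 1).key hT m1 d1).1)).add
            (top3 hW hT ((one_q7 (-1)).hm m1) one_sg one_sg' ((one_q7 (-1)).key hT m1 d1).1)
        · rw [t7b]
          exact ((top3 hW hT m2 (one_q7 1) (one_q7 (-1)) d2).add
            (top3 hW hT ((one_p7 1).hm m2) one_ta one_ta' ((one_p7 1).key hT m2 d2).1)).add
            (top3 hW hT ((one_p7 (-1)).hm m2) one_ta one_ta' ((one_p7 (-1)).key hT m2 d2).1)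
      refine h.cover (stepC hD hW hT h.ev h.rot1 h.rot2 ?_ z7 (h3 φ hφ).1 (h3 φ hφ).2.2 _ d1)
        (stepB hD hW hT h.ev.sw h.rot3 ?_ (h3 φ hφ).2.1 _ d2)
      · rw [← h.t2b, z2]
        rfl
      · rw [← h.t2a, z2]
  rw [eq_bot_iff]
  intro φ hφ
  obtain ⟨m, hm⟩ := (h1 φ hφ).ev.toHm.dg hD
  obtain ⟨n, hn⟩ := (h1 φ hφ).ev.toHm.sw.dg hD
  exact key (m + n) φ hφ (hm.mono (by omega)) (hn.mono (by omega))

end Pool.Agent.MP_5f72fe_nt.H25
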