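import Pool.Agent.MP_5f72fe_nt.H25.Ker

/-! Every integral form is a ternary theta series modulo three. -/

namespace Pool.Agent.MP_5f72fe_nt.H25

open Pool.Agent.MP_5f72fe_nt.H3

noncomputable section

theorem chi3_cast (l : ℤ) : ((chi3 l : ℤ) : ZMod 3) = (l : ZMod 3) := by
  unfold chi3
  rw [ZMod.intCast_eq_intCast_iff]
  exact Int.bmod_emod

theorem unit_sq (x : ZMod 3) (hx : x ≠ 0) : x ^ 2 = 1 := by
  revert x
  decide

theorem normalise (hP : RowPOL) (j : ℕ) (hj : Even j) (z : Fin (j / 6 + 1) → ℤ) (hz : z ≠ 0) :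
    ∃ (e : ℕ) (Ψ : V → ℤ), (∀ v, ∑ l, z l * Pd (j + 3) (6 * l + 3) v = 3 ^ e * Ψ v) ∧
      InC (fun v => (Ψ v : ZMod 3)) ∧ (fun v => (Ψ v : ZMod 3)) ≠ 0 := by
  classical
  set F : V → ℤ := fun v => ∑ l, z l * Pd (j + 3) (6 * l + 3) v with hF
  obtain ⟨v0, hv0⟩ : ∃ v, F v ≠ 0 := by
    by_contra h
    push Not at h
    exact hz (hP.ind j z hj h)
  have hex : ∃ e : ℕ, ¬ ∀ v, (3 : ℤ) ^ (e + 1) ∣ F v := by
    refine ⟨(F v0).natAbs, fun h => ?_⟩
    have h1 := Int.natAbs_dvd_natAbs.2 (h v0)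
    have h2 := Nat.le_of_dvd (Int.natAbs_pos.2 hv0) h1
    rw [Int.natAbs_pow] at h2
    have h3 : (F v0).natAbs + 1 < 3 ^ ((F v0).natAbs + 1) := Nat.lt_pow_self (by norm_num)
    have h4 : (3 : ℤ).natAbs = 3 := rfl
    rw [h4] at h2
    omega
  set e := Nat.find hex with he
  have hd : ∀ v, (3 : ℤ) ^ e ∣ F v := by
    rcases Nat.eq_zero_or_pos e with h | h
    · intro v
      rw [h]
      simp
    · have h1 := Nat.find_min hex (m := e - 1) (by omega)
      rw [not_not, show e - 1 + 1 = e by omega] at h1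
      exact h1
  choose Ψ hΨ using hd
  have h3 : (3 : ℤ) ^ e ≠ 0 := by positivity
  have key : ∀ (v w : V) (c : ℤ), F w = c * F v → Ψ w = c * Ψ v := by
    intro v w c h
    rw [hΨ, hΨ] at h
    exact mul_left_cancel₀ h3 (by rw [h]; ring)
  obtain ⟨t, ht⟩ := hj
  refine ⟨e, Ψ, hΨ, ⟨fun v h => ?_, ⟨e + 1, fun v w => ?_⟩, fun l v h => ?_, fun a y b => ?_,
    fun a y b => ?_, fun v => ?_⟩, fun h => ?_⟩
  · have h1 : F v = 0 * F v := by simp [hF, hP.zero _ _ v h]
    rw [key v v 0 h1]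
    simp
  · have h1 : (3 : ℤ) ^ (e + 1) ∣ F (v + (3 ^ (e + 1) : ℤ) • w) - F v := by
      simp only [hF]
      rw [← Finset.sum_sub_distrib]
      refine Finset.dvd_sum fun l _ => ?_
      rw [← mul_sub]
      exact Dvd.dvd.mul_left (hP.per _ _ e v w) _
    rw [hΨ, hΨ, ← mul_sub, pow_succ] at h1
    have h2 := (mul_dvd_mul_iff_left h3).1 h1
    exact ((ZMod.intCast_eq_intCast_iff_dvd_sub _ _ 3).2 h2).symm
  · have h1 : F (l • v) = (chi3 l * l ^ (j + 3)) * F v := by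
      simp only [hF, hP.hom, Finset.mul_sum]
      exact Finset.sum_congr rfl fun i _ => by ring
    have h2 : (l : ZMod 3) ≠ 0 := fun h0 => h ((ZMod.intCast_zmod_eq_zero_iff_dvd l 3).1 h0)
    have h4 : (l : ZMod 3) * l ^ (j + 3) = 1 := by
      rw [← pow_succ', show j + 3 + 1 = 2 * (t + 2) by omega, pow_mul, unit_sq _ h2, one_pow]
    simp only [key v _ _ h1]
    push_cast
    rw [chi3_cast, h4, one_mul]
  · have h1 : F (-a, y, b) = 1 * F (a, y, b) := by
      simp only [hF, one_mul]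
      exact Finset.sum_congr rfl fun i _ => by rw [hP.sgnA _ _ _ _ _ (by omega)]
    simp only [key _ _ _ h1, one_mul]
  · have h1 : F (a, y, -b) = 1 * F (a, y, b) := by simp only [hF, one_mul, hP.sgnB]
    simp only [key _ _ _ h1, one_mul]
  · have h1 : F (sg v) = (-2) ^ (j + 3) * F v := by
      simp only [hF, Finset.mul_sum]
      exact Finset.sum_congr rfl fun i _ => by rw [hP.rot _ _ _ ⟨2 * i + 1, by ring⟩]; ring
    simp only [key v _ _ h1]
    push_cast
    rw [show (-2 : ZMod 3) = 1 by decide, one_pow, one_mul]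
  · refine Nat.find_spec hex fun v => ?_
    have h1 : (3 : ℤ) ∣ Ψ v := (ZMod.intCast_zmod_eq_zero_iff_dvd _ 3).1 (congrFun h v)
    rw [hΨ, ← he, pow_succ]
    exact mul_dvd_mul_left _ h1

theorem card_seven : (Rp0 7).card = 4 := by decide +kernel

theorem TH0_sum {ι : Type} [Fintype ι] (z : ι → ℤ) (P : ι → V → ℤ) (e : ℕ) (Ψ : V → ℤ)
    (h : ∀ v, ∑ l, z l * P l v = 3 ^ e * Ψ v) (n : ℕ) :
    ∑ l, z l * TH0 (P l) n = 3 ^ e * TH0 Ψ n := by
  simp only [TH0, Finset.mul_sum]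
  rw [Finset.sum_comm]
  exact Finset.sum_congr rfl fun v _ => h v

theorem TH0_cast (Ψ : V → ℤ) (n : ℕ) :
    TH0 (fun v => (Ψ v : ZMod 3)) n = ((TH0 Ψ n : ℤ) : ZMod 3) := by
  simp [TH0]

theorem rowSUR : OfSUR := by
  intro hRAT hS h2 h7 hO hP hT hW j w hj hw
  classical
  have hI : ∀ Ψ : V → ℤ, InC (fun v => (Ψ v : ZMod 3)) → (fun v => (Ψ v : ZMod 3)) ≠ 0 →
      ∃ n, ¬ 3 ∣ TH0 Ψ n := by
    intro Ψ h1 h0
    by_contra h
    push Not at h
    refine h0 (inj hS h2 h7 hO 7 rfl Nat.prime_seven.squarefree (by rw [card_seven]; decide) _ h1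
      fun m _ => ?_)
    rw [TH0_cast]
    exact (ZMod.intCast_zmod_eq_zero_iff_dvd _ 3).2 (h _)
  set Θ : Fin (j / 6 + 1) → ℕ → ℤ := fun l n => TH0 (Pd (j + 3) (6 * l + 3)) n with hΘ
  set h : Option (Fin (j / 6 + 1)) → ℕ → ℂ :=
    fun o => o.elim (cz w) fun l n => ((Θ l n : ℤ) : ℂ) with hh
  have hdep : ¬ LinearIndependent ℂ h := by
    intro hl
    have := hW j _ h hj (fun o => by
      cases o with
      | none => exact hw
      | some l => exact hT j l hj) hl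
    simp at this
  obtain ⟨g, hg, i, hi⟩ := Fintype.not_linearIndependent_iff.1 hdep
  have hg' : ∀ n, g none * ((PowerSeries.coeff n w : ℤ) : ℂ) + ∑ l, g (some l) * (Θ l n : ℂ) = 0 := by
    intro n
    have := congrFun hg n
    simpa [Fintype.sum_option, hh, cz, Finset.sum_apply] using this
  have hg0 : g none ≠ 0 := by
    intro h0
    have hx : (fun l => g (some l)) ≠ 0 := by
      intro hx
      cases i with
      | none => exact hi h0
      | some l => exact hi (congrFun hx l)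
    obtain ⟨z, ⟨l, hl⟩, hz⟩ := hRAT.down _ Θ Set.univ _ hx fun n _ => by
      simpa [h0] using hg' n
    obtain ⟨e, Ψ, h1, h3, h4⟩ := normalise hP j hj z (by
      rintro rfl
      exact hl (by simp))
    obtain ⟨n, hn⟩ := hI Ψ h3 h4
    have h5 := TH0_sum z _ e Ψ h1 n
    rw [hz n trivial] at h5
    rcases mul_eq_zero.1 h5.symm with h6 | h6
    · exact absurd h6 (by positivity)
    · exact hn (by rw [h6]; simp)
  obtain ⟨M, z, hM, hz⟩ := hRAT.rat _ Θ (fun n => PowerSeries.coeff n w)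
    (fun l => -g (some l) / g none) fun n => by
      have h1 := hg' n
      have h3 : ∑ l, -g (some l) / g none * (Θ l n : ℂ) =
          -(∑ l, g (some l) * (Θ l n : ℂ)) / g none := by
        rw [← Finset.sum_neg_distrib, Finset.sum_div]
        exact Finset.sum_congr rfl fun l _ => by ring
      rw [h3, div_eq_iff hg0]
      linear_combination -h1
  by_cases hz0 : z = 0
  · refine ⟨0, CC.zero_mem, fun n => ?_⟩
    have h1 := hz n
    rw [hz0] at h1
    simp only [Pi.zero_apply, zero_mul, Finset.sum_const_zero] at h1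
    have h3 := (mul_eq_zero.1 h1.symm).resolve_left hM
    rw [coeff_red, h3, ← THl_apply, map_zero, Int.cast_zero]
  obtain ⟨e, Ψ, h1, h3, h4⟩ := normalise hP j hj z hz0
  obtain ⟨n0, hn0⟩ := hI Ψ h3 h4
  have h5 : ∀ n, M * PowerSeries.coeff n w = 3 ^ e * TH0 Ψ n := fun n => by
    rw [← hz n]
    exact TH0_sum z _ e Ψ h1 n
  obtain ⟨s, M', hM', hs⟩ : ∃ (s : ℕ) (M' : ℤ), ¬ 3 ∣ M' ∧ M = 3 ^ s * M' := by
    obtain ⟨s, M', h6, h8⟩ := WfDvdMonoid.max_power_factor' hM (x := (3 : ℤ))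
      (by rw [Int.isUnit_iff]; omega)
    exact ⟨s, M', h6, h8⟩
  have hse : s ≤ e := by
    by_contra hlt
    obtain ⟨u, rfl⟩ : ∃ u, s = e + 1 + u := ⟨s - (e + 1), by omega⟩
    have h6 := h5 n0
    rw [hs] at h6
    refine hn0 ⟨3 ^ u * M' * PowerSeries.coeff n0 w, ?_⟩
    refine mul_left_cancel₀ (show (3 : ℤ) ^ e ≠ 0 by positivity) ?_
    rw [← h6]
    ring
  obtain ⟨u, rfl⟩ := Nat.exists_eq_add_of_le hse
  have hM3 : (M' : ZMod 3) ≠ 0 := fun h0 => hM' ((ZMod.intCast_zmod_eq_zero_iff_dvd M' 3).1 h0)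
  refine ⟨((M' : ZMod 3) * 3 ^ u) • fun v => (Ψ v : ZMod 3), CC.smul_mem _ h3, fun n => ?_⟩
  have h6 : M' * PowerSeries.coeff n w = 3 ^ u * TH0 Ψ n := by
    refine mul_left_cancel₀ (show (3 : ℤ) ^ s ≠ 0 by positivity) ?_
    have h8 := h5 n
    rw [hs] at h8
    linear_combination h8
  have h8 := congrArg (Int.cast : ℤ → ZMod 3) h6
  push_cast at h8
  rw [← THl_apply, map_smul, THl_apply, TH0_cast, coeff_red, smul_eq_mul, mul_assoc, ← h8,
    ← mul_assoc, ← sq, unit_sq _ hM3, one_mul]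

end

end Pool.Agent.MP_5f72fe_nt.H25
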