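import Pool.Agent.MP_5f72fe_nt.H25.KbP
import Pool.Agent.MP_5f72fe_nt.H25.Sur

/-! Injectivity and surjectivity of the theta map with a fixed point. -/

namespace Pool.Agent.MP_5f72fe_nt.H25

open Pool.Agent.MP_5f72fe_nt.H3

noncomputable section

theorem Inv.e {R : Type} {G : V → R} (h : Inv G) (l : ℤ) (hl : ¬ 3 ∣ l) {a y b a' y' b' : ℤ}
    (h1 : a = l * a') (h2 : y = l * y') (h3 : b = l * b') : G (a, y, b) = G (a', y', b') := by
  rw [h1, h2, h3, ← h.hom l (a', y', b') hl]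
  rfl

theorem Inv.sgnY {R : Type} {G : V → R} (h : Inv G) (a y b : ℤ) : G (a, -y, b) = G (a, y, b) := by
  rw [h.e (-1) (by decide) (a' := -a) (y' := y) (b' := -b) (by ring) (by ring) (by ring), h.sgnA,
    h.sgnB]

theorem Rp_three : Rp 3 = {(1, 0, 0), (-1, 0, 0)} := by decide +kernel

theorem Rp_twelve : Rp 12 = {(2, 0, 0), (-2, 0, 0), (0, 0, 2), (0, 0, -2), (0, 3, 1), (0, 3, -1),
    (0, -3, 1), (0, -3, -1)} := by decide +kernel

theorem THF_three {G : V → ℤ} (h : G (-1, 0, 0) = G (1, 0, 0)) : THF G 3 = 2 * G (1, 0, 0) := by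
  rw [THF, Rp_three, Finset.sum_pair (by decide), h]
  ring

theorem THF_twelve {G : V → ℤ} (h : Inv G) : THF G 12 = 2 * G (1, 0, 0) + 6 * G (0, 0, 1) := by
  have h1 : G (2, 0, 0) = G (1, 0, 0) := h.e 2 (by decide) rfl rfl rfl
  have h2 : G (0, 0, 2) = G (0, 0, 1) := h.e 2 (by decide) rfl rfl rfl
  have h3 : G (0, 3, 1) = G (0, 0, 1) := h.rot (0, 0, 1)
  rw [THF, Rp_twelve]
  repeat rw [Finset.sum_insert (by decide)]
  rw [Finset.sum_singleton, h.sgnA 2, h.sgnB 0 0 2, h.sgnB 0 3 1, h.sgnB 0 (-3) 1, h.sgnY 0 3 1, h1,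
    h2, h3]
  ring

theorem T7_fix {G : V → ℤ} (h : Inv G) : T7 G (1, 0, 0) = 2 * G (1, 0, 0) + 6 * G (1, 12, 0) := by
  have h1 : G (7, 0, 0) = G (1, 0, 0) := h.e 7 (by decide) rfl rfl rfl
  have h2 : G (-2, -24, 0) = G (1, 12, 0) := h.e (-2) (by decide) rfl rfl rfl
  have h3 : G (1, -12, 0) = G (1, 12, 0) := h.sgnY 1 12 0
  have h4 : G (-2, 24, 0) = G (1, 12, 0) := (h.sgnY (-2) 24 0).symm.trans h2
  have : T7 G (1, 0, 0) = G (7, 0, 0) + G (7, 0, 0) + (G (1, 12, 0) + G (-2, -24, 0) +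
    G (-2, -24, 0)) + (G (1, -12, 0) + G (-2, 24, 0) + G (-2, 24, 0)) := rfl
  rw [this, h1, h2, h3, h4]
  ring

theorem InZ.red {G : V → ℤ} (h : InZ G) : InP fun v => (G v : ZMod 3) := by
  refine ⟨⟨fun l v hl => by simp only [h.hom l v hl], fun a y b => by simp only [h.sgnA],
    fun a y b => by simp only [h.sgnB], fun v => by simp only [h.rot]⟩,
    fun v hv => by simp [h.zero v hv], ?_⟩
  obtain ⟨N, hN⟩ := h.per
  exact ⟨N, fun v w => ((ZMod.intCast_eq_intCast_iff_dvd_sub _ _ 3).2 (hN v w)).symm⟩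

/-- the kernel -/
def KZ : Submodule ℤ (V → ℤ) where
  carrier := {G | InZ G ∧ ∀ m : ℕ, 1 ≤ m → 9 ∣ THF G (3 * m ^ 2)}
  zero_mem' := ⟨CZ.zero_mem, fun m _ => by rw [← TFl_apply, map_zero]; simp⟩
  add_mem' := by
    intro φ ψ hφ hψ
    refine ⟨CZ.add_mem hφ.1 hψ.1, fun m hm => ?_⟩
    rw [← TFl_apply, map_add]
    exact dvd_add (hφ.2 m hm) (hψ.2 m hm)
  smul_mem' := by
    intro c φ hφ
    refine ⟨CZ.smul_mem c hφ.1, fun m hm => ?_⟩
    rw [← TFl_apply, map_smul]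
    exact (hφ.2 m hm).mul_left c

/-- its reduction -/
def KR : Submodule (ZMod 3) (V → ZMod 3) where
  carrier := {φ | ∃ G ∈ KZ, φ = fun v => (G v : ZMod 3)}
  zero_mem' := ⟨0, KZ.zero_mem, by funext v; simp⟩
  add_mem' := by
    rintro _ _ ⟨G, hG, rfl⟩ ⟨H, hH, rfl⟩
    exact ⟨G + H, KZ.add_mem hG hH, by funext v; simp⟩
  smul_mem' := by
    rintro c _ ⟨G, hG, rfl⟩
    obtain ⟨c, rfl⟩ := ZMod.intCast_surjective c
    exact ⟨c • G, KZ.smul_mem c hG, by funext v; simp⟩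

theorem ep_line (a : ℤ) (h : 3 ∣ a) : ep (a, 0, 0) = 0 := by
  have : chi3 a = 0 := by
    unfold chi3
    rw [Int.bmod_def]
    split_ifs <;> omega
  have h0 : chi3 0 = 0 := rfl
  simp [ep, this, h0]

theorem rowINJP : OfINJP := by
  intro hS h2 h7 hO hP
  have s2 : ∀ G ∈ KZ, T2 G ∈ KZ := by
    intro G hG
    refine ⟨(hS G hG.1).1, fun m hm => ?_⟩
    have h4 : 3 * m ^ 2 % 4 = 0 ∧ m % 2 = 0 ∨ 3 * m ^ 2 % 4 = 3 := by
      obtain ⟨t, rfl | rfl⟩ := Nat.even_or_odd' m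
      · exact Or.inl ⟨by rw [show 3 * (2 * t) ^ 2 = 4 * (3 * t ^ 2) by ring]; omega, by omega⟩
      · exact Or.inr (by rw [show 3 * (2 * t + 1) ^ 2 = 3 + 4 * (3 * (t ^ 2 + t)) by ring]; omega)
    obtain ⟨x, hx⟩ := h2 G (3 * m ^ 2) hG.1.toInv (by omega)
    rw [hx, show 4 * (3 * m ^ 2) = 3 * (2 * m) ^ 2 by ring]
    refine dvd_add (dvd_add (hG.2 _ (by omega)) ((hG.2 m hm).mul_left x)) ?_
    split_ifs with h
    · obtain ⟨t, rfl⟩ : 2 ∣ m := by omega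
      rw [show 3 * (2 * t) ^ 2 = 4 * (3 * t ^ 2) by ring, Nat.mul_div_cancel_left _ (by norm_num)]
      exact (hG.2 t (by omega)).mul_left 2
    · simp
  have s7 : ∀ G ∈ KZ, T7 G ∈ KZ := by
    intro G hG
    refine ⟨(hS G hG.1).2, fun m hm => ?_⟩
    obtain ⟨x, hx⟩ := h7 G (3 * m ^ 2) hG.1.toInv
    rw [hx, show 49 * (3 * m ^ 2) = 3 * (7 * m) ^ 2 by ring]
    refine dvd_add (dvd_add (hG.2 _ (by omega)) ((hG.2 m hm).mul_left x)) ?_
    split_ifs with h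
    · have h1 : 7 ∣ m ^ 2 := (by decide : Nat.Coprime 7 3).dvd_of_dvd_mul_left
        ((by decide : 7 ∣ 49).trans h)
      obtain ⟨t, rfl⟩ := Nat.prime_seven.dvd_of_dvd_pow h1
      rw [show 3 * (7 * t) ^ 2 = 49 * (3 * t ^ 2) by ring, Nat.mul_div_cancel_left _ (by norm_num)]
      exact (hG.2 t (by omega)).mul_left 7
    · simp
  have v0 : ∀ G ∈ KZ, 9 ∣ G (1, 0, 0) := by
    intro G hG
    have h1 := hG.2 1 le_rfl
    rw [show 3 * 1 ^ 2 = 3 by rfl, THF_three (hG.1.sgnA 1 0 0)] at h1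
    omega
  have hb : KR = ⊥ := by
    refine hP KR ?_ ?_ ?_
    · rintro _ ⟨G, hG, rfl⟩
      exact hG.1.red
    · rintro _ ⟨G, hG, rfl⟩
      exact ⟨⟨T2 G, s2 G hG, by funext v; simp [T2]⟩, ⟨T7 G, s7 G hG, by funext v; simp [T7]⟩⟩
    · rintro _ ⟨G, hG, rfl⟩
      have h1 := v0 G hG
      have h3 := hG.2 2 (by norm_num)
      rw [show 3 * 2 ^ 2 = 12 by rfl, THF_twelve hG.1.toInv] at h3
      have h4 := v0 _ (s7 G hG)
      rw [T7_fix hG.1.toInv] at h4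
      simp only [ZMod.intCast_zmod_eq_zero_iff_dvd]
      omega
  intro G hG h9
  have h3 : ∀ v, 3 ∣ G v := by
    intro v
    have h1 : (fun v => (G v : ZMod 3)) ∈ KR := ⟨G, ⟨hG, h9⟩, rfl⟩
    rw [hb] at h1
    exact (ZMod.intCast_zmod_eq_zero_iff_dvd _ 3).1 (congrFun h1 v)
  refine ⟨h3, fun n => ?_⟩
  choose H hH using h3
  have h4 : THF G (3 * n) = 3 * THF H (3 * n) := by simp [THF, hH, Finset.mul_sum]
  rw [h4]
  refine mul_dvd_mul_left 3 (hO H (3 * n) (fun v w e => ?_) fun a _ => ?_)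
  · have h5 : G w = G v := by rw [← hG.rot v, e, hG.hom _ _ (by decide)]
    rw [hH, hH] at h5
    omega
  · by_cases h : 3 ∣ a
    · have h5 := hG.zero _ (ep_line a h)
      rw [hH] at h5
      omega
    · have h5 : G (a, 0, 0) = G (1, 0, 0) := hG.toInv.e a h (by ring) (by ring) (by ring)
      have h6 := v0 G ⟨hG, h9⟩
      rw [← h5, hH] at h6
      omega

/-- homogeneous functions of even degree -/
structure Hg (d : ℕ) (Ψ : V → ℤ) : Prop where
  hom : ∀ (l : ℤ) (v : V), ¬ 3 ∣ l → Ψ (l • v) = l ^ d * Ψ v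
  sgnA : ∀ a y b : ℤ, Ψ (-a, y, b) = Ψ (a, y, b)
  sgnB : ∀ a y b : ℤ, Ψ (a, y, -b) = Ψ (a, y, b)
  rot : ∀ v : V, Ψ (sg v) = (-2) ^ d * Ψ v
  zero : ∀ v : V, ep v = 0 → Ψ v = 0
  per : ∃ N : ℕ, ∀ v w : V, 3 ∣ Ψ (v + (3 ^ N : ℤ) • w) - Ψ v

theorem normaliseP (hP : RowPOLP) (d : ℕ) (hd : Even d) (z : Fin (d / 6 + 1) → ℤ) (hz : z ≠ 0) :
    ∃ (e : ℕ) (Ψ : V → ℤ), (∀ v, ∑ l, z l * PdP d (6 * l) v = 3 ^ e * Ψ v) ∧ Hg d Ψ ∧
      ∃ v, ¬ 3 ∣ Ψ v := by
  classical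
  set F : V → ℤ := fun v => ∑ l, z l * PdP d (6 * l) v with hF
  obtain ⟨v0, hv0⟩ : ∃ v, F v ≠ 0 := by
    by_contra h
    push Not at h
    exact hz (hP.ind d z hd h)
  have hex : ∃ e : ℕ, ¬ ∀ v, (3 : ℤ) ^ (e + 1) ∣ F v := by
    refine ⟨(F v0).natAbs, fun h => ?_⟩
    have h1 := Int.natAbs_dvd_natAbs.2 (h v0)
    have h2 := Nat.le_of_dvd (Int.natAbs_pos.2 hv0) h1
    rw [Int.natAbs_pow] at h2
    have h3 : (F v0).natAbs + 1 < 3 ^ ((F v0).natAbs + 1) := Nat.lt_pow_self (by norm_num)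
    have h4 : (3 : ℤ).natAbs = 3 := rfl
    rw [h4] at h2
    omega
  set e := Nat.find hex with he
  have hdv : ∀ v, (3 : ℤ) ^ e ∣ F v := by
    rcases Nat.eq_zero_or_pos e with h | h
    · intro v
      rw [h]
      simp
    · have h1 := Nat.find_min hex (m := e - 1) (by omega)
      rw [not_not, show e - 1 + 1 = e by omega] at h1
      exact h1
  choose Ψ hΨ using hdv
  have h3 : (3 : ℤ) ^ e ≠ 0 := by positivity
  have key : ∀ (v w : V) (c : ℤ), F w = c * F v → Ψ w = c * Ψ v := by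
    intro v w c h
    rw [hΨ, hΨ] at h
    exact mul_left_cancel₀ h3 (by rw [h]; ring)
  obtain ⟨t, ht⟩ := hd
  refine ⟨e, Ψ, hΨ, ⟨fun l v h => key _ _ _ ?_, fun a y b => ?_, fun a y b => ?_,
    fun v => key _ _ _ ?_, fun v h => ?_, ⟨e + 1, fun v w => ?_⟩⟩, ?_⟩
  · simp only [hF, hP.hom _ _ l v h, Finset.mul_sum]
    exact Finset.sum_congr rfl fun i _ => by ring
  · have h1 : F (-a, y, b) = 1 * F (a, y, b) := by
      simp only [hF, one_mul]
      exact Finset.sum_congr rfl fun i _ => by rw [hP.sgnA _ _ _ _ _ (by omega)]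
    rw [key _ _ _ h1, one_mul]
  · have h1 : F (a, y, -b) = 1 * F (a, y, b) := by simp only [hF, one_mul, hP.sgnB]
    rw [key _ _ _ h1, one_mul]
  · simp only [hF, Finset.mul_sum]
    exact Finset.sum_congr rfl fun i _ => by rw [hP.rot _ _ _ ⟨2 * i, by ring⟩]; ring
  · have h1 : F v = 0 * F v := by simp [hF, PdP, h]
    rw [key v v 0 h1, zero_mul]
  · have h1 : (3 : ℤ) ^ (e + 1) ∣ F (v + (3 ^ (e + 1) : ℤ) • w) - F v := by
      simp only [hF]
      rw [← Finset.sum_sub_distrib]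
      refine Finset.dvd_sum fun l _ => ?_
      rw [← mul_sub]
      exact Dvd.dvd.mul_left (hP.per _ _ e v w) _
    rw [hΨ, hΨ, ← mul_sub, pow_succ] at h1
    exact (mul_dvd_mul_iff_left h3).1 h1
  · by_contra h
    push Not at h
    refine Nat.find_spec hex fun v => ?_
    rw [hΨ, ← he, pow_succ]
    exact mul_dvd_mul_left _ (h v)

/-- the invariant function attached to a homogeneous one -/
def cv (Ψ : V → ℤ) (v : V) : ℤ :=
  if v.2 = 0 then (if 3 ∣ v.1 then 0 else Ψ (1, 0, 0)) else ((Ψ v : ZMod 3).val : ℤ)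

theorem pow_even_one {d : ℕ} (hd : Even d) {l : ℤ} (hl : ¬ 3 ∣ l) : 3 ∣ l ^ d - 1 := by
  obtain ⟨t, rfl⟩ := hd
  have h2 : (l : ZMod 3) ≠ 0 := fun h0 => hl ((ZMod.intCast_zmod_eq_zero_iff_dvd l 3).1 h0)
  refine (ZMod.intCast_zmod_eq_zero_iff_dvd _ 3).1 ?_
  push_cast
  rw [← two_mul, pow_mul, unit_sq _ h2, one_pow, sub_self]

theorem Hg.line {d : ℕ} {Ψ : V → ℤ} (h : Hg d Ψ) {a : ℤ} (ha : ¬ 3 ∣ a) :
    Ψ (a, 0, 0) = a ^ d * Ψ (1, 0, 0) := by
  rw [← h.hom a _ ha]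
  simp

theorem Hg.cong {d : ℕ} {Ψ : V → ℤ} (hd : Even d) (h : Hg d Ψ) (v : V) : 3 ∣ Ψ v - cv Ψ v := by
  obtain ⟨a, p⟩ := v
  unfold cv
  split_ifs with h1 h2
  · obtain rfl : p = (0, 0) := h1
    rw [h.zero _ (ep_line a h2)]
    simp
  · obtain rfl : p = (0, 0) := h1
    rw [h.line h2, ← sub_one_mul]
    exact (pow_even_one hd h2).mul_right _
  · refine (ZMod.intCast_zmod_eq_zero_iff_dvd _ 3).1 ?_
    simp

theorem cv_eq {Ψ : V → ℤ} {v w : V} (h1 : w.2 = 0 ↔ v.2 = 0) (h2 : 3 ∣ w.1 ↔ 3 ∣ v.1)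
    (h3 : 3 ∣ Ψ v - Ψ w) : cv Ψ w = cv Ψ v := by
  have h4 : (Ψ w : ZMod 3) = Ψ v := (ZMod.intCast_eq_intCast_iff_dvd_sub _ _ 3).2 h3
  simp only [cv, h1, h2, h4]

theorem Hg.inv {d : ℕ} {Ψ : V → ℤ} (hd : Even d) (h : Hg d Ψ) : Inv (cv Ψ) := by
  refine ⟨fun l v hl => cv_eq ?_ ?_ ?_, fun a y b => cv_eq Iff.rfl (by simp) (by simp [h.sgnA]),
    fun a y b => cv_eq (by simp) Iff.rfl (by simp [h.sgnB]), fun v => cv_eq ?_ ?_ ?_⟩
  · have h0 : l ≠ 0 := by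
      rintro rfl
      simp at hl
    rw [Prod.smul_snd, smul_eq_zero_iff_right h0]
  · simp only [Prod.smul_fst, smul_eq_mul]
    rw [Int.prime_three.dvd_mul]
    simp [hl]
  · rw [h.hom l v hl, ← one_sub_mul]
    exact (dvd_sub_comm.1 (pow_even_one hd hl)).mul_right _
  · obtain ⟨a, y, b⟩ := v
    simp only [sg, Prod.mk_eq_zero]
    omega
  · simp only [sg]
    omega
  · rw [h.rot v, ← one_sub_mul]
    exact (dvd_sub_comm.1 (pow_even_one hd (by decide))).mul_right _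

theorem Hg.cvzero {d : ℕ} {Ψ : V → ℤ} (h : Hg d Ψ) (v : V) (hv : ep v = 0) : cv Ψ v = 0 := by
  obtain ⟨a, p⟩ := v
  unfold cv
  split_ifs with h1 h2
  · rfl
  · obtain rfl : p = (0, 0) := h1
    have h3 : chi3 a = 1 ∨ chi3 a = -1 := by
      unfold chi3
      rw [Int.bmod_def]
      simp only at h2
      split_ifs <;> omega
    have h4 : chi3 0 = 0 := rfl
    rcases h3 with h3 | h3 <;> simp [ep, h3, h4] at hv
  · simp [h.zero _ hv]

theorem Hg.cvper {d : ℕ} {Ψ : V → ℤ} (hd : Even d) (h : Hg d Ψ) :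
    ∃ N : ℕ, ∀ v w : V, 3 ∣ cv Ψ (v + (3 ^ N : ℤ) • w) - cv Ψ v := by
  obtain ⟨N, hN⟩ := h.per
  refine ⟨N, fun v w => ?_⟩
  have h1 := hN v w
  have h2 := h.cong hd (v + (3 ^ N : ℤ) • w)
  have h3 := h.cong hd v
  omega

theorem prim (hO : RowORB3) (hJ : RowINJP) {d : ℕ} {Ψ : V → ℤ} (hd : Even d) (h : Hg d Ψ)
    (h0 : ∃ v, ¬ 3 ∣ Ψ v) : ∃ (G : V → ℤ) (u : ℕ → ℤ) (f : ℕ), InZ G ∧
      (∀ n, THF Ψ (3 * n) = 3 ^ f * u n) ∧ (∀ n, 9 ∣ THF G (3 * n) - 3 * u n) ∧ ∃ n, ¬ 3 ∣ u n := by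
  have hI := h.inv hd
  choose χ hχ using h.cong hd
  have hT : ∀ n, THF Ψ n - THF (cv Ψ) n = 3 * THF χ n := fun n => by
    simp only [THF, ← Finset.sum_sub_distrib, hχ, Finset.mul_sum]
  have hr : ∀ v w : V, sg v = (-2 : ℤ) • w → Ψ w = Ψ v := fun v w e => by
    have h1 := h.rot v
    rw [e, h.hom _ _ (by decide)] at h1
    exact mul_left_cancel₀ (pow_ne_zero d (by decide)) h1
  by_cases hf : 3 ∣ Ψ (1, 0, 0)
  · have hG : InZ (cv Ψ) := ⟨hI, h.cvzero, h.cvper hd, by simpa [cv] using hf⟩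
    have h1 : ∀ n, 3 ∣ THF Ψ (3 * n) := fun n => hO Ψ _ hr fun a _ => by
      by_cases ha : 3 ∣ a
      · simp [h.zero _ (ep_line a ha)]
      · rw [h.line ha]
        exact hf.mul_left _
    have h2 : ∀ n, 3 ∣ THF χ (3 * n) := fun n => hO χ _ (fun v w e => by
      have h3 := hχ v
      have h4 := hχ w
      have h5 : cv Ψ w = cv Ψ v := by rw [← hI.rot v, e, hI.hom _ _ (by decide)]
      rw [hr v w e, h5] at h4
      omega) fun a _ => by
        have h3 := hχ (a, 0, 0)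
        by_cases ha : 3 ∣ a
        · rw [h.zero _ (ep_line a ha), h.cvzero _ (ep_line a ha)] at h3
          omega
        · have h4 : cv Ψ (a, 0, 0) = Ψ (1, 0, 0) := by simp [cv, ha]
          rw [h4, h.line ha, ← sub_one_mul] at h3
          have h5 := mul_dvd_mul (pow_even_one hd ha) hf
          omega
    choose u hu using h1
    have h3 : ∀ n, 9 ∣ THF (cv Ψ) (3 * n) - 3 * u n := fun n => by
      have h4 := hT (3 * n)
      have h5 := h2 n
      rw [hu] at h4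
      omega
    refine ⟨cv Ψ, u, 1, hG, fun n => by rw [hu, pow_one], h3, ?_⟩
    by_contra h4
    push Not at h4
    obtain ⟨v, hv⟩ := h0
    have h5 := (hJ _ hG fun m _ => by
      have h6 := h3 (m ^ 2)
      have h7 := h4 (m ^ 2)
      omega).1 v
    have h6 := hχ v
    omega
  · refine ⟨fun v => 3 * cv Ψ v, fun n => THF Ψ (3 * n), 0, ?_, fun n => by simp, fun n => ?_, 1, ?_⟩
    · refine ⟨⟨fun l v hl => by simp only [hI.hom l v hl], fun a y b => by simp only [hI.sgnA],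
        fun a y b => by simp only [hI.sgnB], fun v => by simp only [hI.rot]⟩,
        fun v hv => by simp [h.cvzero v hv], ⟨0, fun v w => by omega⟩, by simp⟩
    · have h1 : THF (fun v => 3 * cv Ψ v) (3 * n) = 3 * THF (cv Ψ) (3 * n) := by
        simp [THF, Finset.mul_sum]
      have h2 := hT (3 * n)
      beta_reduce
      omega
    · simp only [mul_one]
      rw [THF_three (h.sgnA 1 0 0)]
      omega

theorem THF_sum {ι : Type} [Fintype ι] (z : ι → ℤ) (P : ι → V → ℤ) (e : ℕ) (Ψ : V → ℤ)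
    (h : ∀ v, ∑ l, z l * P l v = 3 ^ e * Ψ v) (n : ℕ) :
    ∑ l, z l * THF (P l) n = 3 ^ e * THF Ψ n := by
  simp only [THF, Finset.mul_sum]
  rw [Finset.sum_comm]
  exact Finset.sum_congr rfl fun v _ => h v

theorem rowSURP : OfSURP := by
  intro hRAT hP hT hW hO hJ d w hd hw
  classical
  set Θ : Fin (d / 6 + 1) → ℕ → ℤ := fun l n => THF (PdP d (6 * l)) (3 * n) with hΘ
  have key : ∀ z : Fin (d / 6 + 1) → ℤ, z ≠ 0 → ∃ (G : V → ℤ) (u : ℕ → ℤ) (e : ℕ), InZ G ∧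
      (∀ n, ∑ l, z l * Θ l n = 3 ^ e * u n) ∧ (∀ n, 9 ∣ THF G (3 * n) - 3 * u n) ∧
      ∃ n, ¬ 3 ∣ u n := by
    intro z hz
    obtain ⟨e, Ψ, h1, h2, h3⟩ := normaliseP hP d hd z hz
    obtain ⟨G, u, f, h4, h5, h6, h7⟩ := prim hO hJ hd h2 h3
    refine ⟨G, u, e + f, h4, fun n => ?_, h6, h7⟩
    rw [pow_add, mul_assoc, ← h5]
    exact THF_sum z _ e Ψ h1 _
  set h : Option (Fin (d / 6 + 1)) → ℕ → ℂ :=
    fun o => o.elim (cz w) fun l n => ((Θ l n : ℤ) : ℂ) with hh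
  have hdep : ¬ LinearIndependent ℂ h := by
    intro hl
    have := hW d _ h hd (fun o => by
      cases o with
      | none => exact hw
      | some l => exact hT d l hd) hl
    simp at this
  obtain ⟨g, hg, i, hi⟩ := Fintype.not_linearIndependent_iff.1 hdep
  have hg' : ∀ n, g none * ((PowerSeries.coeff n w : ℤ) : ℂ) + ∑ l, g (some l) * (Θ l n : ℂ) = 0 := by
    intro n
    have := congrFun hg n
    simpa [Fintype.sum_option, hh, cz, Finset.sum_apply] using this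
  have hg0 : g none ≠ 0 := by
    intro h0
    have hx : (fun l => g (some l)) ≠ 0 := by
      intro hx
      cases i with
      | none => exact hi h0
      | some l => exact hi (congrFun hx l)
    obtain ⟨z, ⟨l, hl⟩, hz⟩ := hRAT.down _ Θ Set.univ _ hx fun n _ => by
      simpa [h0] using hg' n
    obtain ⟨G, u, e, -, h1, -, n, hn⟩ := key z (by
      rintro rfl
      exact hl (by simp))
    have h5 := h1 n
    rw [hz n trivial] at h5
    rcases mul_eq_zero.1 h5.symm with h6 | h6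
    · exact absurd h6 (by positivity)
    · exact hn (by rw [h6]; simp)
  obtain ⟨M, z, hM, hz⟩ := hRAT.rat _ Θ (fun n => PowerSeries.coeff n w)
    (fun l => -g (some l) / g none) fun n => by
      have h1 := hg' n
      have h3 : ∑ l, -g (some l) / g none * (Θ l n : ℂ) =
          -(∑ l, g (some l) * (Θ l n : ℂ)) / g none := by
        rw [← Finset.sum_neg_distrib, Finset.sum_div]
        exact Finset.sum_congr rfl fun l _ => by ring
      rw [h3, div_eq_iff hg0]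
      linear_combination -h1
  by_cases hz0 : z = 0
  · refine ⟨0, CZ.zero_mem, fun n => ?_⟩
    have h1 := hz n
    rw [hz0] at h1
    simp only [Pi.zero_apply, zero_mul, Finset.sum_const_zero] at h1
    have h3 := (mul_eq_zero.1 h1.symm).resolve_left hM
    rw [h3, ← TFl_apply, map_zero]
    simp
  obtain ⟨G, u, e, hG, h1, h3, n0, hn0⟩ := key z hz0
  have h5 : ∀ n, M * PowerSeries.coeff n w = 3 ^ e * u n := fun n => by rw [← hz n, h1]
  obtain ⟨s, M', hM', hs⟩ : ∃ (s : ℕ) (M' : ℤ), ¬ 3 ∣ M' ∧ M = 3 ^ s * M' := by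
    obtain ⟨s, M', h6, h8⟩ := WfDvdMonoid.max_power_factor' hM (x := (3 : ℤ))
      (by rw [Int.isUnit_iff]; omega)
    exact ⟨s, M', h6, h8⟩
  have hse : s ≤ e := by
    by_contra hlt
    obtain ⟨t, rfl⟩ : ∃ t, s = e + 1 + t := ⟨s - (e + 1), by omega⟩
    have h6 := h5 n0
    rw [hs] at h6
    refine hn0 ⟨3 ^ t * M' * PowerSeries.coeff n0 w, ?_⟩
    refine mul_left_cancel₀ (show (3 : ℤ) ^ e ≠ 0 by positivity) ?_
    rw [← h6]
    ring
  obtain ⟨t, rfl⟩ := Nat.exists_eq_add_of_le hse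
  refine ⟨(M' * 3 ^ t) • G, CZ.smul_mem _ hG, fun n => ?_⟩
  have h6 : M' * PowerSeries.coeff n w = 3 ^ t * u n := by
    refine mul_left_cancel₀ (show (3 : ℤ) ^ s ≠ 0 by positivity) ?_
    have h8 := h5 n
    rw [hs] at h8
    linear_combination h8
  obtain ⟨a, ha⟩ := h3 n
  obtain ⟨b, hb⟩ := pow_even_one even_two hM'
  rw [← TFl_apply, map_smul, TFl_apply, smul_eq_mul]
  exact ⟨M' * 3 ^ t * a + b * PowerSeries.coeff n w, by
    linear_combination M' * 3 ^ t * ha - 3 * M' * h6 + 3 * PowerSeries.coeff n w * hb⟩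

end

end Pool.Agent.MP_5f72fe_nt.H25
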