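import Pool.Agent.MP_5f72fe_nt.H3.All
import Pool.Agent.MP_5f72fe_nt.H1.POLP
import Pool.Agent.MP_5f72fe_nt.H12.WGENP
import Pool.Agent.MP_5f72fe_nt.H16.EIZ2
import Pool.Agent.MP_5f72fe_nt.H19.Z
import Pool.Agent.MP_5f72fe_nt.H25.KbP
import Pool.Agent.MP_5f72fe_nt.H25.SocP
import Pool.Agent.MP_5f72fe_nt.H25.SurP
import Pool.Agent.MP_5f72fe_nt.H41.DEGW
import Pool.Agent.MP_5f72fe_nt.H50.STABP
import Pool.Agent.MP_5f72fe_nt.H55.WDIMP
import Pool.Agent.MP_5f72fe_nt.H59.F9P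
import Pool.Agent.MP_5f72fe_nt.H70.TER1P
import Pool.Agent.MP_5f72fe_nt.H71.CLSP
import Pool.Agent.MP_5f72fe_nt.H85.EIZ7
import Pool.Agent.MP_5f72fe_nt.H86.INDP
import Pool.Agent.MP_5f72fe_nt.H9.TERP

/-! All rows of part D together. -/

namespace Pool.Agent.MP_5f72fe_nt.H25

open Pool.Agent.MP_5f72fe_nt.H3

theorem allZ : RowZ := H19.rowZ allSER allJH allTH allINT allBASE

theorem allF9P : RowF9P := H59.rowF9P allSER allJH

theorem allCLSP : RowCLSP :=
  H71.rowCLSP allSER allJH allINT allBASE allNZ allMF3 allZ allF9P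

theorem allINDP : RowINDP := H86.rowINDP allINT allZ

theorem allWDIMP : RowWDIMP := H55.rowWDIMP allSER allJH allINT allBASE allNZ allZ

theorem allWGENP : RowWGENP := H12.rowWGENP allSER allJH allINT allBASE allNZ allZ

theorem allTER1P : RowTER1P := H70P.rowTER1P allSER allJH allTH

theorem allTERP : RowTERP := H9.rowTERP allSER allTER1P

theorem allSOCP : RowSOCP := rowSOCP allDEG H41.rowDEGW H41.rowTAYW

theorem allINJP : RowINJP :=
  rowINJP H50.rowSTABP H16.rowEIZ2 H85.rowEIZ7 H50.rowORB3 allSOCP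

theorem allSURP : RowSURP :=
  rowSURP allRAT H1.rowPOLP allTERP allWDIMP H50.rowORB3 allINJP

theorem allKBP : RowKBP := rowKBP allSER allJH allF9P allVB.2 allT3 allCOL allSHIM.1

theorem allKER1 : RowKER1 := rowKER1 allRAT allCLSP allINDP allWGENP allINJP allSURP allKBP

theorem allONE : RowONE := rowONE allSER allKER1 allCRIT allEXL

end Pool.Agent.MP_5f72fe_nt.H25
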