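import Pool.Agent.MP_5f72fe_nt.MS.S1

/-! The socle statement for the sign `+1` and the central value itself. -/

namespace Pool.Agent.MP_5f72fe_nt.MS

namespace SOCP

theorem two {x : F3} (h : x + x = 0) : x = 0 := by
  revert x
  decide

theorem rg0 (c : Ar) (i j : ℕ) (hi : i % 3 = 0) (h : rgr c i j = 0)
    (h0 : j % 3 = 0 → c i (j + 3) = 0) (h1 : j % 3 ≤ 1 → c (i + 1) (j + 2) = 0) :
    c (i + 2) (j + 1) + c (i + 3) j = 0 := by
  have : j % 3 = 0 ∨ j % 3 = 1 ∨ j % 3 = 2 := by omega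
  rcases this with e | e | e <;> simp only [rgr, hi, e] at h
  · simpa [Finset.sum_Icc_succ_top, h0 e, h1 (by omega)] using h
  · simpa [Finset.sum_Icc_succ_top, h1 (by omega)] using h
  · simpa [Finset.sum_Icc_succ_top] using h

theorem mid (d : ℕ) (c : Ar) (hd : d % 2 = 0) (hs : ∀ i j, i + j = d → c i j = c j i)
    (hr : ∀ i j, i + j + 3 = d → rgr c i j = 0)
    (hx : ∀ e, e + 2 = d → Mid e (xgr c) ∧ (e = 0 → xgr c 0 0 = 0))
    (hy : ∀ e, e + 6 = d → Mid e (fun i j => c (i + 3) (j + 3)) ∧ (e = 0 → c 3 3 = 0)) :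
    Mid d c ∧ (d = 4 → c 1 3 = 0) := by
  have Y : ∀ p q, p + q = d → (d + 3) / 4 + 2 ≤ p → (d + 3) / 4 + 2 ≤ q → c p q = 0 := by
    intro p q h hp hq
    obtain ⟨p, rfl⟩ : ∃ a, p = a + 3 := ⟨p - 3, by omega⟩
    obtain ⟨q, rfl⟩ : ∃ a, q = a + 3 := ⟨q - 3, by omega⟩
    exact (hy (p + q) (by omega)).1 p q rfl (by omega) (by omega)
  have h4 : d = 4 → c 2 2 = 0 ∧ c 1 3 = 0 := by
    rintro rfl
    have h1 := (hx 2 rfl).1 1 1 rfl (by norm_num) (by norm_num)
    have h2 := hr 0 1 rfl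
    have h3 := hs 3 1 rfl
    simp [xgr, rgr, Finset.sum_Icc_succ_top, h3] at h1 h2
    have h5 : c 2 2 = 0 := two (by linear_combination h2 - h1)
    exact ⟨h5, two (by linear_combination h2 - h5)⟩
  refine ⟨?_, fun h => (h4 h).2⟩
  have key : ∀ p q, p + q = d → q ≤ p → (d + 1) / 4 < q → c p q = 0 := by
    intro p q h hp hq
    by_cases h1 : (d + 3) / 4 + 2 ≤ q
    · exact Y p q h (by omega) h1
    rcases (by omega : d % 4 = 0 ∨ d % 4 = 2) with e | e
    · obtain ⟨j, rfl, rfl, rfl⟩ : ∃ j, d = 4 * j + 4 ∧ p = 3 * j + 2 ∧ q = j + 2 :=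
        ⟨d / 4 - 1, by omega, by omega, by omega⟩
      rcases Nat.eq_zero_or_pos j with rfl | hj
      · exact (h4 rfl).1
      have h2 := rg0 c (3 * j) (j + 1) (by omega) (hr _ _ (by omega))
        (fun _ => Y _ _ (by omega) (by omega) (by omega))
        (fun _ => Y _ _ (by omega) (by omega) (by omega))
      have h3 := (hx (4 * j + 2) rfl).1 (3 * j + 1) (j + 1) (by omega) (by omega) (by omega)
      have h5 := Y (3 * j + 1) (j + 1 + 2) (by omega) (by omega) (by omega)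
      simp only [xgr, show (3 * j + 1) % 3 = 1 by omega, h5, ite_self] at h3
      norm_num at h3
      exact two (by linear_combination h2 - h3)
    · have A : ∀ j, d = 4 * j + 6 → c (3 * j + 3) (j + 3) = 0 := by
        intro j hj
        rcases (by omega : j = 0 ∨ j = 1 ∨ 2 ≤ j) with rfl | rfl | h2
        · exact (hy 0 (by omega)).2 rfl
        · have h2 := hr 3 4 (by omega)
          have h3 := hs 4 6 (by omega)
          have h5 := Y 5 5 (by omega) (by omega) (by omega)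
          simp [rgr, Finset.sum_Icc_succ_top, h3, h5] at h2
          exact two h2
        · have h2 := rg0 c (3 * j) (j + 3) (by omega) (hr _ _ (by omega))
            (fun _ => Y _ _ (by omega) (by omega) (by omega))
            (fun _ => Y _ _ (by omega) (by omega) (by omega))
          rwa [Y _ _ (by omega) (by omega) (by omega), zero_add] at h2
      rcases (by omega : d = 2 ∨ 6 ≤ d) with rfl | h6
      · obtain ⟨rfl, rfl⟩ : p = 1 ∧ q = 1 := by omega
        simpa [xgr] using (hx 0 rfl).2 rfl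
      obtain ⟨j, rfl⟩ : ∃ j, d = 4 * j + 6 := ⟨(d - 6) / 4, by omega⟩
      rcases (by omega : (p = 3 * j + 3 ∧ q = j + 3) ∨ (p = 3 * j + 4 ∧ q = j + 2)) with
        ⟨rfl, rfl⟩ | ⟨rfl, rfl⟩
      · exact A j rfl
      have h3 := (hx (4 * j + 4) rfl).1 (3 * j + 2) (j + 2) (by omega) (by omega) (by omega)
      have h5 : c (3 * j + 2 + 1) (j + 2 + 1) = 0 := A j rfl
      simp only [xgr, show (3 * j + 2) % 3 = 2 by omega, h5, mul_zero, add_zero] at h3
      rcases Nat.eq_zero_or_pos j with rfl | hj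
      · have h7 := hs 2 4 rfl
        norm_num [h7] at h3
        exact h3
      · rw [Y (3 * j + 2) (j + 2 + 2) (by omega) (by omega) (by omega)] at h3
        simpa using h3
  intro i j h hi hj
  rcases le_total j i with h1 | h1
  · exact key i j h h1 hj
  · rw [hs i j h]
    exact key j i (by omega) h1 hi

theorem good (d : ℕ) (c : Ar) (hd : d % 2 = 0) (hr : ∀ i j, i + j + 3 = d → rgr c i j = 0)
    (hm : Mid d c) (h4 : d = 4 → c 1 3 = 0) : Good d c := by
  refine ⟨hm, fun i j h => ?_⟩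
  by_cases e : d = 4
  · have h1 := h4 e
    subst e
    rcases (by omega : (i = 0 ∧ j = 1) ∨ (i = 1 ∧ j = 0)) with ⟨rfl, rfl⟩ | ⟨rfl, rfl⟩ <;>
      simp [rgr, lo, Finset.sum_Icc_succ_top, h1]
  by_cases hi : i ≤ (d + 1) / 4
  · rw [← hr i j h]
    simp only [rgr]
    split_ifs
    · refine Finset.sum_congr rfl fun m hm' => ?_
      have := Finset.mem_Icc.1 hm'
      simp only [lo]
      split_ifs with h1
      · rfl
      · exact (hm _ _ (by omega) (by omega) (by omega)).symm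
    · rfl
  · simp only [rgr]
    split_ifs
    · exact Finset.sum_eq_zero fun m _ => if_neg (by omega)
    · rfl

end SOCP

open SOCP in
/-- the socle statement for the central value -/
theorem socP (hO : RowOPS) (hE : RowELL) (hC : RowCH) (hT : RowCHT) (hM : RowMOB) (hN : RowN2)
    (hR : RowRT) (hX : RowXT) (hY : RowYT) (hP : RowPAR) (hK : RowNEC) (hD : RowRED) :
    Soc 1 1 1 := by
  obtain ⟨M, hM'⟩ := hO.sl F3
  obtain ⟨t, cc, s, T, W, L, hl⟩ := hO.lin F3
  obtain ⟨C, hCo⟩ := hN.lin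
  have ht : ∀ φ, tt φ = t φ := fun φ => (hl φ).1.symm
  have hc : ∀ φ, cj φ = cc φ := fun φ => (hl φ).2.1.symm
  have hs : ∀ φ, sg φ = s φ := fun φ => (hl φ).2.2.1.symm
  have hW : ∀ l φ, wd l φ = W l φ := fun l φ => ((hl φ).2.2.2.2.1 l).symm
  have hL : ∀ φ, ell 1 φ = L 1 φ := fun φ => ((hl φ).2.2.2.2.2 1).symm
  have e0 : ∀ φ : Sb F3, ell 1 φ = cf φ 0 0 := fun φ => by
    simp [ell, cf, co, co1, ch, res, e1, e2]
  have g2 : ∀ x ∈ T2p, G0 x.2 := by unfold G0; decide
  have key : ∀ (d : ℕ) (φ : Sb F3), SL φ → cj φ = φ → sg φ = φ → (∀ l, ell 1 (wd l φ) = 0) →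
      Up 0 0 d (cf φ) → ∃ z : Sb F3, SL z ∧ φ = z - (1 : ℤ) • tt z := by
    intro d
    induction d using Nat.strong_induction_on with
    | _ d ih =>
    intro φ h1 h2 h3 h4 h5
    have lc := hC.lc _ φ h1
    obtain ⟨o1, -⟩ := hC.ops _ φ h1.1
    rcases d with _ | d
    · refine ⟨0, (hM' _).1 M.zero_mem, ?_⟩
      have h6 := hN.ext _ lc (funext fun i => funext fun j => h5 i j i.zero_le j.zero_le (by omega))
      rw [ht, map_zero, smul_zero, sub_zero]
      funext c c' v w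
      exact AddSubgroup.mem_bot.1 (hC.uni _ φ ⊥ h1.1 (fun u y hu hy => h6 u y hu hy) c c' v w)
    rcases Nat.even_or_odd d with hd | hd
    swap
    · exact ih d d.lt_succ_self φ h1 h2 h3 h4
        (hP φ d h1 (by rw [hd.add_one.neg_one_pow, one_smul, h2]) h5)
    have x2 : ∀ ψ : Sb F3, SL ψ → cj ψ = ψ → SL (Tl 2 ψ) ∧ cj (Tl 2 ψ) = Tl 2 ψ ∧
        EqO (ch (Tl 2 ψ)) (app T2p (ch ψ)) := fun ψ a b => by
      have e : cj (Tl 2 ψ) = Tl 2 ψ := by
        have := ((hO.alg _ ψ a.1).2.2.2.2.2 [true]).2.1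
        rw [b] at this
        exact this.symm
      exact ⟨(hO.slOp _ ψ a).2.2.2.1, e, e ▸ (hT _ ψ a.1).1⟩
    have wc : ∀ l, cj (wd l φ) = wd l φ := fun l => by
      rw [← ((hO.alg _ φ h1.1).2.2.2.2.2 l).2.1, h2]
    have ws : ∀ l, sg (wd l φ) = wd l φ := fun l => by
      rw [← ((hO.alg _ φ h1.1).2.2.2.2.2 l).2.2, h3]
    have wl : ∀ l, SL (wd l φ) := (hO.slOp _ φ h1).2.2.2.2.2
    obtain ⟨a1, a2, a3⟩ := x2 φ h1 h2
    obtain ⟨-, -, b3⟩ := x2 _ a1 a2
    have fin : ∀ (e : ℕ) (ψ : Sb F3), e < d → SL ψ → cj ψ = ψ → sg ψ = ψ →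
        (∀ l, ell 1 (wd l ψ) = 0) → Up 0 0 (e + 1) (cf ψ) → Mid e (cf ψ) ∧ cf ψ 0 0 = 0 := by
      intro e ψ he p1 p2 p3 p4 p5
      obtain ⟨z, z1, z2⟩ := ih (e + 1) (by omega) ψ p1 p2 p3 p4 p5
      exact ⟨z2 ▸ hK 1 z e (Or.inl rfl) z1 (z2 ▸ p5), e0 ψ ▸ p4 []⟩
    have mono : ∀ i j n, d + 1 ≤ n → Up i j n (cf φ) := fun i j n h i' j' _ _ h' =>
      h5 i' j' i'.zero_le j'.zero_le (by omega)
    have hr : ∀ i j, i + j + 3 = d → rgr (cf φ) i j = 0 := fun i j h => by
      rw [cf, ← (hR _ i j lc).2 (mono _ _ _ (by omega)), hN.congr _ _ o1, ← hCo, map_zero]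
      rfl
    obtain ⟨m1, m2⟩ := mid d (cf φ) (Nat.even_iff.1 hd) (fun i j _ => by
        rw [cf, ← hN.swap, ← hN.congr _ _ (hC.ops _ φ h1.1).2.2.2, h3]) hr
      (fun e he => by
        have q : cf (Tl 2 φ) = co (app T2p (ch φ)) := hN.congr _ _ a3
        obtain ⟨f1, f2⟩ := fin e _ (by omega) a1 a2 (ws [true]) (fun l => h4 (true :: l))
          (q ▸ (hX _ 0 0 lc).1 _ (mono _ _ _ (by omega)))
        have top : ∀ i j, i + j = e → xgr (cf φ) i j = cf (Tl 2 φ) i j := fun i j h => by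
          rw [q, (hX _ i j lc).2 (mono _ _ _ (by omega))]
          rfl
        exact ⟨fun i j h hi hj => (top i j h).trans (f1 i j h hi hj),
          fun h => (top 0 0 h.symm).trans f2⟩)
      (fun e he => by
        have q : cf (wd [false] φ - (2 : ℤ) • φ - wd [true, true] φ) =
            co (app T7c (ch φ) - (2 : ℤ) • ch φ - app T2p (app T2p (ch φ))) :=
          hN.congr _ _ fun u y hu hy => by
            have u1 := (hT _ φ h1.1).2 u y hu hy
            have u2 := (b3 u y hu hy).trans (((hM.congr _ _ _ a3).2.1 T2p g2) u y hu hy)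
            simp only [Pi.sub_apply, Pi.smul_apply, ← u1, ← u2]
            rfl
        obtain ⟨f1, f2⟩ := fin e (wd [false] φ - (2 : ℤ) • φ - wd [true, true] φ) (by omega)
          ((hM' _).1 (M.sub_mem (M.sub_mem ((hM' _).2 (wl _)) (M.zsmul_mem ((hM' _).2 h1) _))
            ((hM' _).2 (wl _))))
          (by rw [hc, map_sub, map_sub, map_zsmul, ← hc, ← hc, ← hc, wc, wc, h2])
          (by rw [hs, map_sub, map_sub, map_zsmul, ← hs, ← hs, ← hs, ws, ws, h3])
          (fun l => by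
            have u1 : ell 1 (wd l (wd [false] φ)) = 0 := h4 (false :: l)
            have u2 : ell 1 (wd l (wd [true, true] φ)) = 0 := h4 (true :: true :: l)
            rw [hW, map_sub, map_sub, map_zsmul, hL, map_sub, map_sub, map_zsmul, ← hL, ← hL, ← hL,
              ← hW, ← hW, ← hW, u1, u2, h4, smul_zero, sub_zero, sub_zero])
          (q ▸ (hY _ 0 0 lc o1).1 _ (mono _ _ _ (by omega)))
        have top : ∀ i j, i + j = e → cf φ (i + 3) (j + 3) =
            -cf (wd [false] φ - (2 : ℤ) • φ - wd [true, true] φ) i j := fun i j h => by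
          rw [q, (hY _ i j lc o1).2 (mono _ _ _ (by omega)), neg_neg]
          rfl
        exact ⟨fun i j h hi hj => (top i j h).trans (by rw [f1 i j h hi hj, neg_zero]),
          fun h => (top 0 0 h.symm).trans (by rw [f2, neg_zero])⟩)
    rcases Nat.eq_zero_or_pos d with rfl | hp
    · refine ih 0 Nat.one_pos φ h1 h2 h3 h4 fun i j _ _ _ => ?_
      rcases (by omega : (i = 0 ∧ j = 0) ∨ 1 ≤ i + j) with ⟨rfl, rfl⟩ | h
      · exact e0 φ ▸ h4 []
      · exact h5 i j i.zero_le j.zero_le h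
    obtain ⟨z, z1, z2, z3, z4⟩ := hD 1 φ d (Or.inl rfl) hp h1 (by rw [hd.neg_one_pow, one_smul, h2])
      (by rw [one_smul, h3]) h5 (good d _ (Nat.even_iff.1 hd) hr m1 m2)
    rw [hd.neg_one_pow, one_smul] at z2
    simp only [one_smul] at z3 z4 ⊢ ih
    have z5 := (hM' _).2 z1
    have z6 := (hM' _).2 (hO.slOp _ z z1).1
    obtain ⟨z', y1, y2⟩ := ih d d.lt_succ_self (φ - (z - tt z))
      ((hM' _).1 (M.sub_mem ((hM' _).2 h1) (M.sub_mem z5 z6)))
      (by rw [hc, map_sub, map_sub, ← hc, ← hc, ← hc, (hO.alg _ z z1.1).2.2.2.1, h2, z2])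
      (by rw [hs, map_sub, ← hs, ← hs, h3, z3])
      (fun l => by
        have u := (hE _ (wd l z) 1 ((hO.syOp _ z z1.1).2.2.2.2.2 l) odd_one (by decide)).1
        rw [← ((hO.alg _ z z1.1).2.2.2.2.2 l).1, jacobiSym.one_right, one_smul] at u
        rw [hW, map_sub, map_sub, hL, map_sub, map_sub, ← hL, ← hL, ← hL, ← hW, ← hW, ← hW, h4, u,
          sub_self, sub_zero]) z4
    refine ⟨z + z', (hM' _).1 (M.add_mem z5 ((hM' _).2 y1)), ?_⟩
    rw [ht, map_add, ← ht, ← ht]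
    linear_combination (exp := 1) y2
  intro φ h1 h2 h3 h4
  obtain ⟨n, n1, n2⟩ := hN.fin _ (hC.lc _ φ h1)
  refine key (2 * n) φ h1 (by rw [h2, one_smul]) (by rw [h3, one_smul]) h4 fun i j _ _ h => ?_
  rcases (by omega : n ≤ i ∨ n ≤ j) with h | h
  · exact n1 i j h j.zero_le (by omega)
  · exact n2 i j i.zero_le h (by omega)

end Pool.Agent.MP_5f72fe_nt.MS
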