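import Pool.Agent.MP_5f72fe_nt.H25.FinC
import Pool.Agent.MP_5f72fe_nt.H25.SocM
import Pool.Agent.MP_5f72fe_nt.MS.All
import Pool.Agent.MP_5f72fe_nt.MS.ESD
import Pool.Agent.MP_5f72fe_nt.MS.IND3
import Pool.Agent.MP_5f72fe_nt.MS.INJC
import Pool.Agent.MP_5f72fe_nt.MS.LEV3
import Pool.Agent.MP_5f72fe_nt.MS.SUP
import Pool.Agent.MP_5f72fe_nt.MS.TREEP
import Pool.Agent.MP_5f72fe_nt.MS.VERT
import Pool.Agent.MP_5f72fe_nt.MS.VI

/-! All rows for the central value. -/

namespace Pool.Agent.MP_5f72fe_nt.MS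

theorem allIND3 : RowIND3 := rowIND3 allIND1

theorem allBDY : RowBDY := rowBDY allCU allPER allIND3 (rowINJC allCU)

theorem allRW : RW :=
  ⟨allBAS, allSA, allOPS, allELL, allLIFTJ, allBD, allBND, rowVI allBAS allINT,
    rowVERT allBAS allINT,
    socP allOPS allELL allCH allCHT allMOB allN2 allRT allXT allYT allPAR allNEC allRED, allLOC,
    allCU, allPER, allSYM, allAUT, allINJA, allINJ1, allFORM, allHKF, allQE, allTHMA,
    rowTREEP allBAS allLOC, rowLEV3 allINT allCU allPER allCUF allQE allBDY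
      (rowES allINT allCU allPER allCUF rowESD allBDY) (rowSUP allCU), allIND3, allINT, allCUF,
    allMELC⟩

end Pool.Agent.MP_5f72fe_nt.MS
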