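import Pool.Agent.MP_5f72fe_nt.H25.SpecN
import Pool.Agent.MP_5f72fe_nt.H3.Main

/-! Counting the Bernoulli numbers prime to three. -/

namespace Pool.Agent.MP_5f72fe_nt.H25N

open Filter NumberField Pool.Agent.MP_1246c0_nt.H55 Pool.Agent.MP_5f72fe_nt.H3 Finset

theorem bad (hQ : RowQN4) (hA : RowALG4) (hF : RowCNF) (hC : RowCNTN) (M : ℕ) (R : ℤ → Prop)
    (ρ ε : ℝ) (hM : 0 < M) (hL : Dens M (fun f => R (dsc f)) ρ) (he : 0 < ε) :
    ∀ᶠ X : ℝ in atTop, ∀ B : Finset ℕ, (∀ n ∈ B, (n % 4 = 3 ∧ 7 ≤ n) ∧ Squarefree n ∧ (n : ℝ) ≤ X ∧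
      R (-n) ∧ (3 : ℤ) ∣ (BB n).num) → 2 * (B.card : ℝ) ≤ (ρ + ε) * X := by
  classical
  have key : ∀ n : ℕ, ∃ f g : Fm ℤ, (n % 4 = 3 ∧ 7 ≤ n) ∧ Squarefree n ∧ (3 : ℤ) ∣ (BB n).num →
      Aniso f ∧ Aniso g ∧ dsc f = -n ∧ dsc g = -n ∧ ¬ Eqv f g := fun n => by
    by_cases h : (n % 4 = 3 ∧ 7 ≤ n) ∧ Squarefree n ∧ (3 : ℤ) ∣ (BB n).num
    · obtain ⟨K, _, _, s, τ, q⟩ := hQ.model n h.1 h.2.1
      have h3 := h.2.2
      rw [hF K n s τ q, Rat.num_neg_eq_neg_num, Rat.num_natCast, dvd_neg] at h3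
      obtain ⟨f, g, hfg⟩ := hA K n s τ q (by exact_mod_cast h3)
      exact ⟨f, g, fun _ => hfg⟩
    · exact ⟨0, 0, fun h' => absurd h' h⟩
  choose f g hfg using key
  filter_upwards [hC M _ ρ ε hM hL he] with X hX B hB
  have hb : ∀ n ∈ B, _ := fun n hn => hfg n ⟨(hB n hn).1, (hB n hn).2.1, (hB n hn).2.2.2.2⟩
  have hm : ∀ F ∈ B.image f ∪ B.image g, ∃ n ∈ B, dsc F = -n ∧ Aniso F ∧ (F = f n ∨ F = g n) := by
    intro F hF
    rcases mem_union.1 hF with h | h <;> obtain ⟨n, hn, rfl⟩ := mem_image.1 h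
    · exact ⟨n, hn, (hb n hn).2.2.1, (hb n hn).1, Or.inl rfl⟩
    · exact ⟨n, hn, (hb n hn).2.2.2.1, (hb n hn).2.1, Or.inr rfl⟩
  have hc : (B.image f ∪ B.image g).card = 2 * B.card := by
    rw [card_union_of_disjoint, card_image_of_injOn, card_image_of_injOn, two_mul]
    · intro n hn m hm e
      have := (hb n hn).2.2.2.1.symm.trans (e ▸ (hb m hm).2.2.2.1)
      omega
    · intro n hn m hm e
      have := (hb n hn).2.2.1.symm.trans (e ▸ (hb m hm).2.2.1)
      omega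
    · rw [disjoint_left]
      intro F h1 h2
      obtain ⟨n, hn, rfl⟩ := mem_image.1 h1
      obtain ⟨m, hm, e⟩ := mem_image.1 h2
      have := (hb n hn).2.2.1.symm.trans (e ▸ (hb m hm).2.2.2.1)
      obtain rfl : n = m := by omega
      exact (hb n hn).2.2.2.2 (e ▸ eqv_refl _)
  have h2 := hX (B.image f ∪ B.image g) (fun F hF => by
    obtain ⟨n, hn, e, ha, -⟩ := hm F hF
    obtain ⟨hn1, -, hn2, hn3, -⟩ := hB n hn
    refine ⟨ha, by omega, ?_, fun p q r s h => ?_⟩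
    · rw [e, neg_neg]
      exact_mod_cast hn2
    · show R (dsc _)
      rwa [dsc_act, h, e, one_pow, one_mul]) fun F hF G hG e => by
    obtain ⟨n, hn, e1, -, h1⟩ := hm F hF
    obtain ⟨m, hm, e2, -, h2⟩ := hm G hG
    have := dsc_eqv e
    obtain rfl : n = m := by omega
    rcases h1 with rfl | rfl <;> rcases h2 with rfl | rfl
    · rfl
    · exact absurd e (hb n hn).2.2.2.2
    · exact absurd (eqv_symm e) (hb n hn).2.2.2.2
    · rfl
  rw [hc] at h2
  exact_mod_cast h2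

theorem rowCNTB : OfCNTB := by
  classical
  intro hQ hA hF hC h6 h7 h18 h5
  constructor
  · filter_upwards [tendsto_natCast_atTop_atTop (R := ℝ).eventually (bad hQ hA hF hC 6
      (fun d => d % 12 = 5) (1 / 9) (1 / 1500) (by norm_num) h6 (by norm_num)), h7] with X hX hX'
    have h2 := hX ((range (X + 1)).filter fun n => n % 12 = 7 ∧ Squarefree n ∧ (3 : ℤ) ∣ (BB n).num)
      fun n hn => by
        obtain ⟨h1, h2, h3, h4⟩ := mem_filter.1 hn
        exact ⟨by omega, h3, by exact_mod_cast Nat.le_of_lt_succ (mem_range.1 h1), by omega, h4⟩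
    have h3 := card_filter_add_card_filter_not (s := (range (X + 1)).filter
      fun n => n % 12 = 7 ∧ Squarefree n) fun n => (3 : ℤ) ∣ (BB n).num
    simp only [filter_filter, and_assoc] at h3
    rw [← h3] at hX'
    push_cast at hX'
    have : (0 : ℝ) ≤ X := Nat.cast_nonneg X
    linarith
  · have ht : Tendsto (fun X : ℕ => 3 * (X : ℝ)) atTop atTop :=
      tendsto_natCast_atTop_atTop.const_mul_atTop (by norm_num)
    filter_upwards [ht.eventually (bad hQ hA hF hC 18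
      (fun d => d % 36 = 21) (1 / 27) (1 / 1500) (by norm_num) h18 (by norm_num)), h5] with X hX hX'
    have h2 := hX (((range (X + 1)).filter fun n => n % 12 = 5 ∧ Squarefree n ∧
      (3 : ℤ) ∣ (BB (3 * n)).num).image fun n => 3 * n) fun m hm => by
        obtain ⟨n, hn, rfl⟩ := mem_image.1 hm
        obtain ⟨h1, h2, h3, h4⟩ := mem_filter.1 hn
        refine ⟨by omega, (Nat.squarefree_mul ((Nat.Prime.coprime_iff_not_dvd Nat.prime_three).2
          (by omega))).2 ⟨Nat.prime_three.prime.squarefree, h3⟩, ?_, by omega, h4⟩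
        have := mem_range.1 h1
        exact_mod_cast (by omega : 3 * n ≤ 3 * X)
    rw [card_image_of_injective _ (mul_right_injective₀ three_ne_zero)] at h2
    have h3 := card_filter_add_card_filter_not (s := (range (X + 1)).filter
      fun n => n % 12 = 5 ∧ Squarefree n) fun n => (3 : ℤ) ∣ (BB (3 * n)).num
    simp only [filter_filter, and_assoc] at h3
    rw [← h3] at hX'
    push_cast at hX'
    have : (0 : ℝ) ≤ X := Nat.cast_nonneg X
    linarith

end Pool.Agent.MP_5f72fe_nt.H25N
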