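import Pool.Agent.MP_5f72fe_nt.H25.SpecN

/-! The local density modulo eighteen, and squarefree numbers that are `5` modulo `12`. -/

namespace Pool.Agent.MP_5f72fe_nt.H25N.F

open Pool.Agent.MP_5f72fe_nt.H25N Pool.Agent.MP_1246c0_nt.H55 Filter Finset

/-- the residues modulo `m` with discriminant `3` -/
def SR (m : ℕ) [NeZero m] : Finset (ZMod m × ZMod m × ZMod m × ZMod m) :=
  univ.filter fun x => (x.1 * x.2.2.2 - x.2.1 * x.2.2.1) ^ 2 -
    4 * (x.1 * x.2.2.1 - x.2.1 ^ 2) * (x.2.1 * x.2.2.2 - x.2.2.1 ^ 2) = 3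

theorem card_2 : (SR 2).card = 6 := by decide +kernel

theorem card_9 : (SR 9).card = 648 := by decide +kernel

theorem mem_SR (m : ℕ) [NeZero m] (f : Fm ℤ) (h : dsc f % m = 3 % m) :
    ((f 0 : ZMod m), (f 1 : ZMod m), (f 2 : ZMod m), (f 3 : ZMod m)) ∈ SR m := by
  refine mem_filter.2 ⟨mem_univ _, ?_⟩
  have h : ((dsc f : ℤ) : ZMod m) = ((3 : ℤ) : ZMod m) := (ZMod.intCast_eq_intCast_iff' _ _ m).2 h
  rw [← dsc_cst] at h
  simpa [dsc, cst] using h

/-- Chinese remainder -/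
def crt (a : ZMod 2) (b : ZMod 9) : ZMod 18 := 9 * a.val + 10 * b.val

theorem crt_cast (x : ℤ) : crt x x = x := by
  have : ∀ y : ZMod 18, crt (ZMod.cast y) (ZMod.cast y) = y := by decide
  simpa [ZMod.cast_intCast (show 2 ∣ 18 by norm_num), ZMod.cast_intCast (show 9 ∣ 18 by norm_num)]
    using this x

theorem rowLOC18 : RowLOC18 := by
  refine ⟨(SR 2 ×ˢ SR 9).image fun x => (![crt x.1.1 x.2.1, crt x.1.2.1 x.2.2.1,
    crt x.1.2.2.1 x.2.2.2.1, crt x.1.2.2.2 x.2.2.2.2] : Fm (ZMod 18)), fun f hf => ?_,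
    le_trans (b := ((SR 2 ×ˢ SR 9).card : ℝ)) (by exact_mod_cast card_image_le)
      (by rw [card_product, card_2, card_9]; norm_num)⟩
  simp only at hf
  refine mem_image.2 ⟨(_, _), mem_product.2 ⟨mem_SR 2 f (by omega), mem_SR 9 f (by omega)⟩, ?_⟩
  funext i
  fin_cases i <;> exact crt_cast _

theorem cnt7 (X : ℕ) : (X + 5) / 12 ≤ ((range (X + 1)).filter fun n => n % 12 = 5).card := by
  rw [← card_range ((X + 5) / 12)]
  refine card_le_card_of_injOn (fun j => 12 * j + 5) (fun j hj => ?_) fun i _ j _ h => ?_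
  · simp only [coe_range, Set.mem_Iio, coe_filter, mem_range, Set.mem_ofPred_eq] at hj ⊢
    omega
  · simp only at h; omega

theorem cntm (X m : ℕ) (hm : Nat.Coprime 12 m) :
    ((range (X + 1)).filter fun n => n % 12 = 5 ∧ m ^ 2 ∣ n).card ≤ X / (12 * m ^ 2) + 1 := by
  rw [← card_range (X / (12 * m ^ 2) + 1)]
  refine card_le_card_of_injOn (fun n => n / (12 * m ^ 2)) (fun n hn => ?_) fun i hi j hj h => ?_
  · simp only [coe_range, Set.mem_Iio, coe_filter, mem_range, Set.mem_ofPred_eq] at hn ⊢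
    exact Nat.lt_succ_of_le (Nat.div_le_div_right (by omega))
  · simp only [coe_filter, mem_range, Set.mem_ofPred_eq] at hi hj h
    have h1 : i ≡ j [MOD 12] := by rw [Nat.ModEq]; omega
    have h2 : i ≡ j [MOD m ^ 2] :=
      (Nat.modEq_zero_iff_dvd.2 hi.2.2).trans (Nat.modEq_zero_iff_dvd.2 hj.2.2).symm
    have h3 : i % (12 * m ^ 2) = j % (12 * m ^ 2) :=
      (Nat.modEq_and_modEq_iff_modEq_mul (hm.pow_right 2)).1 ⟨h1, h2⟩
    rw [← Nat.div_add_mod i (12 * m ^ 2), ← Nat.div_add_mod j (12 * m ^ 2), h, h3]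

theorem rowFDN5 : RowFDN5 := by
  classical
  filter_upwards [eventually_ge_atTop 1000000] with X hX
  set s := Nat.sqrt X with hs
  have hs4 : 4 ≤ s := Nat.le_sqrt'.2 (by omega)
  set T := (Ioc 4 s).filter fun m => Nat.Coprime 12 m with hT
  have h5 : ((range (X + 1)).filter fun n => n % 12 = 5) ⊆
      ((range (X + 1)).filter fun n => n % 12 = 5 ∧ Squarefree n) ∪
        T.biUnion fun m => (range (X + 1)).filter fun n => n % 12 = 5 ∧ m ^ 2 ∣ n := by
    intro n hn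
    obtain ⟨h1, h2⟩ := mem_filter.1 hn
    by_cases hq : Squarefree n
    · exact mem_union_left _ (mem_filter.2 ⟨h1, h2, hq⟩)
    · rw [Nat.squarefree_iff_prime_squarefree] at hq
      push Not at hq
      obtain ⟨p, hp, hd⟩ := hq
      have p2 : p ≠ 2 := by rintro rfl; omega
      have p3 : p ≠ 3 := by rintro rfl; omega
      have p4 : p ≠ 4 := by rintro rfl; exact absurd hp (by decide)
      have := hp.two_le
      have hle := Nat.le_of_dvd (by omega) hd
      have hX1 := mem_range.1 h1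
      refine mem_union_right _ (mem_biUnion.2 ⟨p, mem_filter.2 ⟨mem_Ioc.2
        ⟨by omega, Nat.le_sqrt.2 (by omega)⟩, ?_⟩, mem_filter.2 ⟨h1, h2, by rwa [sq]⟩⟩)
      exact Nat.Coprime.mul_left (m := 2 ^ 2) (n := 3)
        (((Nat.coprime_primes Nat.prime_two hp).2 p2.symm).pow_left 2)
        ((Nat.coprime_primes Nat.prime_three hp).2 p3.symm)
  have h6 := (cnt7 X).trans ((card_le_card h5).trans ((card_union_le _ _).trans
    (Nat.add_le_add_left card_biUnion_le _)))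
  have h7 := (Nat.cast_le (α := ℝ)).2 h6
  rw [Nat.cast_add, Nat.cast_sum] at h7
  have h8 : ∑ m ∈ T, (((range (X + 1)).filter fun n => n % 12 = 5 ∧ m ^ 2 ∣ n).card : ℝ) ≤
      ∑ m ∈ Ioc 4 s, ((X : ℝ) / 12 * ((m : ℝ) ^ 2)⁻¹ + 1) := by
    refine le_trans (sum_le_sum fun m hm => ?_) (sum_le_sum_of_subset_of_nonneg (filter_subset _ _)
      fun m _ _ => by positivity)
    refine ((Nat.cast_le (α := ℝ)).2 (cntm X m (mem_filter.1 hm).2)).trans ?_
    rw [Nat.cast_add, Nat.cast_one]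
    refine add_le_add_left (Nat.cast_div_le.trans (le_of_eq ?_)) 1
    push_cast
    rw [← div_eq_mul_inv, div_div]
  have h9 : ∑ m ∈ Ioc 4 s, ((m : ℝ) ^ 2)⁻¹ ≤ 1 / 4 :=
    (sum_Ioc_inv_sq_le_sub (by norm_num) hs4).trans (by
      have : (0 : ℝ) ≤ (s : ℝ)⁻¹ := by positivity
      push_cast
      linarith)
  rw [sum_add_distrib, ← mul_sum, sum_const, Nat.card_Ioc, nsmul_eq_mul, mul_one,
    Nat.cast_sub hs4] at h8
  have h10 : (X : ℝ) / 12 * ∑ m ∈ Ioc 4 s, ((m : ℝ) ^ 2)⁻¹ ≤ X / 12 * (1 / 4) :=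
    mul_le_mul_of_nonneg_left h9 (by positivity)
  have h11 : (X : ℝ) ≤ 12 * (((X + 5) / 12 : ℕ) : ℝ) + 6 := by
    exact_mod_cast (by omega : X ≤ 12 * ((X + 5) / 12) + 6)
  have h12 : (s : ℝ) ^ 2 ≤ X := by exact_mod_cast Nat.sqrt_le' X
  have h13 : (1000000 : ℝ) ≤ X := by exact_mod_cast hX
  push_cast at h8
  nlinarith [sq_nonneg ((s : ℝ) - 800)]

end Pool.Agent.MP_5f72fe_nt.H25N.F
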