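import Pool.Agent.MP_5f72fe_nt.H25.SpecP
import Pool.Agent.MP_5f72fe_nt.MS.THMA
import Pool.Agent.MP_5f72fe_nt.MS.THMP

/-! Automorphic forms of level three with vanishing central value. -/

namespace Pool.Agent.MP_5f72fe_nt.MS

open scoped NumberTheorySymbols

namespace FINA

theorem un1 (hB : RowBAS) : Un 1 := by simpa using (hB.int 1).2.2 (by decide)

theorem unm (hB : RowBAS) : Un (-1) := (hB.unMul 1 1 (un1 hB) (un1 hB)).2.2.2

theorem in0 : In 0 := by decide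

theorem in1 : In 1 := by decide

theorem map_Pb (l : ℂ →ₗ[ℚ] ℚ) (m : ℕ) (β : ℕ → ℂ) (x : V) :
    l (Pb m β x) = Pb m (fun i => l (β i)) x := by
  simp only [Pb, map_sum, map_smul]

theorem map_Pd (l : ℂ →ₗ[ℚ] ℚ) (m : ℕ) (β : ℕ → ℂ) (x : V) :
    l (Pd m β x) = Pd m (fun i => l (β i)) x := by
  simp only [Pd, Pb, map_sum, map_smul]

theorem vert (hB : RowBAS) (hO : RowOPS) (hE : RowELL) (hL : RowLIFTJ) (hd : RowBD) (hn : RowBND)
    (hI : RowVI) (hV : RowVERT) (hS : Soc 1 1 1) (m : ℕ) (B : Bf ℂ) (h : BD (m + 1) 1 B)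
    (hR : ∀ c c' x y, R0 1 fun v w => B c c' v w x y)
    (h5 : cj (ph (m + 1) B) = (1 : ℤ) • ph (m + 1) B)
    (h6 : sg (ph (m + 1) B) = (1 : ℤ) • ph (m + 1) B) (h7 : ∀ l, ell 1 (wd l (ph (m + 1) B)) = 0) :
    (∀ c c' v w x y : V, c ≠ 0 → c' ≠ 0 → B c c' v w x y + B c c' w ((3 : ℚ) • v) x y = 0) ∧
    (Even m → ∀ β : ℕ → ℂ, (∀ x, B e1 e2 e2 e1 x x = Pb m β x) → β m = 0 ∧ WR (Pd m β)) := by
  have key : ∀ l : ℂ →ₗ[ℚ] ℚ, ∃ e I, VI m e (fun c c' v w x y => l (B c c' v w x y)) I := by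
    intro l
    obtain ⟨s1, s2, -⟩ := hd ℂ _ _ B h
    have hl := s2 l
    obtain ⟨e, b1, b2⟩ := hn _ _ _ le_rfl hl
    let i : ℂ →+ ℚ := ((3 : ℚ) ^ e • l).toAddMonoidHom
    have hi : (fun c c' v w => 3 ^ e * ph (m + 1) (fun c c' v w x y => l (B c c' v w x y)) c c' v w) =
        fun c c' v w => i (ph (m + 1) B c c' v w) := by
      funext c c' v w
      simp [i, ph, mul_left_comm]
    obtain ⟨m1, -, m2⟩ := hO.map ℂ ℚ i (ph (m + 1) B)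
    refine ⟨e, hI m e _ hl (fun c c' x y v w a b p q a1 a2 a3 a4 =>
      congrArg l (hR c c' x y v w a b p q a1 a2 a3 a4)) b1 fun j => ?_⟩
    simpa only [one_smul] using THMPA.all hB hO hE hL (Or.inl rfl) (Or.inl rfl) hS odd_one
      (by decide) (jacobiSym.one_right 3) (hi ▸ m1 s1) b1 b2 (by
        rw [hi]
        funext c c' v w
        exact (congrArg i (congrFun (congrFun (congrFun (congrFun h5 c) c') v) w)).trans
          (map_zsmul i _ _)) (by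
        rw [hi]
        funext c c' v w
        exact (map_neg i _).symm.trans ((congrArg i
          (congrFun (congrFun (congrFun (congrFun h6 c) c') v) w)).trans (map_zsmul i _ _)))
      (fun l => by rw [hi, m2, h7, map_zero]) j
  have z := fun x : ℂ => (Module.forall_dual_apply_eq_zero_iff ℚ x).1
  refine ⟨fun c c' v w x y hc hc' => z _ fun l => ?_, fun hm β hβ => ?_⟩
  · obtain ⟨e, I, hI⟩ := key l
    rw [map_add]
    exact (hV m e _ I hI).1 c c' v w x y hc hc'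
  · have k2 : ∀ l : ℂ →ₗ[ℚ] ℚ, l (β m) = 0 ∧ WR (Pd m fun i => l (β i)) := fun l => by
      obtain ⟨e, I, hI⟩ := key l
      exact (hV m e _ I hI).2 hm _ fun x => by rw [← map_Pb, ← hβ]
    refine ⟨z _ fun l => (k2 l).1, fun x => z _ fun l => ?_,
      fun x => sub_eq_zero.1 (z _ fun l => ?_)⟩
    · rw [map_add, map_Pd, map_Pd]
      exact (k2 l).2.1 x
    · rw [map_sub, map_add, map_Pd, map_Pd, map_Pd, sub_eq_zero]
      exact (k2 l).2.2 x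

open THMAA in
theorem small (hB : RowBAS) (hO : RowOPS) (hE : RowELL) (hL : RowLIFTJ) (hBD : RowBD) (hn : RowBND)
    (hI : RowVI) (hV : RowVERT) (hS : Soc 1 1 1) (hLo : RowLOC) (hCU : RowCU) (hSY : RowSYM)
    (hAU : RowAUT) (m : ℕ) (hInj : Inj (m + 1)) (F : Af) (hF : Aut (m + 1) 1 F) (hR : R0 1 F)
    (h2 : Hk (m + 1) 2 F) (h7 : Hk (m + 1) 7 F) (hell : ell 1 (sy (m + 1) F) = 0) (G : Af)
    (hG : G = F + (-1 : ℂ) • Fw (m + 1) F) :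
    (∀ v w, G v w + G w ((3 : ℚ) • v) = 0) ∧ (Even m → ∀ β : ℕ → ℂ,
      (∀ x, rp (m + 1) (G e2 e1) 1 x = Pb m β x) → β m = 0 ∧ WR (Pd m β)) := by
  have hk : 1 ≤ m + 1 := by omega
  have hFw := hAU.fw _ 1 F le_rfl hF
  have hG2 : Aut (m + 1) 2 G := hG ▸ hAU.lin _ _ F _ _ (hAU.mono _ _ F hF) hFw
  have hGR : R0 1 G := fun v w x y b c a1 a2 a3 a4 => by
    have := hR w ((3 : ℚ) • v) y x c b a2 a1 a4 a3
    simp only [hG, Pi.add_apply, Pi.smul_apply, Fw, hR v w x y b c a1 a2 a3 a4, ← this]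
    congr 4 <;> module
  have hGa : Aut (m + 1) 1 G := ⟨hG2.junk, hG2.cu, hG2.inv, (hLo.rk _ G 1 le_rfl hGR).1⟩
  have hs : Sy (sy (m + 1) F) := (hBD ℂ _ 1 (sB _ F) (hSY.bd _ 1 F hk hF)).1
  have hsyG : sy (m + 1) G = sy (m + 1) F + cj (sg (sy (m + 1) F)) := by
    rw [hG, hSY.lin _ 1 2 F (Fw _ F) _ hF hFw, hSY.fw _ 1 F hk hF, smul_neg, neg_smul,
      neg_neg, one_smul]
  have hbd := hBD ℂ _ 1 (sB _ G) (hSY.bd _ 1 G hk hGa)
  have hbd1 := hbd.2.2.1 (((1 : ℤ) : ℚ) * (-1) ^ (m + 1 - 1))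
  have hph := hbd.2.2.2 1
  have hw : ∀ l, ell 1 (wd l (sy (m + 1) F)) = 0 := by
    intro l
    obtain ⟨μ, hμ⟩ := wd_eigen (sy _ F) (hSY.hk _ 1 2 F hk (Or.inl rfl) hF h2)
      (hSY.hk _ 1 7 F hk (Or.inr rfl) hF h7) l
    rw [hμ, ell_smul, hell, smul_zero]
  have hΦ : ph (m + 1) (sB (m + 1) G) + (1 : ℤ) • cj (ph (m + 1) (sB (m + 1) G)) =
      sy (m + 1) F + (1 : ℤ) • cj (sy (m + 1) F) + (1 : ℤ) • sg (sy (m + 1) F) +
        (1 * 1 : ℤ) • cj (sg (sy (m + 1) F)) := by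
    obtain ⟨t, c, g, T, W, L, hl⟩ := hO.lin ℂ
    have hc : ∀ φ, cj φ = c φ := fun φ => (hl φ).2.1.symm
    have e2 : c (c (sg (sy (m + 1) F))) = sg (sy (m + 1) F) := by
      rw [← hc, ← hc]; exact (hO.alg ℂ _ (hO.syOp ℂ _ hs).2.2.1).1
    show sy (m + 1) G + (1 : ℤ) • cj (sy (m + 1) G) = _
    rw [hsyG]
    simp only [hc, map_add, e2, one_smul, mul_one]
    abel
  obtain ⟨c1, c2, c3⟩ := sym hO hE 1 1 1 (sy _ F) (Or.inl rfl) (Or.inl rfl) odd_one (by decide) hs hw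
    _ (hph.trans hΦ)
  obtain ⟨v1, v2⟩ := vert hB hO hE hL hBD hn hI hV hS m _ hbd1 (fun c c' x y v w a b p q a1 a2 a3 a4 => by
    simp only [sB, apN_add, apN_smul, hGR v w a b p q a1 a2 a3 a4,
      hGR (ap mN v) (ap mN w) a b p q a1 a2 a3 a4]) c1 c2 c3
  obtain ⟨M1, hM1⟩ := hCU.sub (m + 1)
  obtain ⟨M2, hM2⟩ := hCU.subg (m + 1)
  have cu := hGa.cu
  have cg := hAU.cg _ 1 G le_rfl hGa
  refine ⟨fun v w => hInj _ (G (ap mN v) (ap mN w) + G (ap mN w) ((3 : ℚ) • ap mN v))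
    ((((1 : ℤ) : ℚ) * (-1) ^ (m + 1 - 1) : ℚ) : ℂ)
    ((hM1 _).1 (M1.add_mem ((hM1 _).2 (cu _ _)) ((hM1 _).2 (cu _ _))))
    ((hM1 _).1 (M1.add_mem ((hM1 _).2 (cu _ _)) ((hM1 _).2 (cu _ _))))
    ((hM2 _).1 (M2.add_mem ((hM2 _).2 (cg _ _)) ((hM2 _).2 (cg _ _))))
    ((hM2 _).1 (M2.add_mem ((hM2 _).2 (cg _ _)) ((hM2 _).2 (cg _ _)))) fun x y c c' hc hc' => ?_,
    fun hm β hβ => v2 hm β fun x => ?_⟩
  · have n1 : ¬ (c = 0 ∨ c' = 0) := by tauto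
    have n2 : ¬ (ap mN c = 0 ∨ ap mN c' = 0) := by
      have := apN_ne c hc
      have := apN_ne c' hc'
      tauto
    rw [(hCU.perLin _ _ _ _ _ _ _ 0 (cu _ _) (cu _ _)).1,
      (hCU.perLin _ _ _ _ _ _ _ 0 (cu _ _) (cu _ _)).1, ← v1 c c' v w x y hc hc']
    simp only [sB, if_neg n1, if_neg n2, apN_smul, Rat.smul_def]
    ring
  · have a1 : ap mN e2 = e2 := by simp [ap, mN, e2]
    have a2 : ap mN e1 = (-1, 0) := by simp [ap, mN, e1]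
    have a3 : G e2 (-1, 0) = G e2 e1 := by
      rw [← hGR e2 e1 1 (-1) 0 0 (un1 hB) (unm hB) in0 in0]
      simp [e1]
    rw [← hβ, a1, a2]
    simp [sB, a3, rp, Per, Pc, e1, e2, hm.neg_one_pow] at a3 ⊢

end FINA

end Pool.Agent.MP_5f72fe_nt.MS
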