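import Pool.Agent.MP_5f72fe_nt.H25.FinA

/-! The central value at all levels `3 ^ r`. -/

namespace Pool.Agent.MP_5f72fe_nt.MS

open Complex
open scoped Real NumberTheorySymbols

namespace FINA

theorem slInj (hC : RowCU) {k : ℕ} {g : Mt} {h h' : ℂ → ℂ} (hg : 0 < det g) (a : Cu k h)
    (b : Cu k h') (e : sl k g h = sl k g h') : h = h' := by
  have d : det (adj g) = det g := by simp only [det, adj]; ring
  have s : mul g (adj g) = (det g, 0, 0, det g) := by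
    simp only [mul, adj, det, Prod.mk.injEq]
    refine ⟨?_, ?_, ?_, ?_⟩ <;> ring
  rw [← hC.sc k _ h hg.ne' a, ← hC.sc k _ h' hg.ne' b, ← s, hC.comp k _ _ _ hg (d ▸ hg),
    hC.comp k _ _ _ hg (d ▸ hg), e]

theorem cen (hC : RowCU) {k n : ℕ} {F : Af} (hF : Aut k n F) (m : ℕ) (v w : V) :
    F ((3 ^ m : ℚ) • v) ((3 ^ m : ℚ) • w) = F v w := by
  have := hF.inv (3 ^ m, 0, 0, 3 ^ m) (m + m) (by simp [det, pow_add]) v w
  rw [hC.sc k _ _ (by positivity) (hF.cu _ _)] at this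
  rw [← this]
  congr 1 <;> ext <;> simp [ap]

theorem unq (hS : RowSA) (hC : RowCU) {k n r : ℕ} {F G : Af} (hF : Aut k n F) (hG : Aut k n G)
    (rF : R0 r F) (rG : R0 r G) (e : F e2 e1 = G e2 e1) : F = G := by
  funext v w
  by_cases h : dt v w = 0
  · rw [hF.junk v w h, hG.junk v w h]
  obtain ⟨g, a, m, x, y, b, c, d, h1, h2, h3, h4, h5, h6⟩ := hS r v w h
  obtain ⟨O, hO⟩ : ∃ q : ℚ, q = 3 ^ r * b := ⟨_, rfl⟩
  have i : In O := by
    rw [hO]
    intro h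
    exact h3 (h.trans (by
      simpa using Rat.mul_den_dvd ((3 ^ r : ℤ) : ℚ) b))
  have k1 : ∀ H : Af, R0 r H → H (3 ^ r * b, x) (y, 3 ^ r * c) = H e2 e1 := fun H hH => by
    rw [← hH e2 e1 x y O c h1 h2 i h4, hO]
    simp [e1, e2]
  rw [← cen hC hF m, ← cen hC hG m, h5, h6]
  refine slInj hC (g := g) (by rw [d]; positivity) (hF.cu _ _) (hG.cu _ _) ?_
  rw [hF.inv g a d, hG.inv g a d, k1 F rF, k1 G rG, e]

theorem qAdd {h h' : ℂ → ℂ} {a a' : ℕ → ℂ} (c : ℂ) (p : QE h a) (q : QE h' a') :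
    QE (h + c • h') (a + c • a') :=
  ⟨by simp [p.1, q.1], fun z hz => by
    simpa [add_mul, mul_assoc] using (p.2 z hz).add ((q.2 z hz).mul_left c)⟩

theorem qZero {k : ℕ} {h : ℂ → ℂ} (p : Cu k h) (q : QE h 0) : h = 0 := by
  funext z
  rcases le_or_gt z.im 0 with hz | hz
  · exact p.zero z hz
  · exact (q.2 z hz).unique (by simp)

theorem qD (k : ℕ) {h : ℂ → ℂ} {a : ℕ → ℂ} (q : QE h a) :
    QE (sl k mD h) fun n => 3 ^ k * if 3 ∣ n then a (n / 3) else 0 := by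
  refine ⟨by simp [q.1], fun z hz => ?_⟩
  have h1 := (q.2 (3 * z) (by simpa using hz)).mul_left (3 ^ k)
  have e : sl k mD h z = 3 ^ k * h (3 * z) := by simp [sl, hz, mD, det]
  rw [e, ← (mul_right_injective₀ (three_ne_zero (α := ℕ))).hasSum_iff fun n hn => by
    have : ¬ 3 ∣ n := fun ⟨c, hc⟩ => hn ⟨c, hc.symm⟩
    simp [this]]
  refine Eq.mp (congrArg (HasSum · _) (funext fun n => ?_)) h1
  simp only [Function.comp, dvd_mul_right, if_true, Nat.mul_div_cancel_left _ three_pos,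
    mul_assoc]
  push_cast
  ring_nf

theorem rec0 {a : ℕ → ℂ} (c : ℂ) (h0 : a 0 = 0)
    (h : ∀ n, a n = c * if 3 ∣ n then a (n / 3) else 0) : a = 0 := by
  funext n
  induction n using Nat.strong_induction_on with
  | _ n ih =>
  rcases Nat.eq_zero_or_pos n with rfl | hn
  · exact h0
  rw [h n, ih (n / 3) (by omega)]
  simp

theorem self0 (hQ : RowQE) {k : ℕ} {h : ℂ → ℂ} {a : ℕ → ℂ} (p : Cu k h) (q : QE h a) (c : ℂ)
    (e : h + c • sl k mD h = 0) : h = 0 := by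
  have := hQ.uniq _ _ (qAdd c q (qD k q)) e
  refine qZero p (rec0 (-c * 3 ^ k) q.1 (fun n => ?_) ▸ q)
  have := congrFun this n
  simp only [Pi.add_apply, Pi.smul_apply, smul_eq_mul, Pi.zero_apply] at this
  linear_combination this

/-- the shift -/
theorem shift (hB : RowBAS) (hL : RowLOC) {k r : ℕ} {F : Af} (hF : Aut k r F)
    (rF : R0 r F) : Aut k (r + 1) (fun v w => F v ((1 / 3 : ℚ) • w)) ∧
      R0 (r + 1) (fun v w => F v ((1 / 3 : ℚ) • w)) ∧
      F e2 ((1 / 3 : ℚ) • e1) = sl k mD (F e2 e1) := by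
  obtain ⟨O, hO⟩ := hB.ring
  have r1 : R0 (r + 1) fun v w => F v ((1 / 3 : ℚ) • w) := fun v w x y b c a1 a2 a3 a4 => by
    have := rF v ((1 / 3 : ℚ) • w) x y (3 * b) c a1 a2
      ((hO _).1 (O.mul_mem (natCast_mem O 3) ((hO _).2 a3))) a4
    simp only [← this]
    congr 1 <;> module
  refine ⟨⟨fun v w h => hF.junk _ _ ?_, fun v w => hF.cu _ _, fun g a d v w => ?_,
    (hL.rk _ _ _ (by omega) r1).1⟩, r1, ?_⟩
  · simp only [dt, Prod.smul_fst, Prod.smul_snd, smul_eq_mul] at h ⊢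
    linear_combination (1 / 3) * h
  · rw [← hF.inv g a d v]
    congr 2
    ext <;> simp [ap] <;> ring
  · rw [← hF.inv mD 1 rfl]
    congr 2 <;> ext <;> simp [ap, mD, e1, e2]

/-- the Fricke involution -/
theorem fricke (hB : RowBAS) (hS : RowSA) (hL : RowLOC) (hC : RowCU) (hA : RowAUT) {k r : ℕ}
    {F : Af} (hr : 1 ≤ r) (hF : Aut k r F) (rF : R0 r F) (σ : ℂ) (hσ : σ * σ = 1)
    (hW : sl k (0, -1, 3 ^ r, 0) (F e2 e1) = σ • F e2 e1) (v w : V) :
    F w ((3 ^ r : ℚ) • v) = σ • F v w := by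
  have r1 : R0 r fun v w => F w ((3 ^ r : ℚ) • v) := fun v w x y b c a1 a2 a3 a4 => by
    have := rF w ((3 ^ r : ℚ) • v) y x c b a2 a1 a4 a3
    simp only [← this]
    congr 1 <;> module
  have a1 : Aut k r fun v w => F w ((3 ^ r : ℚ) • v) := by
    refine ⟨fun v w h => hF.junk _ _ ?_, fun v w => hF.cu _ _, fun g a d v w => ?_,
      (hL.rk _ _ _ hr r1).1⟩
    · simp only [dt, Prod.smul_fst, Prod.smul_snd, smul_eq_mul] at h ⊢
      linear_combination (-3 ^ r) * h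
    · rw [← hF.inv g a d w]
      congr 2
      ext <;> simp [ap] <;> ring
  have a2 : Aut k r (F + (σ - 1) • F) := hA.lin k r F F _ hF hF
  rw [show F + (σ - 1) • F = σ • F by module] at a2
  refine congrFun (congrFun (unq hS hC a1 a2 r1 (fun v w x y b c a1 a2 a3 a4 => by
    simp only [Pi.smul_apply, rF v w x y b c a1 a2 a3 a4]) ?_) v) w
  obtain ⟨L, hL'⟩ := hC.lin k (0, -1, 3 ^ r, 0)
  refine slInj hC (g := (0, -1, 3 ^ r, 0)) (by simp [det]) (hF.cu _ _) (a2.cu _ _) ?_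
  have := hF.inv (0, -1, 3 ^ r, 0) r (by simp [det]) e2 e1
  rw [Pi.smul_apply, Pi.smul_apply, ← hL' (σ • _), map_smul, hL', hW, smul_smul, hσ, one_smul,
    ← this, ← rF e1 _ (-1) 1 0 0 (unm hB) (un1 hB) in0 in0]
  congr 2 <;> ext <;> simp [ap, e1, e2]

/-- the operator `U` -/
theorem uop (hB : RowBAS) (hS : RowSA) (hL : RowLOC) (hC : RowCU) (hA : RowAUT) (hQ : RowQE)
    {k r : ℕ} {F : Af} {a : ℕ → ℂ} (hr : 1 ≤ r) (hF : Aut k r F) (rF : R0 r F)
    (q : QE (F e2 e1) a) (l : ℂ) (hl : ∀ n, a (3 * n) = l * a n) (v w : V) :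
    F v w = dep F v w + (l / 3 ^ k) • F v ((1 / 3 : ℚ) • w) := by
  obtain ⟨s1, s2, s3⟩ := shift hB hL hF rF
  have f1 := hA.mono _ _ _ hF
  have f2 := (hL.rk _ F r hr rF).2
  have d1 := (hA.loc k _ F (by omega) f1 f2).1
  have d2 := (hL.ops _ F _ (by omega) f2).1
  have g1 := hA.lin k _ _ _ (l / 3 ^ k) d1 s1
  refine congrFun (congrFun (unq hS hC f1 g1 f2 (fun v w x y b c a1 a2 a3 a4 => by
    have := s2 v w x y b c a1 a2 a3 a4
    simp only [Pi.add_apply, Pi.smul_apply, d2 v w x y b c a1 a2 a3 a4] at this ⊢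
    rw [this]) ?_) v) w
  have h1 := qAdd (-1) q (qAdd (l / 3 ^ k) (hQ.loc k r F a hF q).1 (s3 ▸ qD k q))
  have h2 := qZero ((hA.lin k _ _ _ (-1) f1 g1).cu e2 e1) (by
    refine Eq.mp (congrArg (QE _) (funext fun n => ?_)) h1
    by_cases h : 3 ∣ n
    · obtain ⟨n, rfl⟩ := h
      simp [a3, hl]
      field_simp
      ring
    · simp [a3, h])
  simp only [Pi.add_apply, Pi.smul_apply, neg_smul, one_smul] at h2 ⊢
  exact add_neg_eq_zero.1 h2

end FINA

end Pool.Agent.MP_5f72fe_nt.MS
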