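import Pool.Agent.MP_5f72fe_nt.H25.FinB
import Pool.Agent.MP_5f72fe_nt.MS.BDY
import Pool.Agent.MP_5f72fe_nt.MS.ES
import Pool.Agent.MP_5f72fe_nt.MS.FOUR

/-! The central value at all levels `3 ^ r`: the three cases. -/

namespace Pool.Agent.MP_5f72fe_nt.MS

open Complex Filter
open scoped Real NumberTheorySymbols

/-- the rows used -/
structure RW : Prop where
  bas : RowBAS
  sa : RowSA
  ops : RowOPS
  ell : RowELL
  liftj : RowLIFTJ
  bd : RowBD
  bnd : RowBND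
  vi : RowVI
  vert : RowVERT
  soc : Soc 1 1 1
  loc : RowLOC
  cu : RowCU
  per : RowPER
  sym : RowSYM
  aut : RowAUT
  inja : RowINJA
  inj1 : RowINJ1
  form : RowFORM
  hkf : RowHKF
  qe : RowQE
  thma : RowTHMA
  treep : RowTREEP
  lev3 : RowLEV3
  ind3 : RowIND3
  int : RowINT
  cuf : RowCUF
  melc : RowMELC

namespace FINA

theorem inj (R : RW) (m : ℕ) : Inj (m + 1) := by
  rcases m with _ | m
  · exact R.inj1
  · exact R.inja _ (by omega)

open BDYA in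
theorem wt2 (R : RW) {h : ℂ → ℂ} (hh : Cu (0 + 1) h)
    (hi : ∀ g : Mt, det g = 1 → 3 ∣ g.2.2.1 → sl (0 + 1) g h = h)
    (hr : ∀ x, rp (0 + 1) h 1 x = 0) : h = 0 := by
  have h0 : ∀ g : Mt, det g = 1 → 3 ∣ g.2.2.1 →
      sig 0 h 1 0 0 (ap g e1) (ap g e2) ∈ (⊥ : AddSubgroup (V → ℂ)) := by
    intro g hg h3
    rw [AddSubgroup.mem_bot]
    funext x
    have hg' : det (g.1, -g.2.1, -g.2.2.1, g.2.2.2) = 1 := by
      rw [← hg]
      simp [det]
    have h1 := hr (ap (adj g) x)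
    rw [← ap_adj hg x, sig, be_inv 0 0 0 hg h3, per_inv R.per hh hg (hi g hg h3) _ e1_ne e2_ne,
      apN_ap g, apN_ap g, apN_ap g,
      per_inv R.per hh hg' (hi _ hg' (dvd_neg.2 h3)) _ (apN_ne e1_ne) (apN_ne e2_ne), apN_e1,
      apN_e2, ad_smul (R.cu.perAd _ _ _ _) e1_ne e2_ne (by norm_num), zero_mul, zero_mul, add_zero,
      sub_zero]
    exact h1
  have hg : Cg 1 h := ⟨1, fun g hg _ _ h3 _ => hi g hg (by simpa using h3)⟩
  refine R.inj1 h h 1 hh hh hg hg fun x y c c' hc hc' => ?_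
  simpa [sig, be, Per, xi] using congrFun (AddSubgroup.mem_bot.1
    (R.ind3 _ _ _ (sig_ad R.cu 0 h 1 0 0) h0 c c' hc hc')) x

variable (R : RW) {m r : ℕ} {F : Af} {a : ℕ → ℂ} (hF : Aut (m + 1) r F) (rF : R0 r F)
  (q : QE (F e2 e1) a) (h2 : Hk (m + 1) 2 F) (h7 : Hk (m + 1) 7 F)
  (he : ell 1 (sy (m + 1) F) = 0)
include R hF rF q h2 h7 he

/-- level one -/
theorem lev0 (hr : r = 1) (hm : Odd m) (hi : sl (m + 1) mS (F e2 e1) = F e2 e1) : F e2 e1 = 0 := by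
  subst hr
  have s := (small R.bas R.ops R.ell R.liftj R.bd R.bnd R.vi R.vert R.soc R.loc R.cu R.sym R.aut m
    (inj R m) F hF rF h2 h7 he _ rfl).1 e2 e1
  have c := cen R.cu hF 1 e2 e1
  have w := hF.inv (mul mS mD) 1 rfl e1 ((3 : ℚ) • e2)
  have c' := cen R.cu hF 1 e2 ((-1 : ℚ) • e1)
  have u := rF e2 e1 1 (-1) 0 0 (un1 R.bas) (unm R.bas) in0 in0
  rw [show ap (mul mS mD) e1 = (3 ^ 1 : ℚ) • e2 by simp [ap, mul, mS, mD, e1, e2],
    show ap (mul mS mD) ((3 : ℚ) • e2) = (3 ^ 1 : ℚ) • (-1 : ℚ) • e1 by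
      simp [ap, mul, mS, mD, e1, e2], c', R.cu.comp _ _ _ _ (by decide) (by decide)] at w
  simp only [one_smul, zero_smul, add_zero, mul_zero] at u
  rw [u, hi] at w
  simp only [Pi.add_apply, Pi.smul_apply, Fw, Nat.add_sub_cancel, hm.neg_one_pow, pow_one] at s c
  rw [c, ← w] at s
  refine self0 R.qe (hF.cu _ _) q 1 ((smul_right_injective _ (two_ne_zero (α := ℂ))) ?_)
  beta_reduce
  rw [smul_zero, ← s]
  module

/-- level three -/
theorem lev1 (hr : r = 1) (l : ℂ) (hl : ∀ n, a (3 * n) = l * a n)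
    (hi : ∀ g : Mt, det g = 1 → 3 ∣ g.2.2.1 → sl (m + 1) g (F e2 e1) = F e2 e1)
    (hW : ∀ v w, F w ((3 ^ r : ℚ) • v) = ((-1 : ℂ) ^ (m + 1)) • F v w) : F e2 e1 = 0 := by
  subst hr
  simp only [pow_one] at hW
  have hG : (2 : ℂ) • F = F + (-1 : ℂ) • Fw (m + 1) F := by
    funext v w
    simp only [Pi.add_apply, Pi.smul_apply, Fw, hW, smul_smul, Nat.add_sub_cancel]
    rw [pow_succ, ← mul_assoc ((-1) ^ m), ← mul_pow]
    simp [two_smul]
  obtain ⟨s1, s2⟩ := small R.bas R.ops R.ell R.liftj R.bd R.bnd R.vi R.vert R.soc R.loc R.cu R.sym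
    R.aut m (inj R m) F hF rF h2 h7 he _ hG
  have two : ∀ h : ℂ → ℂ, (2 : ℂ) • h = 0 → h = 0 := fun h e =>
    (smul_eq_zero.1 e).resolve_left two_ne_zero
  rcases Nat.even_or_odd' m with ⟨j, hm | hm⟩
  swap
  · have := s1 e2 e1
    simp only [Pi.smul_apply, hW, hm, pow_succ, pow_mul] at this
    refine two _ (two _ ?_)
    rw [← this]
    module
  have hm' : Even m := ⟨j, by omega⟩
  simp only [pow_succ, hm'.neg_one_pow, one_mul, neg_smul, one_smul] at hW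
  obtain ⟨M, hM⟩ := R.cu.sub (m + 1)
  have cu : Cu (m + 1) ((2 : ℂ) • F e2 e1) := (hM _).1 (M.smul_mem _ ((hM _).2 (hF.cu _ _)))
  have hi' : ∀ g : Mt, det g = 1 → 3 ∣ g.2.2.1 →
      sl (m + 1) g ((2 : ℂ) • F e2 e1) = (2 : ℂ) • F e2 e1 := fun g a b => by
    obtain ⟨L, hL⟩ := R.cu.lin (m + 1) g
    rw [← hL, map_smul, hL, hi g a b]
  obtain ⟨β, hβ⟩ : Hp (2 * m) (rp (m + 1) ((2 : ℂ) • F e2 e1) 1) := by
    obtain ⟨N, hN⟩ := R.int.sub ℂ (2 * m)
    have d := ESA.diag R.int m (fun x y => Per (m + 1) ((2 : ℂ) • F e2 e1) x y e1 e2)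
      (fun y => (R.cu.perPol _ _ e1 e2 y cu).1) fun x => by
        simpa only [(R.cu.perPol _ _ e1 e2 x cu).2, Nat.add_sub_cancel] using
          (R.cu.perPol _ _ e1 e2 x cu).1
    have := (hN _).1 (N.add_mem ((hN _).2 d) ((hN _).2 ((R.int.hom ℂ _ _ d).2.2 mN)))
    refine Eq.mp (congrArg _ (funext fun x => ?_)) this
    simp [rp]
  obtain ⟨b1, b2⟩ := s2 hm' β hβ
  rcases Nat.eq_zero_or_pos m with rfl | hp
  · exact two _ (wt2 R cu hi' fun x => by rw [hβ]; simp [b1])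
  by_cases e : l = 3 ^ m
  · refine two _ (R.lev3 m _ (a + (1 : ℂ) • a) β hp cu hi' ?_ (fun n => ?_) hβ b1 b2)
    · simpa only [two_smul, one_smul] using qAdd 1 q q
    · simp only [Pi.add_apply, one_smul, hl, e]
      ring
  have i1 := in1
  have u1 := un1 R.bas
  have um := unm R.bas
  have k1 : ∀ v w, F w v + F v (v + w) + F v (w - v) + F v w = (1 - l / 3 ^ m) • F v w := by
    intro v w
    have t := uop R.bas R.sa R.loc R.cu R.aut R.qe le_rfl hF rF q l hl v ((3 : ℚ) • w)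
    have t1 := rF v (v + w) (-1) 1 1 0 um u1 i1 in0
    have t2 := rF v (w - v) 1 (-1) 1 0 u1 um i1 in0
    rw [show (-1 : ℚ) • v + (1 : ℚ) • (v + w) = w by module,
      show (1 : ℚ) • (v + w) + (3 ^ 1 * 0 : ℚ) • v = v + w by module] at t1
    rw [show (1 : ℚ) • v + (1 : ℚ) • (w - v) = w by module,
      show (-1 : ℚ) • (w - v) + (3 ^ 1 * 0 : ℚ) • v = v - w by module] at t2
    simp only [dep, smul_smul, show (1 / 3 * 3 : ℚ) = 1 by norm_num, one_smul, hW, t1, t2] at t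
    funext z
    have := congrFun t z
    simp only [Pi.add_apply, Pi.sub_apply, Pi.smul_apply, Pi.neg_apply, smul_eq_mul,
      Rat.smul_def] at this ⊢
    push_cast at this
    field_simp at this ⊢
    linear_combination (-1 / 3) * this
  have k2 : ∀ v w, F v w = F w v := fun v w => by
    have t1 := rF v (v + w) (-1) 1 1 0 um u1 i1 in0
    have t2 := rF v (w - v) 1 (-1) 1 0 u1 um i1 in0
    rw [show (-1 : ℚ) • v + (1 : ℚ) • (v + w) = w by module,
      show (1 : ℚ) • (v + w) + (3 ^ 1 * 0 : ℚ) • v = w + v by module] at t1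
    rw [show (1 : ℚ) • v + (1 : ℚ) • (w - v) = w by module,
      show (-1 : ℚ) • (w - v) + (3 ^ 1 * 0 : ℚ) • v = v - w by module] at t2
    refine smul_right_injective _ (r := 1 - l / 3 ^ m) (fun h => e ?_) ?_
    · field_simp at h
      linear_combination -h
    · simp only [← k1, t1, t2]
      abel
  have c := cen R.cu hF 1 e2 ((1 / 3 : ℚ) • e1)
  rw [pow_one, smul_smul, show (3 * (1 / 3) : ℚ) = 1 by norm_num, one_smul, k2, hW,
    (shift R.bas R.loc hF rF).2.2] at c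
  refine self0 R.qe (hF.cu _ _) q 1 ?_
  rw [← c, one_smul, add_neg_cancel]

/-- higher levels -/
theorem lev2 (hr : 2 ≤ r) (l : ℂ) (hl : ∀ n, a (3 * n) = l * a n)
    (hW : ∀ v w, F w ((3 ^ r : ℚ) • v) = ((-1 : ℂ) ^ (m + 1)) • F v w) : F e2 e1 = 0 := by
  obtain ⟨r, rfl⟩ : ∃ s, r = s + 2 := ⟨r - 2, by omega⟩
  have U := uop R.bas R.sa R.loc R.cu R.aut R.qe (by omega) hF rF q l hl
  obtain ⟨d1, -, d2⟩ := R.loc.ops _ F _ hr rF
  have u1 := un1 R.bas
  by_cases e : l = 0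
  · simp only [e, zero_div, zero_smul, add_zero] at U
    have t := R.thma 1 1 1 (m + 1) (r + 2) (r + 3) F (Or.inl rfl) (Or.inl rfl) R.soc odd_one
      (by decide) (jacobiSym.one_right 3) (by omega) (by omega) le_rfl hF h2 h7 he
    rw [R.treep _ F ((-1) ^ (m + 1)) r (r + 3) (neg_one_pow_eq_or ℚ _) (by omega) rF
      ((funext₂ U : F = dep F) ▸ d2) hF.junk (by simpa using cen R.cu hF 1) (fun v w => by
        rw [hW]
        funext z
        simp [Rat.smul_def]) ?_]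
    · rfl
    refine Eq.mp (congrArg _ (funext₂ fun v w => ?_)) t
    have c := cen R.cu hF (r + 1) w ((3 : ℚ) • v)
    rw [smul_smul, ← pow_succ, hW] at c
    simp only [Pi.add_apply, Pi.smul_apply, Fw, ← c, smul_smul, Nat.add_sub_cancel]
    rw [pow_succ (-1 : ℂ), ← mul_assoc ((-1) ^ m), ← mul_pow]
    simp
  have c0 : l / 3 ^ (m + 1) ≠ 0 := div_ne_zero e (pow_ne_zero _ three_ne_zero)
  have k1 : ∀ (v w : V) (c : ℚ), In c → F (v + (c / 3) • w) w = F v w := fun v w c hc => by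
    have t1 := U ((1 / 3 ^ (r + 2) : ℚ) • w) ((3 : ℚ) • v)
    have t2 := U ((1 / 3 ^ (r + 2) : ℚ) • w) ((3 : ℚ) • v + c • w)
    have t3 := rF ((1 / 3 ^ (r + 2) : ℚ) • w) ((3 : ℚ) • v) 1 1 0 c u1 u1 in0 hc
    have t4 := d1 ((1 / 3 ^ (r + 2) : ℚ) • w) ((3 : ℚ) • v) 1 1 0 c u1 u1 in0 hc
    have w0 : (3 ^ (r + 2) : ℚ) • (1 / 3 ^ (r + 2) : ℚ) • w = w := by
      rw [smul_smul, mul_one_div_cancel (by positivity), one_smul]
    rw [one_smul, one_smul, zero_smul, add_zero, mul_comm, mul_smul, w0] at t3 t4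
    rw [t3, t4, t1, add_right_inj] at t2
    have t5 := smul_right_injective _ c0 t2
    rw [← w0, hW, hW, w0, show v + (c / 3) • w = (1 / 3 : ℚ) • ((3 : ℚ) • v + c • w) by module,
      ← t5, smul_smul (1 / 3 : ℚ)]
    simp
  have t := U e2 e1
  have a1 := k1 e2 e1 1 in1
  have a2 := k1 e2 e1 (-1) (by decide)
  rw [neg_div, neg_smul, ← sub_eq_add_neg] at a2
  rw [dep, a1, a2, (shift R.bas R.loc hF rF).2.2] at t
  refine self0 R.qe (hF.cu _ _) q (-(l / 3 ^ (m + 1))) ?_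
  rw [neg_smul, add_neg_eq_zero]
  refine t.trans ?_
  rw [add_eq_right]
  module

end FINA

open FINA in
/-- a form with vanishing central value and even functional equation vanishes -/
theorem central (R : RW) (r k : ℕ) (hk : 1 ≤ k)
    (f : CuspForm (CongruenceSubgroup.Gamma0 (3 ^ r)) (2 * k : ℕ))
    (hT : ∀ l : ℕ, l = 2 ∨ l = 7 → ∃ c : ℂ, ∀ n : ℕ, 1 ≤ n → H3.aF f (l * n) +
      (l : ℂ) ^ (2 * k - 1) * (if l ∣ n then H3.aF f (n / l) else 0) = c * H3.aF f n)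
    (hU : 1 ≤ r → ∃ c : ℂ, ∀ n : ℕ, 1 ≤ n → H3.aF f (3 * n) = c * H3.aF f n)
    (hW : sl k (0, -1, 3 ^ r, 0) (fc f) = ((-1 : ℂ) ^ k) • fc f) (h : ¬ CNe k 1 (H3.aF f)) :
    fc f = 0 := by
  obtain ⟨u1, u2, u3, u4⟩ := R.cuf r k f hk
  obtain ⟨F, f1, f2, f3⟩ := R.form k (max r 1) _ (by omega) u1 fun g a b =>
    u2 g a ((pow_dvd_pow 3 (by omega)).trans b)
  have hk0 : ∀ l, l = 2 ∨ l = 7 → Hk k l F := fun l hl => by
    obtain ⟨c, hc⟩ := hT l hl
    exact ⟨_, R.hkf k _ l F _ (by omega) hl f1 f2 (f3 ▸ R.qe.hecke k l _ _ c hk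
      (by rcases hl with rfl | rfl <;> norm_num) u1 u3 hc)⟩
  rw [← f3] at u2 u3 hW ⊢
  have he := FOURA.van R.bas R.melc k _ 1 F _ hk odd_one squarefree_one (by decide) f1 f2 u3 u4 h
  obtain ⟨m, rfl⟩ : ∃ m, k = m + 1 := ⟨k - 1, by omega⟩
  have h2 := hk0 2 (by simp)
  have h7 := hk0 7 (by simp)
  rcases Nat.eq_zero_or_pos r with rfl | hr
  · have hi := u2 mS rfl (by simp)
    rcases Nat.even_or_odd m with hm | hm
    · rw [pow_zero, pow_succ, hm.neg_one_pow] at hW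
      have := hi.symm.trans hW
      refine smul_right_injective _ (two_ne_zero (α := ℂ)) ?_
      beta_reduce
      rw [smul_zero, two_smul]
      nth_rw 1 [this]
      simp
    · exact lev0 R f1 f2 u3 h2 h7 he rfl hm hi
  rw [max_eq_left hr] at f1 f2
  obtain ⟨l, hl⟩ := hU hr
  have hl' : ∀ n, H3.aF f (3 * n) = l * H3.aF f n := fun n => by
    rcases Nat.eq_zero_or_pos n with rfl | hn
    · simp [u3.1]
    · exact hl n hn
  have w := fricke R.bas R.sa R.loc R.cu R.aut hr f1 f2 _ (by rw [← mul_pow]; simp) hW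
  rcases Nat.eq_or_lt_of_le hr with e | e
  · exact lev1 R f1 f2 u3 h2 h7 he e.symm l hl' (fun g a b => u2 g a (by simpa [← e] using b)) w
  · exact lev2 R f1 f2 u3 h2 h7 he e l hl' w

end Pool.Agent.MP_5f72fe_nt.MS
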