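import Pool.Agent.MP_5f72fe_nt.H3.SpecC

/-! A cusp form whose part `1` modulo `3` vanishes is zero. -/

namespace Pool.Agent.MP_5f72fe_nt.H25

open Pool.Agent.MP_5f72fe_nt.H3 Complex
open scoped MatrixGroups NumberTheorySymbols

noncomputable section

theorem sm_up (t : ℕ) (ht : 0 < t) (d : ℕ → ℂ) (hd : Sm d) : Sm (up t d) := by
  intro r h0 h1
  have hi : Function.Injective fun m : ℕ => t * m := fun a b h => Nat.eq_of_mul_eq_mul_left ht h
  rw [← hi.summable_iff]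
  · refine (hd (r ^ t) (by positivity) (pow_lt_one₀ h0 h1 ht.ne')).congr fun m => ?_
    simp [up, Nat.mul_div_cancel_left _ ht, pow_mul]
  · intro n hn
    have : ¬ t ∣ n := fun ⟨m, hm⟩ => hn ⟨m, hm.symm⟩
    simp [up, this]

theorem sm_le (a b c : ℕ → ℂ) (C : ℝ) (hb : Sm b) (hc : Sm c)
    (h : ∀ n, ‖a n‖ ≤ C * (‖b n‖ + 2 * ‖c n‖)) : Sm a := by
  intro r h0 h1
  refine Summable.of_nonneg_of_le (fun n => by positivity) (fun n => ?_)
    (((hb r h0 h1).add ((hc r h0 h1).mul_left 2)).mul_left C)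
  have := mul_le_mul_of_nonneg_right (h n) (pow_nonneg h0 n)
  linarith

theorem sm_par (μ : ℕ) (c : ℕ → ℂ) (hc : Sm c) : Sm (par μ c) := by
  refine sm_le _ c c 1 hc hc fun n => ?_
  have := norm_nonneg (c n)
  unfold par
  split_ifs
  · linarith
  · rw [norm_zero]
    linarith

theorem sm_flat (hJ : RowJH) (k : ℕ) (c d : ℕ → ℂ) (hc : Sm c) (hd : Sm d) : Sm (flat k c d) := by
  refine sm_le _ _ c ‖(3 ^ k / (√3 : ℝ) : ℂ)‖ (sm_up 3 (by norm_num) d hd) hc fun n => ?_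
  unfold flat
  rw [norm_mul]
  refine mul_le_mul_of_nonneg_left ((norm_add_le _ _).trans ?_) (norm_nonneg _)
  rw [norm_mul]
  have h1 : ‖E (-(1 + n) / 3)‖ = 1 := by rw [hJ.norm]; simp
  have h2 : ‖E ((1 + n) / 3)‖ = 1 := by rw [hJ.norm]; simp
  have h3 : ‖E (-(1 + n) / 3) * I ^ k + E ((1 + n) / 3) * (-I) ^ k‖ ≤ 2 := by
    refine (norm_add_le _ _).trans ?_
    rw [norm_mul, norm_mul, h1, h2, norm_pow, norm_pow, norm_neg, norm_I]
    norm_num
  have := mul_le_mul_of_nonneg_right h3 (norm_nonneg (c n))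
  linarith

theorem flat_zero (hS : RowSER) (hJ : RowJH) (hF : RowF9) (k : ℕ) (c d : ℕ → ℂ) (h : V3 k c d)
    (h0 : cls1 c = 0) : flat k c d = 0 := by
  have hs := sm_flat hJ k c d h.1 h.2.1
  refine hS.uniq 4 _ 0 (by norm_num) fun τ hτ => ?_
  have h1 := hF k c d h τ hτ 0 (by norm_num)
  have h2 : ser 12 (par 0 (cls1 c)) (-1 / ((3 : ℕ) * τ)) = 0 := by simp [ser, par, h0]
  have h3 : (Real.sqrt 2 : ℂ) ≠ 0 := by simp
  rw [h2, pow_zero, one_mul, one_mul, eq_comm, mul_eq_zero, div_eq_zero_iff] at h1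
  have h4 := (h1.resolve_left (pow_ne_zero _ (hJ.jne τ hτ))).resolve_right h3
  have h5 := ((hS.nsum 4 _ τ (by norm_num) (sm_par 0 _ hs) hτ).of_norm.hasSum).add
    (hS.nsum 4 _ τ (by norm_num) (sm_par 1 _ hs) hτ).of_norm.hasSum
  unfold ser at h4
  rw [h4] at h5
  have h6 : (fun n : ℕ => flat k c d n * E (n * τ / (4 : ℕ))) = fun n : ℕ =>
      par 0 (flat k c d) n * E (n * τ / (4 : ℕ)) + par 1 (flat k c d) n * E (n * τ / (4 : ℕ)) := by
    funext n
    unfold par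
    rcases Nat.mod_two_eq_zero_or_one n with h7 | h7 <;> simp [h7]
  rw [h6]
  exact h5

theorem E_third (hJ : RowJH) (q : ℕ) :
    E ((1 + (3 * q : ℕ)) / 3) = (-1 + I * (√3 : ℝ)) / 2 ∧
    E (-(1 + (3 * q : ℕ)) / 3) = (-1 - I * (√3 : ℝ)) / 2 := by
  have h1 : E ((1 + (3 * q : ℕ)) / 3) = (-1 + I * (√3 : ℝ)) / 2 := by
    have : ((1 + (3 * q : ℕ)) / 3 : ℂ) = 1 / 3 + ((q : ℤ) : ℂ) := by push_cast; ring
    rw [this, hJ.add, hJ.int, mul_one, hJ.quarter.2.2.2]
  refine ⟨h1, ?_⟩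
  have h2 : E (-(1 + (3 * q : ℕ)) / 3) * E ((1 + (3 * q : ℕ)) / 3) = 1 := by
    rw [← hJ.add, ← hJ.int 0]
    congr 1
    push_cast
    ring
  have h3 : ((√3 : ℝ) : ℂ) ^ 2 = 3 := by
    rw [← ofReal_pow, Real.sq_sqrt (by norm_num)]
    simp
  rw [h1] at h2
  have h4 : (-1 + I * (√3 : ℝ)) / 2 * ((-1 - I * (√3 : ℝ)) / 2) = (1 : ℂ) := by
    linear_combination (-(((√3 : ℝ) : ℂ) ^ 2) / 4) * I_sq + (1 / 4) * h3
  linear_combination ((-1 - I * (√3 : ℝ)) / 2) * h2 - E (-(1 + (3 * q : ℕ)) / 3) * h4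

theorem E_two (hJ : RowJH) (q : ℕ) :
    E ((1 + (3 * q + 2 : ℕ)) / 3) = 1 ∧ E (-(1 + (3 * q + 2 : ℕ)) / 3) = 1 := by
  constructor
  · refine Eq.trans (congrArg E ?_) (hJ.int (q + 1))
    push_cast
    ring
  · refine Eq.trans (congrArg E ?_) (hJ.int (-(q + 1)))
    push_cast
    ring

theorem sqrt3_ne : ((√3 : ℝ) : ℂ) ≠ 0 := by simp

theorem flat_core {k : ℕ} {c d : ℕ → ℂ} (h : flat k c d = 0) (n : ℕ) :
    up 3 d n + (E (-(1 + n) / 3) * I ^ k + E ((1 + n) / 3) * (-I) ^ k) * c n = 0 := by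
  have h1 := congrFun h n
  unfold flat at h1
  exact (mul_eq_zero.1 h1).resolve_left (div_ne_zero (by simp) sqrt3_ne)

theorem up_mul (t : ℕ) (ht : 0 < t) (d : ℕ → ℂ) (m : ℕ) : up t d (t * m) = d m := by
  simp [up, Nat.mul_div_cancel_left _ ht]

theorem rec_odd (hJ : RowJH) {k : ℕ} (hk : k % 2 = 1) {c : ℕ → ℂ}
    (h : flat k (toV k c) (toD k c) = 0) (m : ℕ) : c (3 * m) = 3 ^ k * up 3 c m := by
  have h1 := flat_core h (3 * m)
  rw [up_mul 3 (by norm_num), (E_third hJ m).1, (E_third hJ m).2,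
    Odd.neg_pow (Nat.odd_iff.2 hk)] at h1
  have h2 : ¬ k % 2 = 0 := by omega
  simp only [toV, toD, if_neg h2] at h1
  have h3 : I ^ (k + 1) * ((√3 : ℝ) : ℂ) ≠ 0 := mul_ne_zero (pow_ne_zero _ I_ne_zero) sqrt3_ne
  refine mul_left_cancel₀ h3 ?_
  linear_combination -h1

theorem rec_even (hJ : RowJH) {k : ℕ} (hk : k % 2 = 0) {c : ℕ → ℂ}
    (h : flat k (toV k c) (toD k c) = 0) (m : ℕ) :
    c (9 * m) = 3 ^ (2 * k) * up 9 c m + 3 ^ k * chi3 m * c m := by
  have h1 := flat_core h (3 * m)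
  rw [up_mul 3 (by norm_num), (E_third hJ m).1, (E_third hJ m).2,
    Even.neg_pow (Nat.even_iff.2 hk)] at h1
  simp only [toV, toD, if_pos hk] at h1
  rw [show 3 * (3 * m) = 9 * m by ring] at h1
  refine mul_left_cancel₀ (pow_ne_zero k I_ne_zero) ?_
  linear_combination -h1

theorem rec_two (hJ : RowJH) {k : ℕ} (hk : k % 2 = 0) {c : ℕ → ℂ}
    (h : flat k (toV k c) (toD k c) = 0) (q : ℕ) : c (3 * (3 * q + 2)) = 0 := by
  have h1 := flat_core h (3 * q + 2)
  have h2 : ¬ 3 ∣ 3 * q + 2 := by omega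
  rw [(E_two hJ q).1, (E_two hJ q).2, Even.neg_pow (Nat.even_iff.2 hk), up, if_neg h2] at h1
  simp only [toV, if_pos hk] at h1
  refine mul_left_cancel₀ (mul_ne_zero two_ne_zero (pow_ne_zero k I_ne_zero)) ?_
  linear_combination h1

/-- the lift of a sequence -/
def lf (N k : ℕ) (b : ℕ → ℂ) (m : ℕ) : ℂ :=
  ∑ δ ∈ m.divisors, (J(δ | N) : ℂ) * δ ^ (k - 1) * b (m / δ)

/-- its terms prime to three -/
def lf' (N k : ℕ) (b : ℕ → ℂ) (m : ℕ) : ℂ :=
  ∑ δ ∈ m.divisors.filter fun δ => ¬ 3 ∣ δ, (J(δ | N) : ℂ) * δ ^ (k - 1) * b (m / δ)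

theorem lf_split (N k : ℕ) (b : ℕ → ℂ) (m : ℕ) (hm : 1 ≤ m) :
    lf N k b m = lf' N k b m + (J(3 | N) : ℂ) * 3 ^ (k - 1) * up 3 (lf N k b) m := by
  unfold lf'
  conv_lhs => unfold lf
  rw [← Finset.sum_filter_add_sum_filter_not m.divisors (fun δ => ¬ 3 ∣ δ)]
  congr 1
  unfold up
  split_ifs with h
  · obtain ⟨x, rfl⟩ := h
    rw [Nat.mul_div_cancel_left _ (by norm_num : 0 < 3), lf, Finset.mul_sum]
    symm
    refine Finset.sum_bij (fun δ _ => 3 * δ) (fun δ hδ => ?_) (fun a _ b _ h => by omega)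
      (fun δ hδ => ?_) fun δ hδ => ?_
    · simp only [Finset.mem_filter, Nat.mem_divisors] at hδ ⊢
      exact ⟨⟨Nat.mul_dvd_mul_left 3 hδ.1, by omega⟩, by simp⟩
    · simp only [Finset.mem_filter, Nat.mem_divisors, not_not] at hδ
      obtain ⟨y, rfl⟩ := hδ.2
      exact ⟨y, Nat.mem_divisors.2 ⟨Nat.dvd_of_mul_dvd_mul_left (by norm_num) hδ.1.1, by omega⟩,
        rfl⟩
    · rw [Nat.mul_div_mul_left _ _ (by norm_num : 0 < 3)]
      push_cast
      rw [jacobiSym.mul_left]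
      push_cast
      ring
  · rw [mul_zero]
    refine Finset.sum_eq_zero fun δ hδ => ?_
    simp only [Finset.mem_filter, Nat.mem_divisors, not_not] at hδ
    exact absurd (hδ.2.trans hδ.1.1) h

theorem lf'_three (N k : ℕ) (b : ℕ → ℂ) (u : ℂ) (hb : ∀ m, 1 ≤ m → b (3 * m) = u * b m) (m : ℕ)
    (hm : 1 ≤ m) : lf' N k b (3 * m) = u * lf' N k b m := by
  unfold lf'
  have h1 : ((3 * m).divisors.filter fun δ => ¬ 3 ∣ δ) = m.divisors.filter fun δ => ¬ 3 ∣ δ := by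
    ext δ
    simp only [Finset.mem_filter, Nat.mem_divisors]
    constructor
    · rintro ⟨⟨h1, _⟩, h3⟩
      exact ⟨⟨((Nat.prime_three.coprime_iff_not_dvd.2 h3).symm).dvd_of_dvd_mul_left h1, by omega⟩,
        h3⟩
    · rintro ⟨⟨h1, _⟩, h3⟩
      exact ⟨⟨h1.mul_left 3, by omega⟩, h3⟩
  rw [h1, Finset.mul_sum]
  refine Finset.sum_congr rfl fun δ hδ => ?_
  simp only [Finset.mem_filter, Nat.mem_divisors] at hδ
  obtain ⟨x, rfl⟩ := hδ.1.1
  have h2 : 0 < δ := Nat.pos_of_mul_pos_right hm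
  have h3 : 1 ≤ x := Nat.pos_of_mul_pos_left hm
  rw [show 3 * (δ * x) = δ * (3 * x) by ring, Nat.mul_div_cancel_left _ h2,
    Nat.mul_div_cancel_left _ h2, hb x h3]
  ring

theorem lf_eig (N k : ℕ) (hk : 1 ≤ k) (b : ℕ → ℂ) (t : ℂ) (ht : t * t = 1) (hJ : (J(3 | N) : ℂ) = t)
    (hb : ∀ m, 1 ≤ m → b (3 * m) = t * 3 ^ k * b m) (m : ℕ) (hm : 1 ≤ m) :
    lf N k b (3 * m) + 3 ^ (2 * k - 1) * up 3 (lf N k b) m =
      t * (3 ^ k + 3 ^ (k - 1)) * lf N k b m := by
  have h1 := lf_split N k b (3 * m) (by omega)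
  have h2 := lf_split N k b m hm
  rw [up_mul 3 (by norm_num), lf'_three N k b _ hb m hm, hJ] at h1
  rw [hJ] at h2
  have h3 : (3 : ℂ) ^ (2 * k - 1) = 3 ^ k * 3 ^ (k - 1) := by
    rw [← pow_add]
    congr 1
    omega
  rw [h3]
  linear_combination h1 - t * 3 ^ k * h2 - 3 ^ k * 3 ^ (k - 1) * up 3 (lf N k b) m * ht

theorem lf_zero (N k : ℕ) (b : ℕ → ℂ) (h : ∀ m, 1 ≤ m → lf N k b m = 0) (m : ℕ) (hm : 1 ≤ m) :
    b m = 0 := by
  induction m using Nat.strong_induction_on with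
  | _ m ih =>
    have h1 := h m hm
    unfold lf at h1
    rw [Finset.sum_eq_single_of_mem 1 (Nat.one_mem_divisors.2 (by omega))] at h1
    · simpa using h1
    · intro δ hδ h2
      have h3 := Nat.pos_of_mem_divisors hδ
      rw [ih (m / δ) (Nat.div_lt_self hm (by omega))
        (Nat.div_pos (Nat.divisor_le hδ) h3), mul_zero]

theorem eig_zero (hS : RowSER) (hT : RowT3) (hC : RowCOL) (hH : RowSHIM) (N k : ℕ) (c : ℕ → ℂ)
    (hA : Adm N k) (hc : VL k c) (h0 : c 0 = 0) (t : ℂ) (ht : t * t = 1) (hJ : (J(3 | N) : ℂ) = t)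
    (hb : ∀ m, 1 ≤ m → c (N * (3 * m) ^ 2) = t * 3 ^ k * c (N * m ^ 2)) (m : ℕ) (hm : 1 ≤ m) :
    c (N * m ^ 2) = 0 := by
  classical
  obtain ⟨S, x, hS1, hx⟩ := hH N k c hA hc h0
  choose! F hF using fun n (hn : 1 ≤ n) => hC N k n hA hn
  obtain ⟨A, _, hA2⟩ := hS.cfLin (2 * k : ℕ)
  have hk : 1 ≤ k := by
    have := hA.1
    omega
  have h1 : ∀ m, 1 ≤ m → aF (∑ n ∈ S, x n • F n : CuspForm 𝒮ℒ (2 * k : ℕ)) m =
      lf N k (fun m => c (N * m ^ 2)) m := by
    intro m hm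
    rw [← hA2, map_sum, Finset.sum_apply]
    refine Eq.trans ?_ (hx m hm).symm
    refine Finset.sum_congr rfl fun n hn => ?_
    rw [map_smul, hA2, Pi.smul_apply, smul_eq_mul, (hF n (hS1 n hn)).2 m hm]
  have h2 : ‖t‖ = 1 := by
    have h3 := congrArg norm ht
    rw [norm_mul, norm_one] at h3
    nlinarith [norm_nonneg t]
  have h3 := hT k (∑ n ∈ S, x n • F n) t hk h2 fun m hm => by
    have h4 := lf_eig N k hk (fun m => c (N * m ^ 2)) t ht hJ hb m hm
    rw [h1 _ (by omega), h1 _ hm, ← h4]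
    congr 2
    unfold up
    split_ifs with h5
    · exact h1 _ (Nat.div_pos (Nat.le_of_dvd hm h5) (by norm_num))
    · rfl
  refine lf_zero N k (fun m => c (N * m ^ 2)) (fun m hm => ?_) m hm
  rw [← h1 m hm, h3, ← hA2, map_zero]
  rfl

theorem chi3_zero (n : ℕ) (h : n % 3 = 0) : chi3 n = 0 := by
  unfold chi3
  rw [Int.bmod_def]
  split_ifs <;> omega

theorem chi3_one (n : ℕ) (h : n % 3 = 1) : chi3 n = 1 := by
  unfold chi3
  rw [Int.bmod_def]
  split_ifs <;> omega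

theorem chi3_two (n : ℕ) (h : n % 3 = 2) : chi3 n = -1 := by
  unfold chi3
  rw [Int.bmod_def]
  split_ifs <;> omega

theorem jac_three (n : ℕ) : J(n | 3) = chi3 n := by
  rw [jacobiSym.mod_left]
  have h : n % 3 = 0 ∨ n % 3 = 1 ∨ n % 3 = 2 := by omega
  rcases h with h | h | h
  · rw [chi3_zero n h, show (n : ℤ) % (3 : ℕ) = 0 by omega]
    norm_num
  · rw [chi3_one n h, show (n : ℤ) % (3 : ℕ) = 1 by omega]
    norm_num
  · rw [chi3_two n h, show (n : ℤ) % (3 : ℕ) = 2 by omega]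
    norm_num

theorem sq_mod (N m : ℕ) (h : ¬ 3 ∣ m) : N * m ^ 2 % 3 = N % 3 := by
  have h1 : m ^ 2 % 3 = 1 := by
    have h2 : m % 3 = 1 ∨ m % 3 = 2 := by omega
    rcases h2 with h2 | h2 <;> simp [Nat.pow_mod, h2]
  rw [Nat.mul_mod, h1, mul_one, Nat.mod_mod]

theorem three_ind {P : ℕ → Prop} (h1 : ∀ m, ¬ 3 ∣ m → P m)
    (h2 : ∀ m, 1 ≤ m → (∀ x, 1 ≤ x → x ≤ m → P x) → P (3 * m)) (m : ℕ) (hm : 1 ≤ m) : P m := by
  induction m using Nat.strong_induction_on with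
  | _ m ih =>
    by_cases h : 3 ∣ m
    · obtain ⟨x, rfl⟩ := h
      exact h2 x (by omega) fun y hy hy' => ih y (by omega) hy
    · exact h1 m h

theorem nine_dvd (N m : ℕ) (hN : Squarefree N) (h : 9 ∣ N * m ^ 2) : 3 ∣ m := by
  by_contra h3
  have h1 : Nat.Coprime 9 (m ^ 2) :=
    Nat.Coprime.pow 2 2 (Nat.prime_three.coprime_iff_not_dvd.2 h3)
  have h2 := hN 3 (h1.dvd_of_dvd_mul_right h)
  simp at h2

theorem rowKB : OfKB := by
  intro hS hJ hV hF hO hT hC hH k c hk hc h0 h1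
  have hf := flat_zero hS hJ hF k _ _ (hV k c hc) h1
  have key : ∀ N, Adm N k → ∀ m, 1 ≤ m → c (N * m ^ 2) = 0 := by
    intro N hA
    have hN := hA.2.1
    have hN4 := hA.2.2
    have e9 : ∀ m, N * (3 * m) ^ 2 = 9 * (N * m ^ 2) := fun m => by ring
    rcases Nat.mod_two_eq_zero_or_one k with hk2 | hk2
    · have r9 := rec_even hJ hk2 hf
      have r3 : ∀ x, ¬ 3 ∣ x → c (3 * x) = 0 := by
        intro x hx
        by_cases h : x % 3 = 1
        · have := congrFun h1 x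
          simpa [cls1, toV, h, hk2] using this
        · have := rec_two hJ hk2 hf (x / 3)
          rwa [show 3 * (x / 3) + 2 = x by omega] at this
      have u9 : ∀ m, up 9 c (N * (3 * m) ^ 2) = c (N * m ^ 2) := fun m => by
        rw [e9, up_mul 9 (by norm_num)]
      have u9' : ∀ m, ¬ 3 ∣ m → up 9 c (N * m ^ 2) = 0 := fun m hm => by
        rw [up, if_neg fun h => hm (nine_dvd N m hN h)]
      by_cases h3 : 3 ∣ N
      · obtain ⟨x, rfl⟩ := h3
        refine three_ind (fun m hm => ?_) fun m hm ih => ?_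
        · rw [mul_assoc]
          refine r3 _ fun h => hm (nine_dvd _ m hN ?_)
          rw [mul_assoc]
          exact Nat.mul_dvd_mul_left 3 h
        · rw [e9, r9, ih m hm le_rfl]
          by_cases h : 3 ∣ m
          · obtain ⟨y, rfl⟩ := h
            rw [u9, ih y (by omega) (by omega)]
            simp
          · rw [u9' m h]
            simp
      · have ht : ((chi3 N : ℤ) : ℂ) * (chi3 N : ℤ) = 1 := by
          by_cases h : N % 3 = 1
          · simp [chi3_one N h]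
          · simp [chi3_two N (by omega)]
        have hj : J(3 | N) = chi3 N := by
          rw [← jac_three]
          exact (jacobiSym.quadratic_reciprocity_one_mod_four (a := N) (b := 3) (by omega)
            (by decide)).symm
        refine eig_zero hS hT hC hH N k c hA hc h0 _ ht (by rw [hj]) ?_
        refine three_ind (fun m hm => ?_) fun m hm ih => ?_
        · rw [e9, r9, u9' m hm]
          have h4 : chi3 (N * m ^ 2 : ℕ) = chi3 N := by
            have h5 := sq_mod N m hm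
            by_cases h : N % 3 = 1
            · rw [chi3_one N h, chi3_one _ (by omega)]
            · rw [chi3_two N (by omega), chi3_two _ (by omega)]
          rw [h4]
          ring
        · have h4 : chi3 (N * (3 * m) ^ 2 : ℕ) = 0 := chi3_zero _ (by rw [e9]; omega)
          rw [e9 (3 * m), r9, u9, h4, ih m hm le_rfl]
          push_cast
          linear_combination (-(3 : ℂ) ^ (2 * k) * c (N * m ^ 2)) * ht
    · have r3 := rec_odd hJ hk2 hf
      have r9 : ∀ m, c (N * (3 * m) ^ 2) = 3 ^ k * c (N * m ^ 2) := fun m => by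
        rw [show N * (3 * m) ^ 2 = 3 * (3 * (N * m ^ 2)) by ring, r3, up_mul 3 (by norm_num)]
      by_cases h3 : N % 3 = 2
      · have hj : J(3 | N) = 1 := by
          have h4 := jacobiSym.quadratic_reciprocity_three_mod_four (a := 3) (b := N) rfl (by omega)
          rw [jac_three, chi3_two N h3] at h4
          exact h4
        refine eig_zero hS hT hC hH N k c hA hc h0 1 (one_mul 1) (by rw [hj]; simp) fun m _ => ?_
        rw [r9, one_mul]
      · refine three_ind (fun m hm => ?_) fun m hm ih => by rw [r9, ih m hm le_rfl, mul_zero]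
        by_cases h4 : N % 3 = 1
        · have h5 := congrFun h1 (N * m ^ 2)
          have h6 := sq_mod N m hm
          have h7 : ¬ k % 2 = 0 := by omega
          simpa [cls1, toV, h6, h4, h7] using h5
        · obtain ⟨x, rfl⟩ : 3 ∣ N := by omega
          rw [mul_assoc, r3, up, if_neg, mul_zero]
          intro h
          refine hm (nine_dvd _ m hN ?_)
          rw [mul_assoc]
          exact Nat.mul_dvd_mul_left 3 h
  refine hO k c hc (funext fun n => ?_)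
  unfold par
  split_ifs with h2
  · by_contra hn
    obtain ⟨N, m, hm, hN⟩ := Nat.sq_mul_squarefree n
    have h3 : m % 2 = 1 := by
      by_contra h
      obtain ⟨y, rfl⟩ : 2 ∣ m := by omega
      have : n = 2 * (2 * y ^ 2 * N) := by rw [← hm]; ring
      omega
    have h4 : n % 4 = N % 4 := by
      obtain ⟨y, rfl⟩ : ∃ y, m = 2 * y + 1 := ⟨m / 2, by omega⟩
      have : n = N + 4 * ((y ^ 2 + y) * N) := by rw [← hm]; ring
      omega
    have h5 := hc.2.1 n hn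
    have h6 := key N ⟨hk, hN, by omega⟩ m (by omega)
    rw [mul_comm, hm] at h6
    exact hn h6
  · rfl

end

end Pool.Agent.MP_5f72fe_nt.H25
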