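import Pool.Agent.MP_5f72fe_nt.H25.SpecD
import Pool.Agent.MP_5f72fe_nt.H3.SocA

/-! The socle theorem with a fixed point: charts and first order symbols. -/

namespace Pool.Agent.MP_5f72fe_nt.H25

open Pool.Agent.MP_5f72fe_nt.H3

/-- homogeneous periodic functions -/
structure Hm (F : V → ZMod 3) : Prop where
  hom : ∀ (l : ℤ) (v : V), ¬ 3 ∣ l → F (l • v) = F v
  per : ∃ N : ℕ, ∀ v w : V, F (v + (3 ^ N : ℤ) • w) = F v

/-- the chart -/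
def cc (F : V → ZMod 3) : ℤ × ℤ → ZMod 3 := fun w => F (1, 3 * w.1, 3 * w.2)

/-- the coefficients -/
def cf (F : V → ZMod 3) (i j : ℕ) : ZMod 3 := cof i j (cc F)

/-- the degree -/
def Dg (m : ℕ) (F : V → ZMod 3) : Prop := DW m (cc F)

/-- linear maps -/
def mp (u l n₁ n₁₁ n₁₂ n₂₁ n₂₂ : ℤ) (v : V) : V :=
  (u * v.1 + l * v.2.1, 3 * n₁ * v.1 + n₁₁ * v.2.1 + n₁₂ * v.2.2, n₂₁ * v.2.1 + n₂₂ * v.2.2)

/-- the exchange -/
def sw (v : V) : V := (v.2.2, v.2.1, v.1)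

theorem three0 : (3 : ZMod 3) = 0 := rfl

variable {F G : V → ZMod 3}

theorem Hm.lin (h : Hm F) (g : V → V) (h1 : ∀ (l : ℤ) (v : V), g (l • v) = l • g v)
    (h2 : ∀ v w : V, g (v + w) = g v + g w) : Hm (F ∘ g) := by
  refine ⟨fun l v hl => by simp only [Function.comp_apply, h1, h.hom l _ hl], ?_⟩
  obtain ⟨N, hN⟩ := h.per
  exact ⟨N, fun v w => by simp only [Function.comp_apply, h1, h2, hN]⟩

theorem Hm.mp (h : Hm F) (u l n₁ n₁₁ n₁₂ n₂₁ n₂₂ : ℤ) : Hm (F ∘ mp u l n₁ n₁₁ n₁₂ n₂₁ n₂₂) := by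
  refine h.lin _ (fun c v => ?_) fun v w => ?_
  · simp only [H25.mp, Prod.smul_mk, Prod.smul_fst, Prod.smul_snd, smul_eq_mul, Prod.mk.injEq]
    exact ⟨by ring, by ring, by ring⟩
  · simp only [H25.mp, Prod.mk_add_mk, Prod.fst_add, Prod.snd_add, Prod.mk.injEq]
    exact ⟨by ring, by ring, by ring⟩

theorem Hm.sw (h : Hm F) : Hm (F ∘ sw) := h.lin _ (fun _ _ => rfl) fun _ _ => rfl

theorem Hm.per' (h : Hm F) (m : ℕ) : ∃ N : ℕ, m < N ∧ ∀ v w : V, F (v + (3 ^ N : ℤ) • w) = F v := by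
  obtain ⟨N, hN⟩ := h.per
  refine ⟨N + (m + 1), by omega, fun v w => ?_⟩
  rw [pow_add, mul_smul, hN]

theorem Hm.sub (h : Hm F) (h' : Hm G) : Hm (F - G) := by
  refine ⟨fun l v hl => by simp only [Pi.sub_apply, h.hom l v hl, h'.hom l v hl], ?_⟩
  obtain ⟨N, hN⟩ := h.per
  obtain ⟨M, hM⟩ := h'.per
  refine ⟨N + M, fun v w => ?_⟩
  simp only [Pi.sub_apply]
  rw [show F (v + (3 ^ (N + M) : ℤ) • w) = F v by rw [pow_add, mul_smul, hN],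
    show G (v + (3 ^ (N + M) : ℤ) • w) = G v by rw [add_comm N, pow_add, mul_smul, hM]]

theorem Hm.zero : Hm 0 := ⟨fun _ _ _ => rfl, 0, fun _ _ => rfl⟩

theorem Hm.add (h : Hm F) (h' : Hm G) : Hm (F + G) := by
  simpa using h.sub (Hm.zero.sub h')

theorem Hm.e (h : Hm F) (l : ℤ) (hl : ¬ 3 ∣ l) {a y b a' y' b' : ℤ}
    (h1 : a = l * a') (h2 : y = l * y') (h3 : b = l * b') : F (a, y, b) = F (a', y', b') := by
  rw [h1, h2, h3, ← h.hom l (a', y', b') hl]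
  rfl

theorem cf_add (F G : V → ZMod 3) (i j : ℕ) : cf (F + G) i j = cf F i j + cf G i j :=
  cof_add i j (cc F) (cc G)

theorem cf_sub (F G : V → ZMod 3) (i j : ℕ) : cf (F - G) i j = cf F i j - cf G i j := by
  have := cf_add (F - G) G i j
  rw [sub_add_cancel] at this
  linear_combination -this

theorem cf_zero (i j : ℕ) : cf 0 i j = 0 := cof_zero i j

theorem Dg.add {m : ℕ} (h : Dg m F) (h' : Dg m G) : Dg m (F + G) := by
  have h1 : ∀ x y : ℤ × ℤ → ZMod 3, df1 (x + y) = df1 x + df1 y := fun x y => by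
    funext w
    simp only [df1, Pi.add_apply]
    ring
  have h2 : ∀ x y : ℤ × ℤ → ZMod 3, df2 (x + y) = df2 x + df2 y := fun x y => by
    funext w
    simp only [df2, Pi.add_apply]
    ring
  intro i j hij
  rw [show cc (F + G) = cc F + cc G from rfl, iter_add _ h2, iter_add _ h1, h i j hij, h' i j hij,
    add_zero]

theorem Dg.sub {m : ℕ} (h : Dg m F) (h' : Dg m G) : Dg m (F - G) := by
  have : F - G = F + (G + G) := by
    funext v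
    simp only [Pi.sub_apply, Pi.add_apply]
    linear_combination -G v * three0
  rw [this]
  exact h.add (h'.add h')

theorem Dg.mono {m n : ℕ} (h : Dg m F) (hmn : m ≤ n) : Dg n F :=
  fun i j hij => h i j (hmn.trans hij)

theorem Dg.eq_zero (h : Dg 0 F) (s t : ℤ) : F (1, 3 * s, 3 * t) = 0 :=
  congrFun (h 0 0 le_rfl) (s, t)

theorem Hm.dg (hD : RowDEG) (h : Hm F) : ∃ m, Dg m F := by
  obtain ⟨N, hN⟩ := h.per
  obtain ⟨m, hm⟩ := hD.per N (cc F) fun v w => by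
    simp only [cc]
    rw [← hN (1, 3 * v.1, 3 * v.2) (0, 3 * w.1, 3 * w.2)]
    simp only [Prod.smul_mk, smul_eq_mul, Prod.mk_add_mk, Prod.fst_add, Prod.snd_add,
      Prod.smul_fst, Prod.smul_snd]
    exact h.e 1 (by decide) (by ring) (by ring) (by ring)
  exact ⟨2 * m, fun i j e => hm i j (by omega)⟩

section

variable (hW : RowDEGW)

include hW

theorem Dg.cf0 {m i j : ℕ} (h : Dg m F) (e : m ≤ i + 2 * j) : cf F i j = 0 :=
  hW.zero m i j _ h e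

theorem Dg.down {n : ℕ} (r : ℕ) (h : Dg (n + r) F) (h0 : ∀ i j, n ≤ i + 2 * j → cf F i j = 0) :
    Dg n F := by
  induction r with
  | zero => exact h
  | succ r ih => exact ih (hW.down _ _ h fun i j e => h0 i j (by omega))

end

theorem Hm.chart (h : Hm F) (m : ℕ) (u l n₁ n₁₁ n₁₂ n₂₁ n₂₂ : ℤ) (hu : ¬ 3 ∣ u) :
    ∃ (N : ℕ) (g : ℤ × ℤ → ℤ × ℤ), m < 3 ^ N ∧ cc (F ∘ H25.mp u l n₁ n₁₁ n₁₂ n₂₁ n₂₂) = cc F ∘ g ∧
      (∀ w : ℤ × ℤ, (3 : ℤ) ^ N ∣ (u + 3 * l * w.1) * (g w).1 - (n₁ + n₁₁ * w.1 + n₁₂ * w.2)) ∧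
      ∀ w : ℤ × ℤ, (3 : ℤ) ^ N ∣ (u + 3 * l * w.1) * (g w).2 - (0 + n₂₁ * w.1 + n₂₂ * w.2) := by
  obtain ⟨N, hN0, hN⟩ := h.per' m
  have hy : ∀ w : ℤ × ℤ, ¬ 3 ∣ u + 3 * l * w.1 := fun w => by
    rw [mul_assoc]
    omega
  choose k x hk e using fun w => inv3 N (by omega) _ (hy w)
  refine ⟨N, fun w => (k w * (n₁ + n₁₁ * w.1 + n₁₂ * w.2), k w * (0 + n₂₁ * w.1 + n₂₂ * w.2)),
    hN0.trans (Nat.lt_pow_self (by norm_num)), ?_, fun w => ?_, fun w => ?_⟩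
  · funext w
    simp only [cc, H25.mp, Function.comp_apply]
    rw [← h.hom (k w) _ (hk w), ← hN (1, _, _) (x w, 0, 0)]
    simp only [Prod.smul_mk, smul_eq_mul, Prod.mk_add_mk]
    exact h.e 1 (by decide) (by linear_combination e w) (by ring) (by ring)
  · exact ⟨x w * (n₁ + n₁₁ * w.1 + n₁₂ * w.2), by
      linear_combination (n₁ + n₁₁ * w.1 + n₁₂ * w.2) * e w⟩
  · exact ⟨x w * (0 + n₂₁ * w.1 + n₂₂ * w.2), by
      linear_combination (0 + n₂₁ * w.1 + n₂₂ * w.2) * e w⟩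

/-- a map of the first order with its symbol -/
def One (g : V → V) (t c q r : ℤ) : Prop :=
  ∃ u l n₁ n₁₁ n₁₂ n₂₁ n₂₂ : ℤ, g = mp u l n₁ n₁₁ n₁₂ n₂₁ n₂₂ ∧ ¬ 3 ∣ u ∧ 3 ∣ l - u * q ∧
    3 ∣ n₁ - u * t ∧ 3 ∣ n₁₁ - u ∧ 9 ∣ n₁₂ - u * (3 * c) ∧ 3 ∣ n₂₁ - u * r ∧ 3 ∣ n₂₂ - u

/-- a map of the third order with its symbol -/
def Thr (g : V → V) (t : ℤ) : Prop :=
  ∃ u l n₁ n₁₁ n₁₂ n₂₁ n₂₂ : ℤ, g = mp u (3 * l) n₁ n₁₁ n₁₂ n₂₁ n₂₂ ∧ ¬ 3 ∣ u ∧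
    9 ∣ n₁ - u * (3 * t) ∧ 9 ∣ n₁₁ - u ∧ 9 ∣ n₁₂ ∧ 3 ∣ n₂₁ ∧ 3 ∣ n₂₂ - u

theorem Thr.one {g : V → V} {t : ℤ} (h : Thr g t) : One g 0 0 0 0 := by
  obtain ⟨u, l, n₁, n₁₁, n₁₂, n₂₁, n₂₂, e, h0, h1, h2, h3, h4, h5⟩ := h
  refine ⟨u, 3 * l, n₁, n₁₁, n₁₂, n₂₁, n₂₂, e, h0, by omega, ?_, by omega, by omega, by omega, h5⟩
  rw [show u * (3 * t) = 3 * (u * t) by ring] at h1
  omega

theorem One.hm {g : V → V} {t c q r : ℤ} (hg : One g t c q r) (h : Hm F) : Hm (F ∘ g) := by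
  obtain ⟨u, l, n₁, n₁₁, n₁₂, n₂₁, n₂₂, rfl, -⟩ := hg
  exact h.mp ..

section

variable (hW : RowDEGW) (hT : RowTAYW)

include hT in
theorem One.key {g : V → V} {t c q r : ℤ} (hg : One g t c q r) (h : Hm F) {n : ℕ}
    (hn : Dg (n + 1) F) : Dg (n + 1) (F ∘ g) ∧ ∀ i j : ℕ, n ≤ i + 2 * j + 1 → cf (F ∘ g) i j =
      cf F i j - t * cf F (i + 1) j + j * c * cf F (i + 3) (j - 1) +
        i * (i - 1) * q * cf F (i + 1) j + i * r * cf F (i - 1) (j + 1) := by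
  obtain ⟨u, l, n₁, n₁₁, n₁₂, n₂₁, n₂₂, rfl, h0, h1, h2, h3, h4, h5, h6⟩ := hg
  obtain ⟨N, g, hN, e, g1, g2⟩ := h.chart n u l n₁ n₁₁ n₁₂ n₂₁ n₂₂ h0
  unfold Dg cf
  rw [e]
  exact hT.one n N _ g u l n₁ 0 n₁₁ n₁₂ n₂₁ n₂₂ t c q r hn hN h0 h1 h2 h3 h4 h5 h6 g1 g2

include hW hT

theorem One.top {g : V → V} {t c q r : ℤ} (hg : One g t c q r) (h : Hm F) {n : ℕ}
    (hn : Dg (n + 1) F) : Dg (n + 1) (F ∘ g) ∧ ∀ i j : ℕ, n ≤ i + 2 * j → cf (F ∘ g) i j = cf F i j := by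
  refine ⟨(hg.key hT h hn).1, fun i j e => ?_⟩
  rw [(hg.key hT h hn).2 i j (by omega), hn.cf0 hW (i := i + 1) (by omega),
    hn.cf0 hW (i := i + 3) (by omega), hn.cf0 hW (i := i - 1) (j := j + 1) (by omega)]
  ring

theorem One.dif {g : V → V} {t c q r : ℤ} (hg : One g t c q r) (h : Hm F) {n : ℕ}
    (hn : Dg (n + 1) F) : Dg n (F ∘ g - F) ∧ ∀ i j : ℕ, n ≤ i + 2 * j + 1 → cf (F ∘ g - F) i j =
      (i * (i - 1) * q - t) * cf F (i + 1) j + j * c * cf F (i + 3) (j - 1) +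
        i * r * cf F (i - 1) (j + 1) := by
  refine ⟨Dg.down hW 1 ((hg.key hT h hn).1.sub hn) fun i j e => ?_, fun i j e => ?_⟩
  · rw [cf_sub, (hg.top hW hT h hn).2 i j e, sub_self]
  · rw [cf_sub, (hg.key hT h hn).2 i j e]
    ring

theorem Thr.dif {g : V → V} {t : ℤ} (hg : Thr g t) (h : Hm F) {n : ℕ} (hn : Dg (n + 3) F) :
    Dg n (F ∘ g - F) ∧ ∀ i j : ℕ, n ≤ i + 2 * j + 1 →
      cf (F ∘ g - F) i j = -t * cf F (i + 3) j := by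
  have h7 := (hg.one.key hT h hn).1.sub hn
  have key : ∀ i j : ℕ, n ≤ i + 2 * j + 1 → cf (F ∘ g - F) i j = -t * cf F (i + 3) j := by
    intro i j e
    obtain ⟨u, l, n₁, n₁₁, n₁₂, n₂₁, n₂₂, rfl, h0, h1, h2, h3, h4, h5⟩ := hg
    obtain ⟨N, g, hN, e', g1, g2⟩ := h.chart (n + 2) u (3 * l) n₁ n₁₁ n₁₂ n₂₁ n₂₂ h0
    rw [show 3 * (3 * l) = 9 * l by ring] at g1 g2
    rw [cf_sub]
    unfold cf
    rw [e', hT.three (n + 2) N _ g u l n₁ 0 n₁₁ n₁₂ n₂₁ n₂₂ t hn hN h0 h1 h2 h3 (by simp) h4 h5 g1 g2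
      i j (by omega)]
    ring
  refine ⟨Dg.down hW 3 h7 fun i j e => ?_, key⟩
  rw [key i j (by omega), hn.cf0 hW (by omega), mul_zero]

theorem Thr.dif0 {g : V → V} (hg : Thr g 0) (h : Hm F) {n : ℕ} (hn : Dg (n + 4) F) :
    Dg n (F ∘ g - F) := by
  obtain ⟨h1, h2⟩ := hg.dif hW hT h (n := n + 1) hn
  refine Dg.down hW 1 h1 fun i j e => ?_
  rw [h2 i j (by omega)]
  simp

/-- the norm of a map of order three -/
theorem One.norm {g g' : V → V} {t c q r t' c' q' r' : ℤ} (hg : One g t c q r)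
    (hg' : One g' t' c' q' r') (hi : ∀ v, g' (g v) = (4 : ℤ) • v) (h : Hm F) {n : ℕ}
    (hn : Dg (n + 2) F) : ∃ x : ℕ → ℕ → ZMod 3,
      (∀ i j : ℕ, n ≤ i + 2 * j → x i j = (i * (i - 1) * q - t) * cf F (i + 1) j +
        j * c * cf F (i + 3) (j - 1) + i * r * cf F (i - 1) (j + 1)) ∧
      ∀ i j : ℕ, n ≤ i + 2 * j + 1 → cf (F + F ∘ g + F ∘ g') i j =
        (i * (i - 1) * q - t) * x (i + 1) j + j * c * x (i + 3) (j - 1) +
          i * r * x (i - 1) (j + 1) := by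
  have m1 := hg'.hm h
  obtain ⟨d1, e1⟩ := hg'.top hW hT h hn
  obtain ⟨d2, e2⟩ := hg.dif hW hT m1 d1
  have m2 := (hg.hm m1).sub m1
  refine ⟨cf ((F ∘ g') ∘ g - F ∘ g'), fun i j e => ?_, fun i j e => ?_⟩
  · rw [e2 i j (by omega), e1 _ _ (by omega), e1 _ _ (by omega), e1 _ _ (by omega)]
  · have e3 : F + F ∘ g + F ∘ g' = ((F ∘ g') ∘ g - F ∘ g') ∘ g - ((F ∘ g') ∘ g - F ∘ g') := by
      funext v
      simp only [Pi.add_apply, Pi.sub_apply, Function.comp_apply, hi, h.hom 4 _ (by decide)]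
      linear_combination F v * three0
    rw [e3]
    rcases Nat.eq_zero_or_pos n with rfl | h0
    · exact (hg.dif hW hT m2 d2).2 i j (by omega)
    · exact (hg.dif hW hT m2 d2).2 i j e

end

/-- the conjugate rotations -/
def ta : V → V := mp 1 (-1) 1 1 0 0 (-2)

def ta' : V → V := mp 1 1 (-1) 1 0 0 (-2)

def ro : V → V := mp (-14) (3 * 0) 0 13 9 (-3) 13

def ro' : V → V := mp (-14) (3 * 0) 0 13 (-9) 3 13

def tr : V → V := mp 13 (3 * -1) 3 13 0 0 (-14)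

def tr' : V → V := mp 13 (3 * 1) (-3) 13 0 0 (-14)

theorem one_sg : One sg 0 1 0 (-1) :=
  ⟨-2, 0, 0, 1, 3, -1, 1, funext fun v => by
    simp only [sg, mp, Prod.mk.injEq]
    exact ⟨by ring, by ring, by ring⟩, by decide⟩

theorem one_sg' : One sg' 0 (-1) 0 1 :=
  ⟨-2, 0, 0, 1, -3, 1, 1, funext fun v => by
    simp only [sg', mp, Prod.mk.injEq]
    exact ⟨by ring, by ring, by ring⟩, by decide⟩

theorem one_ta : One ta 1 0 (-1) 0 := ⟨_, _, _, _, _, _, _, rfl, by decide⟩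

theorem one_ta' : One ta' (-1) 0 1 0 := ⟨_, _, _, _, _, _, _, rfl, by decide⟩

theorem one_p7 (s : ℤ) : One (p7 s) 0 s 0 (-s) :=
  ⟨7, 0, 0, 1, 12 * s, -4 * s, 1, funext fun v => by
    simp only [p7, mp, Prod.mk.injEq]
    exact ⟨by ring, by ring, by ring⟩, by omega⟩

theorem one_q7 (s : ℤ) : One (q7 s) s 0 (-s) 0 :=
  ⟨1, -4 * s, 4 * s, 1, 0, 0, 7, funext fun v => by
    simp only [q7, mp, Prod.mk.injEq]
    exact ⟨by ring, by ring, by ring⟩, by omega⟩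

theorem thr_ro : Thr ro 0 := ⟨_, _, _, _, _, _, _, rfl, by decide⟩

theorem thr_ro' : Thr ro' 0 := ⟨_, _, _, _, _, _, _, rfl, by decide⟩

theorem thr_tr : Thr tr 1 := ⟨_, _, _, _, _, _, _, rfl, by decide⟩

theorem thr_tr' : Thr tr' (-1) := ⟨_, _, _, _, _, _, _, rfl, by decide⟩

theorem sg_sg (v : V) : sg' (sg v) = (4 : ℤ) • v := by
  obtain ⟨a, y, b⟩ := v
  simp only [sg, sg', Prod.smul_mk, smul_eq_mul, Prod.mk.injEq]
  exact ⟨by ring, by ring, by ring⟩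

theorem ta_ta (v : V) : ta' (ta v) = (4 : ℤ) • v := by
  obtain ⟨a, y, b⟩ := v
  simp only [ta, ta', mp, Prod.smul_mk, smul_eq_mul, Prod.mk.injEq]
  exact ⟨by ring, by ring, by ring⟩

end Pool.Agent.MP_5f72fe_nt.H25
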