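import Pool.Agent.MP_5f72fe_nt.H3.SpecC

/-! Statements: the class number formula for `ℚ(√-n)`, `n ≡ 3 (mod 4)`, and counts. -/

namespace Pool.Agent.MP_5f72fe_nt.H25N

open Filter Topology NumberField Pool.Agent.MP_1246c0_nt.H55 Pool.Agent.MP_5f72fe_nt.H3
open scoped Real NumberTheorySymbols

noncomputable section

/-- a quadratic field with a square root of `-n` and its conjugation -/
structure QN4 {K : Type} [Field K] [NumberField K] (n : ℕ) (s : K) (τ : K ≃ₐ[ℚ] K) : Prop where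
  rank : Module.finrank ℚ K = 2
  md : n % 4 = 3 ∧ 7 ≤ n
  sf : Squarefree n
  sq : s ^ 2 = -n
  conj : τ s = -s

/-- basic facts -/
structure RowQN4 : Prop where
  model : ∀ n : ℕ, n % 4 = 3 ∧ 7 ≤ n → Squarefree n →
    ∃ (K : Type) (_ : Field K) (_ : NumberField K) (s : K) (τ : K ≃ₐ[ℚ] K), QN4 n s τ
  rep : ∀ (K : Type) [Field K] [NumberField K] (n : ℕ) (s : K) (τ : K ≃ₐ[ℚ] K), QN4 n s τ →
    (∀ x : K, ∃ a b : ℚ, x = a + b * s ∧ τ x = a - b * s) ∧ (∀ a b : ℚ, a + b * s = 0 → a = 0 ∧ b = 0)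
  int : ∀ (K : Type) [Field K] [NumberField K] (n : ℕ) (s : K) (τ : K ≃ₐ[ℚ] K), QN4 n s τ →
    ∀ x : K, IsIntegral ℤ x ↔ ∃ a b : ℤ, x = a + b * ((1 + s) / 2)
  basis : ∀ (K : Type) [Field K] [NumberField K] (n : ℕ) (s : K) (τ : K ≃ₐ[ℚ] K), QN4 n s τ →
    ∀ I : Ideal (𝓞 K), I ≠ ⊥ → ∃ α ∈ I, ∃ β ∈ I,
      (α : K) * τ β - τ α * β = (Ideal.absNorm I : ℕ) * s ∧ ∀ x ∈ I, ∃ a b : ℤ, x = a * α + b * β
  norm : ∀ (K : Type) [Field K] [NumberField K] (n : ℕ) (s : K) (τ : K ≃ₐ[ℚ] K), QN4 n s τ →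
    ∀ x : 𝓞 K, (x : K) * τ x = (Ideal.absNorm (Ideal.span {x}) : ℕ)
  unit : ∀ (K : Type) [Field K] [NumberField K] (n : ℕ) (s : K) (τ : K ≃ₐ[ℚ] K), QN4 n s τ →
    ∀ x : 𝓞 K, IsUnit x → x = 1 ∨ x = -1

/-- cubic forms attached to a class of order three -/
def RowALG4 : Prop :=
  ∀ (K : Type) [Field K] [NumberField K] (n : ℕ) (s : K) (τ : K ≃ₐ[ℚ] K), QN4 n s τ →
    3 ∣ Nat.card (ClassGroup (𝓞 K)) →
    ∃ f g : Fm ℤ, Aniso f ∧ Aniso g ∧ dsc f = -n ∧ dsc g = -n ∧ ¬ Eqv f g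

/-- the first Bernoulli number of the character `J(· | N)` -/
def BB (N : ℕ) : ℚ := (∑ a ∈ Finset.range N, (a : ℚ) * (J(a | N) : ℤ)) / N

/-- the number of roots of `b² ≡ -n (mod 4 a)` modulo `2 a` -/
def rho (n a : ℕ) : ℕ := ((Finset.range (2 * a)).filter fun b => 4 * a ∣ b ^ 2 + n).card

/-- ideals of norm `m` are `e (a, (b + s) / 2)` with `e² a = m` -/
def RowIDL1 : Prop :=
  ∀ (K : Type) [Field K] [NumberField K] (n : ℕ) (s : K) (τ : K ≃ₐ[ℚ] K), QN4 n s τ →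
    ∀ m : ℕ, 1 ≤ m → Nat.card {I : Ideal (𝓞 K) // Ideal.absNorm I = m} =
      ∑ e ∈ m.divisors.filter fun e => e ^ 2 ∣ m, rho n (m / e ^ 2)

/-- the arithmetic identity -/
def RowIDL2 : Prop :=
  ∀ n m : ℕ, n % 4 = 3 → Squarefree n → 1 ≤ m →
    ((∑ e ∈ m.divisors.filter fun e => e ^ 2 ∣ m, rho n (m / e ^ 2) : ℕ) : ℤ) =
      ∑ d ∈ m.divisors, J(d | n)

/-- the residue of the zeta function -/
def RowINV : Prop :=
  ∀ (K : Type) [Field K] [NumberField K] (n : ℕ) (s : K) (τ : K ≃ₐ[ℚ] K), QN4 n s τ →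
    dedekindZeta_residue K = π * Nat.card (ClassGroup (𝓞 K)) / √n

/-- the value `L(1, χ)` -/
def RowLONE : Prop :=
  ∀ n : ℕ, n % 4 = 3 → Squarefree n →
    Tendsto (fun s : ℝ => LSeries (fun m => (J(m | n) : ℂ)) s) (𝓝[>] 1)
      (𝓝 ((-π * BB n / √n : ℝ) : ℂ))

/-- the class number formula -/
def RowCNF : Prop :=
  ∀ (K : Type) [Field K] [NumberField K] (n : ℕ) (s : K) (τ : K ≃ₐ[ℚ] K), QN4 n s τ →
    BB n = -(Nat.card (ClassGroup (𝓞 K)) : ℚ)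

def RowLOC18 : Prop := Dens 18 (fun f => dsc f % 36 = 21) (1 / 27)

open Classical in
def RowFDN5 : Prop :=
  ∀ᶠ X : ℕ in atTop, (3 / 50 : ℝ) * X ≤
    (((Finset.range (X + 1)).filter fun n => n % 12 = 5 ∧ Squarefree n).card : ℝ)

open Classical in
/-- the two counts -/
def RowCNTB : Prop :=
  (∀ᶠ X : ℕ in atTop, (1 / 250 : ℝ) * X ≤ (((Finset.range (X + 1)).filter fun N =>
    N % 12 = 7 ∧ Squarefree N ∧ ¬ (3 : ℤ) ∣ (BB N).num).card : ℝ)) ∧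
  (∀ᶠ X : ℕ in atTop, (1 / 500 : ℝ) * X ≤ (((Finset.range (X + 1)).filter fun N =>
    N % 12 = 5 ∧ Squarefree N ∧ ¬ (3 : ℤ) ∣ (BB (3 * N)).num).card : ℝ))

def OfALG4 : Prop := RowQN4 → RowALG4
def OfIDL1 : Prop := RowQN4 → RowIDL1
def OfINV : Prop := RowQN4 → RowINV
def OfLONE : Prop := RowJH → RowGAUSS → RowLONE
def OfCNF : Prop := RowIDL1 → RowIDL2 → RowINV → RowLONE → RowCNF
def OfCNTB : Prop :=
  RowQN4 → RowALG4 → RowCNF → RowCNTN → RowLOC6 → RowFDN → RowLOC18 → RowFDN5 → RowCNTB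

end

end Pool.Agent.MP_5f72fe_nt.H25N
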