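import Pool.Agent.MP_5f72fe_nt.MS.S3

/-! Modular symbols at `3`, statements for the central value: small levels. -/

namespace Pool.Agent.MP_5f72fe_nt.MS

open Complex
open scoped Real UpperHalfPlane MatrixGroups

noncomputable section

/-- a sequence tending to zero `3`-adically at the full rate -/
def Nul (s : ℕ → ℚ) : Prop := ∃ E : ℕ, ∀ j : ℕ, In (3 ^ E * s j / 3 ^ j)

/-- approximate symbols attached to lattices -/
structure VI (m e : ℕ) (B : Bf ℚ) (I : ℕ → Bf ℚ) : Prop where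
  p1 : ∀ j c c' v w y, Hp m fun x => I j c c' v w x y
  p2 : ∀ j c c' v w x, Hp m fun y => I j c c' v w x y
  hom : ∀ (c : V) (l : ℚ) (v w x y : V), c ≠ 0 → l ≠ 0 → Nul fun j => I j c (l • c) v w x y
  add : ∀ c c' c'' v w x y : V, c ≠ 0 → c' ≠ 0 → c'' ≠ 0 →
    Nul fun j => I j c c' v w x y + I j c' c'' v w x y - I j c c'' v w x y
  inv : ∀ (g : Mt) (a : ℕ), det g = 3 ^ a → ∀ c c' v w x y : V, Nul fun j =>
    I j (ap g c) (ap g c') (ap g v) (ap g w) (ap g x) (ap g y) - (det g : ℚ) ^ m * I j c c' v w x y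
  lat : ∀ (c c' v w x y : V) (p q r s : ℚ), In p → In q → In r → In s → Un (p * s - q * r) →
    Nul fun j => I j c c' (p • v + q • w) (r • v + s • w) x y - I j c c' v w x y
  cob : ∀ c c' v w x y : V, Nul fun j =>
    3 ^ e * B c c' v w x y - (I j c c' v ((1 / 3 : ℚ) • w) x y - I j c c' v w x y)

def RowVI : Prop :=
  ∀ (m e : ℕ) (B : Bf ℚ), BD (m + 1) 1 B → (∀ c c' x y, R0 1 fun v w => B c c' v w x y) →
    (∀ c c' v w, In (3 ^ e * ph (m + 1) B c c' v w)) →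
    (∀ j : ℕ, ∃ z : Sb (ZMod (3 ^ j)), SL z ∧
      (fun c c' v w => red (3 ^ j) (3 ^ e * ph (m + 1) B c c' v w)) = z - tt z) →
    ∃ I, VI m e B I

/-- the polynomial with coefficients `β i` -/
def Pb {K : Type} [AddCommGroup K] [Module ℚ K] (m : ℕ) (β : ℕ → K) : V → K := fun x =>
  ∑ i ∈ Finset.range (2 * m + 1), (x.1 ^ i * x.2 ^ (2 * m - i)) • β i

/-- the solution of the difference equation -/
def Pd {K : Type} [AddCommGroup K] [Module ℚ K] (m : ℕ) (β : ℕ → K) : V → K :=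
  Pb m fun i => ((3 : ℚ) ^ i / 3 ^ m - 1)⁻¹ • β i

/-- the period relations of level one -/
def WR {K : Type} [AddCommGroup K] (P : V → K) : Prop :=
  (∀ x, P x + P (ap mS x) = 0) ∧ ∀ x, P x = P (ap (adj mT) x) + P (ap (adj mU) x)

def RowVERT : Prop :=
  ∀ (m e : ℕ) (B : Bf ℚ) (I : ℕ → Bf ℚ), VI m e B I →
    (∀ c c' v w x y : V, c ≠ 0 → c' ≠ 0 → B c c' v w x y + B c c' w ((3 : ℚ) • v) x y = 0) ∧
    (Even m → ∀ β : ℕ → ℚ, (∀ x, B e1 e2 e2 e1 x x = Pb m β x) → β m = 0 ∧ WR (Pd m β))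

/-- the forms of level one -/
abbrev C1 (k : ℕ) := CuspForm (CongruenceSubgroup.Gamma0 (3 ^ 0)) (2 * k : ℕ)

/-- the dimension of the space of period polynomials -/
def RowESD : Prop :=
  ∀ m : ℕ, 1 ≤ m → Module.Finite ℂ (C1 (m + 1)) ∧ ∀ (n : ℕ) (P : Fin n → V → ℂ),
    LinearIndependent ℂ P → (∀ i, Hp (2 * m) (P i) ∧ WR (P i)) →
      n ≤ 2 * Module.finrank ℂ (C1 (m + 1)) + 1

/-- injectivity modulo the boundary -/
def RowINJC : Prop :=
  ∀ (k : ℕ) (h h' : ℂ → ℂ) (η κ : ℂ), 2 ≤ k → Cu k h → Cu k h' → Cg k h → Cg k h' →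
    (∀ q : ℚ, Per k h (q, 1) (q, 1) e1 (q, 1) + η * Per k h' (-q, 1) (-q, 1) e1 (-q, 1) = κ) →
    h = 0 ∧ κ = 0

/-- the even or odd part of the period polynomial -/
def rp (k : ℕ) (h : ℂ → ℂ) (η : ℂ) : V → ℂ := fun x =>
  Per k h x x e1 e2 + η * Per k h (ap mN x) (ap mN x) e1 e2

/-- one path generates -/
def RowIND3 : Prop :=
  ∀ (A : Type) [AddCommGroup A] (f : V → V → A) (P : AddSubgroup A), Ad f →
    (∀ g : Mt, det g = 1 → 3 ∣ g.2.2.1 → f (ap g e1) (ap g e2) ∈ P) →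
    ∀ c c' : V, c ≠ 0 → c' ≠ 0 → f c c' ∈ P

/-- a form whose period polynomial is a boundary -/
def RowBDY : Prop :=
  ∀ (m : ℕ) (h : ℂ → ℂ) (η a b : ℂ), 1 ≤ m → Cu (m + 1) h →
    (∀ g : Mt, det g = 1 → 3 ∣ g.2.2.1 → sl (m + 1) g h = h) →
    (∀ x : V, rp (m + 1) h η x = a * (x.1 : ℂ) ^ (2 * m) + b * (x.2 : ℂ) ^ (2 * m)) →
    h = 0 ∧ b = 0

/-- even period polynomials come from cusp forms -/
def RowES : Prop :=
  ∀ (m : ℕ) (P : V → ℂ), 1 ≤ m → Hp (2 * m) P → WR P → (∀ x, P (ap mN x) = P x) →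
    ∃ (g : C1 (m + 1)) (c : ℂ), ∀ x : V,
      P x = rp (m + 1) (fc g) 1 x + c * ((x.1 : ℂ) ^ (2 * m) - (x.2 : ℂ) ^ (2 * m))

/-- the trivial bound for the eigenvalue is not attained -/
def RowSUP : Prop :=
  ∀ (k : ℕ) (h : ℂ → ℂ), Cu k h → (∀ g : Mt, det g = 1 → sl k g h = h) →
    sl k (3, 0, 0, 1) h + ∑ j ∈ Finset.range 3, sl k (1, j, 0, 3) h = (4 : ℂ) • h → h = 0

/-- level three, odd `k` -/
def RowLEV3 : Prop :=
  ∀ (m : ℕ) (h : ℂ → ℂ) (a β : ℕ → ℂ), 1 ≤ m → Cu (m + 1) h →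
    (∀ g : Mt, det g = 1 → 3 ∣ g.2.2.1 → sl (m + 1) g h = h) → QE h a →
    (∀ n, a (3 * n) = 3 ^ m * a n) → (∀ x, rp (m + 1) h 1 x = Pb m β x) → β m = 0 →
    WR (Pd m β) → h = 0

/-- levels at least nine -/
def RowTREEP : Prop :=
  ∀ (B : Type) [AddCommGroup B] [Module ℚ B] (F : V → V → B) (σ : ℚ) (r M : ℕ),
    σ = 1 ∨ σ = -1 → r + 2 ≤ M → R0 (r + 2) F → Dp F → (∀ v w, dt v w = 0 → F v w = 0) →
    (∀ v w, F ((3 : ℚ) • v) ((3 : ℚ) • w) = F v w) →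
    (∀ v w, F w ((3 ^ (r + 2) : ℚ) • v) = σ • F v w) →
    Rect 1 M (fun v w => F v w + F v ((3 ^ (r + 1) : ℚ) • w)) → F = 0

def OfVI : Prop := RowBAS → RowINT → RowVI
def OfVERT : Prop := RowBAS → RowINT → RowVERT
def OfINJC : Prop := RowCU → RowINJC
def OfIND3 : Prop := RowIND1 → RowIND3
def OfBDY : Prop := RowCU → RowPER → RowIND3 → RowINJC → RowBDY
def OfES : Prop := RowINT → RowCU → RowPER → RowCUF → RowESD → RowBDY → RowES
def OfSUP : Prop := RowCU → RowSUP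
def OfLEV3 : Prop :=
  RowINT → RowCU → RowPER → RowCUF → RowQE → RowBDY → RowES → RowSUP → RowLEV3
def OfTREEP : Prop := RowBAS → RowLOC → RowTREEP

end

end Pool.Agent.MP_5f72fe_nt.MS
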